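import Pool.Agent.LRC.Targets

set_option autoImplicit false

/-!
# LRC, RES: the sparsity does not increase under restriction to a coset
-/

open scoped Classical

noncomputable section

namespace Pool.Agent.LRC

namespace RES_

theorem sg_add (a b : ZMod 2) : sg (a + b) = sg a * sg b := by
  unfold sg
  revert a b
  intro a b
  have ha : a = 0 ∨ a = 1 := by revert a; decide
  have hb : b = 0 ∨ b = 1 := by revert b; decide
  have h10 : (1 : ZMod 2) ≠ 0 := by decide
  have h11 : (1 : ZMod 2) + 1 = 0 := by decide
  rcases ha with ha | ha <;> rcases hb with hb | hb <;> subst ha <;> subst hb <;> simp [h10, h11]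

theorem sg_self (a : ZMod 2) : sg a * sg a = 1 := by
  unfold sg
  split_ifs <;> norm_num

theorem sum_sg {V : Type} [AddCommGroup V] [Fintype V] (φ : V → ZMod 2)
    (hadd : ∀ x y, φ (x + y) = φ x + φ y) (v0 : V) (h : φ v0 ≠ 0) : ∑ v, sg (φ v) = 0 := by
  have h1 : ∑ v, sg (φ v) = ∑ v, sg (φ (v + v0)) :=
    (Equiv.sum_comp (Equiv.addRight v0) (fun v => sg (φ v))).symm
  have h2 : ∑ v, sg (φ (v + v0)) = - ∑ v, sg (φ v) := by
    rw [← Finset.sum_neg_distrib]
    apply Finset.sum_congr rfl
    intro v _
    rw [hadd, sg_add]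
    have : sg (φ v0) = -1 := by
      unfold sg
      rw [if_neg h]
    rw [this]
    ring
  linarith

variable {E : Type} [AddCommGroup E] [Module (ZMod 2) E] [Finite E]

theorem dual_finite : Finite (Module.Dual (ZMod 2) E) :=
  Finite.of_injective (fun l : Module.Dual (ZMod 2) E => (l : E → ZMod 2)) DFunLike.coe_injective

/-- inversion up to a factor -/
theorem inv [Fintype (Module.Dual (ZMod 2) E)] (F : E → ℝ) (z : E) :
    ∑ l : Module.Dual (ZMod 2) E, fco F l * sg (l z) =
      F z * ((Fintype.card (Module.Dual (ZMod 2) E) : ℝ) / (Nat.card E : ℝ)) := by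
  have := Fintype.ofFinite E
  have hchar : ∀ u : E, u + u = 0 := by
    intro u
    have h2 : ((2 : ℕ) : ZMod 2) = 0 := by decide
    have : ((2 : ℕ) : ZMod 2) • u = 0 := by rw [h2, zero_smul]
    rw [Nat.cast_smul_eq_nsmul, two_nsmul] at this
    exact this
  have h1 : ∀ l : Module.Dual (ZMod 2) E, fco F l * sg (l z) =
      ∑ x : E, (F x / (Nat.card E : ℝ)) * sg (l (x + z)) := by
    intro l
    unfold fco
    rw [finsum_eq_sum_of_fintype, div_mul_eq_mul_div, Finset.sum_mul, Finset.sum_div]
    apply Finset.sum_congr rfl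
    intro x _
    rw [map_add, sg_add]
    ring
  rw [Finset.sum_congr rfl (fun l _ => h1 l), Finset.sum_comm]
  rw [Finset.sum_eq_single z]
  · rw [hchar z]
    simp only [map_zero]
    have : sg 0 = 1 := by
      unfold sg
      rw [if_pos rfl]
    rw [this, mul_one, Finset.sum_const, nsmul_eq_mul, Finset.card_univ]
    ring
  · intro x _ hx
    rw [← Finset.mul_sum]
    have hxz : x + z ≠ 0 := by
      intro h
      apply hx
      have h3 : x + z + z = z := by rw [h, zero_add]
      rw [add_assoc, hchar z, add_zero] at h3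
      exact h3
    have hex : ∃ l : Module.Dual (ZMod 2) E, l (x + z) ≠ 0 := by
      by_contra hcon
      push Not at hcon
      exact hxz ((Module.forall_dual_apply_eq_zero_iff (ZMod 2) (x + z)).1 hcon)
    obtain ⟨l0, hl0⟩ := hex
    rw [sum_sg (fun l : Module.Dual (ZMod 2) E => l (x + z)) (fun a b => rfl) l0 hl0, mul_zero]
  · intro h
    exact absurd (Finset.mem_univ z) h

theorem key [Fintype (Module.Dual (ZMod 2) E)] (W : Submodule (ZMod 2) E) (x₀ : E) (F : E → ℝ)
    (m : Module.Dual (ZMod 2) W) (h : ∀ l : Module.Dual (ZMod 2) E, l.comp W.subtype = m → fco F l = 0) :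
    fco (fun w : W => F (x₀ + (w : E))) m = 0 := by
  have := Fintype.ofFinite E
  have := Fintype.ofFinite W
  have hE : (0 : ℝ) < (Nat.card E : ℝ) := by
    exact_mod_cast Nat.card_pos
  have hD : (0 : ℝ) < (Fintype.card (Module.Dual (ZMod 2) E) : ℝ) := by
    exact_mod_cast Fintype.card_pos
  set c : ℝ := (Fintype.card (Module.Dual (ZMod 2) E) : ℝ) / (Nat.card E : ℝ) with hc
  have hcp : 0 < c := div_pos hD hE
  have h0 : (∑ w : W, F (x₀ + (w : E)) * sg (m w)) * c = 0 := by
    rw [Finset.sum_mul]
    have h1 : ∀ w : W, F (x₀ + (w : E)) * sg (m w) * c =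
        ∑ l : Module.Dual (ZMod 2) E, fco F l * sg (l x₀) * sg ((l.comp W.subtype + m) w) := by
      intro w
      have h2 := inv F (x₀ + (w : E))
      rw [← hc] at h2
      calc F (x₀ + (w : E)) * sg (m w) * c = (F (x₀ + (w : E)) * c) * sg (m w) := by ring
        _ = (∑ l : Module.Dual (ZMod 2) E, fco F l * sg (l (x₀ + (w : E)))) * sg (m w) := by rw [h2]
        _ = _ := by
          rw [Finset.sum_mul]
          apply Finset.sum_congr rfl
          intro l _
          have h3 : (l.comp W.subtype + m) w = l (w : E) + m w := rfl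
          rw [h3, map_add, sg_add, sg_add]
          ring
    rw [Finset.sum_congr rfl (fun w _ => h1 w), Finset.sum_comm]
    apply Finset.sum_eq_zero
    intro l _
    rw [← Finset.mul_sum]
    by_cases hl : l.comp W.subtype = m
    · rw [h l hl]
      ring
    · have hex : ∃ w : W, (l.comp W.subtype + m) w ≠ 0 := by
        by_contra hcon
        push Not at hcon
        apply hl
        ext w
        have h4 : l (w : E) + m w = 0 := hcon w
        have h5 : ∀ a b : ZMod 2, a + b = 0 → a = b := by decide
        exact h5 _ _ h4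
      obtain ⟨w0, hw0⟩ := hex
      rw [sum_sg (fun w : W => (l.comp W.subtype + m) w) (fun a b => map_add _ a b) w0 hw0, mul_zero]
  have h6 : (∑ w : W, F (x₀ + (w : E)) * sg (m w)) = 0 := by
    rcases mul_eq_zero.1 h0 with h7 | h7
    · exact h7
    · exact absurd h7 hcp.ne'
  unfold fco
  rw [finsum_eq_sum_of_fintype, h6, zero_div]

end RES_

open RES_ in
theorem p_RES : T_RES := by
  intro E _ _ _ W x₀ F
  have := dual_finite (E := E)
  have := Fintype.ofFinite (Module.Dual (ZMod 2) E)
  have hex : ∀ m : {m : Module.Dual (ZMod 2) W // fco (fun w : W => F (x₀ + (w : E))) m ≠ 0},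
      ∃ l : {l : Module.Dual (ZMod 2) E // fco F l ≠ 0}, (l : Module.Dual (ZMod 2) E).comp W.subtype = m := by
    intro m
    by_contra hcon
    push Not at hcon
    apply m.2
    apply key
    intro l hl
    by_contra hne
    exact hcon ⟨l, hne⟩ hl
  choose g hg using hex
  unfold spa
  apply Nat.card_le_card_of_injective g
  intro m m' hmm
  apply Subtype.ext
  rw [← hg m, ← hg m', hmm]

end Pool.Agent.LRC
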