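import Pool.Agent.LRC.Targets

/-!
# LRC: target MVP (polynomials of degree at most `3` have zero fourth derivatives)
-/

set_option autoImplicit false

open scoped Classical

noncomputable section

namespace Pool.Agent.LRC

namespace MVP_

/-- all derivatives of order `d + 1` vanish -/
def DD {n : ℕ} : ℕ → ((Fin n → ZMod 2) → ZMod 2) → Prop
  | 0, P => ∀ a x, Dv a P x = 0
  | d + 1, P => ∀ a, DD d (Dv a P)

variable {n : ℕ}

theorem Dv_add (a : Fin n → ZMod 2) (P Q : (Fin n → ZMod 2) → ZMod 2) :
    Dv a (fun x => P x + Q x) = fun x => Dv a P x + Dv a Q x := by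
  funext x
  unfold Dv
  ring

theorem Dv_mul (a : Fin n → ZMod 2) (c : ZMod 2) (P : (Fin n → ZMod 2) → ZMod 2) :
    Dv a (fun x => c * P x) = fun x => c * Dv a P x := by
  funext x
  unfold Dv
  ring

theorem DD_add (d : ℕ) : ∀ P Q : (Fin n → ZMod 2) → ZMod 2, DD d P → DD d Q →
    DD d (fun x => P x + Q x) := by
  induction d with
  | zero =>
    intro P Q hP hQ a x
    rw [Dv_add]
    show Dv a P x + Dv a Q x = 0
    rw [hP a x, hQ a x, add_zero]
  | succ d ih =>
    intro P Q hP hQ a
    rw [Dv_add]
    exact ih _ _ (hP a) (hQ a)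

theorem DD_mul (d : ℕ) (c : ZMod 2) : ∀ P : (Fin n → ZMod 2) → ZMod 2, DD d P →
    DD d (fun x => c * P x) := by
  induction d with
  | zero =>
    intro P hP a x
    rw [Dv_mul]
    show c * Dv a P x = 0
    rw [hP a x, mul_zero]
  | succ d ih =>
    intro P hP a
    rw [Dv_mul]
    exact ih _ (hP a)

theorem DD_succ (d : ℕ) : ∀ P : (Fin n → ZMod 2) → ZMod 2, DD d P → DD (d + 1) P := by
  induction d with
  | zero =>
    intro P hP a b x
    show Dv a P (x + b) + Dv a P x = 0
    rw [hP a (x + b), hP a x, add_zero]
  | succ d ih =>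
    intro P hP a
    exact ih _ (hP a)

theorem DD_const (c : ZMod 2) : DD 0 (fun _ : Fin n → ZMod 2 => c) := by
  intro a x
  show c + c = 0
  revert c
  decide

theorem DD_trans (d : ℕ) (h : Fin n → ZMod 2) (P : (Fin n → ZMod 2) → ZMod 2) (hP : DD d P) :
    DD d (fun x => P (x + h)) := by
  have e : (fun x => P (x + h)) = fun x => P x + Dv h P x := by
    funext x
    have h2 : ∀ u v : ZMod 2, u = v + (u + v) := by decide
    exact h2 _ _
  rw [e]
  refine DD_add d _ _ hP ?_
  cases d with
  | zero =>
    intro a x
    show Dv h P (x + a) + Dv h P x = 0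
    rw [hP h (x + a), hP h x, add_zero]
  | succ d => exact DD_succ d _ (hP h)

theorem DD_X (i : Fin n) (d : ℕ) : ∀ P : (Fin n → ZMod 2) → ZMod 2, DD d P →
    DD (d + 1) (fun x => x i * P x) := by
  induction d with
  | zero =>
    intro P hP h
    have e : Dv h (fun x => x i * P x) = fun x => h i * P (x + h) := by
      funext x
      have h1 : P (x + h) = P x := by
        have h2 : P (x + h) + P x = 0 := hP h x
        have h3 : ∀ u v : ZMod 2, u + v = 0 → u = v := by decide
        exact h3 _ _ h2
      show (x + h) i * P (x + h) + x i * P x = h i * P (x + h)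
      rw [h1, Pi.add_apply]
      have h3 : ∀ u v w : ZMod 2, (u + v) * w + u * w = v * w := by decide
      exact h3 _ _ _
    rw [e]
    exact DD_mul 0 _ _ (DD_trans 0 h P hP)
  | succ d ih =>
    intro P hP h
    have e : Dv h (fun x => x i * P x) = fun x => x i * Dv h P x + h i * P (x + h) := by
      funext x
      show (x + h) i * P (x + h) + x i * P x = x i * (P (x + h) + P x) + h i * P (x + h)
      rw [Pi.add_apply]
      ring
    rw [e]
    exact DD_add (d + 1) _ _ (ih _ (hP h)) (DD_mul (d + 1) _ _ (DD_trans (d + 1) h P hP))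

theorem DD_mono (d : ℕ) : ∀ m : Fin n →₀ ℕ, (m.sum fun _ e => e) ≤ d →
    DD d (fun x => MvPolynomial.eval x (MvPolynomial.monomial m (1 : ZMod 2))) := by
  induction d with
  | zero =>
    intro m hm
    have h0 : m = 0 := by
      ext i
      by_contra hne
      have h1 : m i ≤ m.sum fun _ e => e := by
        rw [Finsupp.sum_of_support_subset m (Finset.subset_univ _) _ (fun _ _ => rfl)]
        exact Finset.single_le_sum (f := fun j => m j) (fun _ _ => Nat.zero_le _)
          (Finset.mem_univ i)
      have h2 : m i = 0 := by omega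
      exact hne h2
    rw [h0]
    have e : (fun x : Fin n → ZMod 2 => MvPolynomial.eval x
        (MvPolynomial.monomial (0 : Fin n →₀ ℕ) (1 : ZMod 2))) = fun _ => 1 := by
      funext x
      simp
    rw [e]
    exact DD_const 1
  | succ d ih =>
    intro m hm
    by_cases h0 : m = 0
    · refine DD_succ d _ (ih m ?_)
      rw [h0]
      simp
    · obtain ⟨i, hi⟩ : ∃ i, m i ≠ 0 := by
        by_contra hcon
        push Not at hcon
        exact h0 (Finsupp.ext hcon)
      have hle : Finsupp.single i 1 ≤ m := by
        rw [Finsupp.single_le_iff]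
        omega
      obtain ⟨m', hm'⟩ : ∃ m', m' + Finsupp.single i 1 = m := ⟨m - Finsupp.single i 1,
        tsub_add_cancel_of_le hle⟩
      have hdeg : (m'.sum fun _ e => e) ≤ d := by
        rw [← hm', Finsupp.sum_add_index' (fun _ => rfl) (fun _ _ _ => rfl),
          Finsupp.sum_single_index rfl] at hm
        omega
      have e : (fun x : Fin n → ZMod 2 => MvPolynomial.eval x
          (MvPolynomial.monomial m (1 : ZMod 2))) =
          fun x => x i * MvPolynomial.eval x (MvPolynomial.monomial m' (1 : ZMod 2)) := by
        funext x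
        rw [← hm', add_comm, MvPolynomial.monomial_single_add, pow_one, map_mul,
          MvPolynomial.eval_X]
      rw [e]
      exact DD_X i d _ (ih m' hdeg)

end MVP_

open MVP_

theorem p_MVP : T_MVP := by
  intro n p hp
  have key : DD 3 (fun x : Fin n → ZMod 2 => MvPolynomial.eval x p) := by
    have e : (fun x : Fin n → ZMod 2 => MvPolynomial.eval x p) =
        fun x => ∑ m ∈ p.support, p.coeff m *
          MvPolynomial.eval x (MvPolynomial.monomial m (1 : ZMod 2)) := by
      funext x
      conv_lhs => rw [MvPolynomial.as_sum p]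
      rw [map_sum]
      refine Finset.sum_congr rfl fun m _ => ?_
      rw [MvPolynomial.eval_monomial, MvPolynomial.eval_monomial, one_mul]
    rw [e]
    have h : ∀ s : Finset (Fin n →₀ ℕ), (∀ m ∈ s, (m.sum fun _ e => e) ≤ 3) →
        DD 3 (fun x : Fin n → ZMod 2 => ∑ m ∈ s, p.coeff m *
          MvPolynomial.eval x (MvPolynomial.monomial m (1 : ZMod 2))) := by
      intro s
      induction s using Finset.induction_on with
      | empty =>
        intro _
        have e0 : (fun x : Fin n → ZMod 2 => ∑ m ∈ (∅ : Finset (Fin n →₀ ℕ)), p.coeff m *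
            MvPolynomial.eval x (MvPolynomial.monomial m (1 : ZMod 2))) = fun _ => 0 := by
          funext x
          simp
        rw [e0]
        exact DD_succ _ _ (DD_succ _ _ (DD_succ _ _ (DD_const 0)))
      | insert a s ha ih =>
        intro hs
        have e1 : (fun x : Fin n → ZMod 2 => ∑ m ∈ insert a s, p.coeff m *
            MvPolynomial.eval x (MvPolynomial.monomial m (1 : ZMod 2))) =
            fun x => p.coeff a * MvPolynomial.eval x (MvPolynomial.monomial a (1 : ZMod 2)) +
              ∑ m ∈ s, p.coeff m *
                MvPolynomial.eval x (MvPolynomial.monomial m (1 : ZMod 2)) := by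
          funext x
          rw [Finset.sum_insert ha]
        rw [e1]
        exact DD_add 3 _ _ (DD_mul 3 _ _ (DD_mono 3 a (hs a (Finset.mem_insert_self a s))))
          (ih fun m hm => hs m (Finset.mem_insert_of_mem hm))
    exact h p.support fun m hm => (MvPolynomial.le_totalDegree hm).trans hp
  intro a b c d x
  exact key d c b a x

end Pool.Agent.LRC
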