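import Pool.Agent.LRC.Targets

set_option autoImplicit false

/-!
# LRC-AVG: averaging over the cosets of a subspace
-/

noncomputable section

namespace Pool.Agent.LRC

namespace AVG_

open scoped Classical in
private theorem key {E : Type} [AddCommGroup E] [Module (ZMod 2) E] [Fintype E]
    (W : Submodule (ZMod 2) E) (Y : Set E) :
    ∑ x : E, Set.ncard {v | v ∈ W ∧ x + v ∈ Y} = ∑ v : E, if v ∈ W then Set.ncard Y else 0 := by
  have h1 : ∀ x : E, Set.ncard {v | v ∈ W ∧ x + v ∈ Y} =
      ∑ v : E, if v ∈ W ∧ x + v ∈ Y then 1 else 0 := by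
    intro x
    rw [Set.ncard_eq_toFinset_card', ← Finset.card_filter]
    congr 1
    ext v
    simp
  have h2 : ∀ v : E, ∑ x : E, (if v ∈ W ∧ x + v ∈ Y then 1 else 0) =
      if v ∈ W then Set.ncard Y else 0 := by
    intro v
    by_cases hv : v ∈ W
    · simp only [hv, true_and, if_true]
      rw [Set.ncard_eq_toFinset_card']
      have h3 : ∑ x : E, (if x + v ∈ Y then 1 else 0) = ∑ x : E, if x ∈ Y then 1 else 0 :=
        Fintype.sum_equiv (Equiv.addRight v) _ _ fun x => rfl
      rw [h3, ← Finset.card_filter]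
      congr 1
      ext x
      simp
    · simp [hv]
  simp only [h1]
  rw [Finset.sum_comm]
  exact Finset.sum_congr rfl fun v _ => h2 v

end AVG_

/-- averaging over the cosets of `W` -/
theorem p_AVG : T_AVG := by
  classical
  intro E _ _ _ W X B M hX hM
  haveI := Fintype.ofFinite E
  by_contra hcon
  push Not at hcon
  have hA := AVG_.key W X
  have hB := AVG_.key W {x | x ∈ X ∧ x ∈ B}
  have hle : ∀ x : E, Set.ncard {v | v ∈ W ∧ x + v ∈ X} ≤
      M * Set.ncard {v | v ∈ W ∧ x + v ∈ {x | x ∈ X ∧ x ∈ B}} := by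
    intro x
    by_cases h : ∃ v ∈ W, x + v ∈ X
    · exact (hcon x h).le
    · have : {v | v ∈ W ∧ x + v ∈ X} = ∅ := by
        ext v
        constructor
        · rintro ⟨h1, h2⟩
          exact (h ⟨v, h1, h2⟩).elim
        · exact fun h => h.elim
      rw [this, Set.ncard_empty]
      exact Nat.zero_le _
  have hlt : ∑ x : E, Set.ncard {v | v ∈ W ∧ x + v ∈ X} <
      ∑ x : E, M * Set.ncard {v | v ∈ W ∧ x + v ∈ {x | x ∈ X ∧ x ∈ B}} := by
    apply Finset.sum_lt_sum (fun x _ => hle x)
    obtain ⟨x, hx⟩ := hX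
    exact ⟨x, Finset.mem_univ _, hcon x ⟨0, W.zero_mem, by simpa using hx⟩⟩
  rw [← Finset.mul_sum, hA, hB, Finset.mul_sum] at hlt
  refine absurd hlt (not_lt.2 (Finset.sum_le_sum fun v _ => ?_))
  split_ifs
  · exact hM
  · simp

end Pool.Agent.LRC
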