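import Pool.Agent.LRC.Targets

/-!
# LRC: one-sided certificates (job LRC-CERT, helper23)
-/

set_option autoImplicit false

open scoped Classical

noncomputable section

namespace Pool.Agent.LRC

theorem p_CERT : T_CERT := by
  intro n f t b h M x W
  by_cases hw : ∃ w ∈ W, f (x + w) = b
  · obtain ⟨w, hw, hf⟩ := hw
    obtain ⟨P, hP1, hP2, hP3⟩ := h (x + w) hf
    refine ⟨P, b, hP1, ⟨w, hw, hP2⟩, ?_⟩
    have h0 : {v | v ∈ W ∧ MvZ P (x + v) ∧ f (x + v) ≠ b} = ∅ := by
      ext v
      simp only [Set.mem_setOf_eq, Set.mem_empty_iff_false, iff_false]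
      rintro ⟨_, h2, h3⟩
      exact h3 (hP3 _ h2)
    rw [h0, Set.ncard_empty, mul_zero]
    exact Nat.zero_le _
  · push Not at hw
    refine ⟨fun _ => 0, !b, fun i => by simp, ⟨0, W.zero_mem, fun i => by simp⟩, ?_⟩
    have h0 : {v | v ∈ W ∧ MvZ (fun _ : Fin t => (0 : MvPolynomial (Fin n) (ZMod 2))) (x + v) ∧
        f (x + v) ≠ !b} = ∅ := by
      ext v
      simp only [Set.mem_setOf_eq, Set.mem_empty_iff_false, iff_false]
      rintro ⟨h1, _, h3⟩
      apply hw v h1
      revert h3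
      cases f (x + v) <;> cases b <;> simp
    rw [h0, Set.ncard_empty, mul_zero]
    exact Nat.zero_le _

end Pool.Agent.LRC
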