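import Pool.Agent.LRC.Targets

set_option autoImplicit false

/-!
# MP_9f5962_lc: job CONST

A sparse `0/1` valued function which is rarely nonzero on a nonempty regular level set is zero.
-/

open scoped Classical

noncomputable section

namespace Pool.Agent.LRC

namespace CONST_

theorem zmod_cases (a : ZMod 2) : a = 0 ∨ a = 1 := by
  revert a; decide

theorem sg_zero : sg 0 = 1 := by simp [sg]

theorem sg_one : sg 1 = -1 := by
  have h10 : (1 : ZMod 2) ≠ 0 := by decide
  simp [sg, h10]

theorem sg_add (a b : ZMod 2) : sg (a + b) = sg a * sg b := by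
  have h11 : (1 : ZMod 2) + 1 = 0 := by decide
  rcases zmod_cases a with rfl | rfl <;> rcases zmod_cases b with rfl | rfl
  · rw [add_zero, sg_zero, one_mul]
  · rw [zero_add, sg_zero, one_mul]
  · rw [add_zero, sg_zero, mul_one]
  · rw [h11, sg_zero, sg_one]; norm_num

theorem abs_sg (a : ZMod 2) : |sg a| = 1 := by
  rcases zmod_cases a with rfl | rfl
  · rw [sg_zero]; norm_num
  · rw [sg_one]; norm_num

theorem sg_sum {ι : Type} (s : Finset ι) (f : ι → ZMod 2) :
    sg (∑ i ∈ s, f i) = ∏ i ∈ s, sg (f i) := by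
  induction s using Finset.induction_on with
  | empty => simp [sg_zero]
  | insert a s ha ih => rw [Finset.sum_insert ha, Finset.prod_insert ha, sg_add, ih]

theorem sum_mul (b : ZMod 2) : ∑ a : ZMod 2, sg (a * b) = if b = 0 then (2 : ℝ) else 0 := by
  have hu : (Finset.univ : Finset (ZMod 2)) = {0, 1} := by decide
  have h01 : (0 : ZMod 2) ≠ 1 := by decide
  rw [hu, Finset.sum_pair h01, zero_mul, one_mul, sg_zero]
  rcases zmod_cases b with rfl | rfl
  · rw [sg_zero, if_pos rfl]; norm_num
  · rw [sg_one, if_neg h01.symm]; norm_num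

theorem ind_sum {E : Type} {t : ℕ} (P : Fin t → E → ZMod 2) (x : E) :
    ∑ c : Fin t → ZMod 2, sg (comb P c x) = if x ∈ zer P then (2 : ℝ) ^ t else 0 := by
  have h1 : ∑ c : Fin t → ZMod 2, sg (comb P c x) =
      ∏ i : Fin t, ∑ a : ZMod 2, sg (a * P i x) := by
    rw [Finset.prod_univ_sum, Fintype.piFinset_univ]
    refine Finset.sum_congr rfl fun c _ => ?_
    unfold comb
    rw [sg_sum]
  rw [h1]
  by_cases hx : x ∈ zer P
  · rw [if_pos hx]
    have h2 : ∀ i ∈ (Finset.univ : Finset (Fin t)), (∑ a : ZMod 2, sg (a * P i x)) = 2 := by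
      intro i _
      rw [sum_mul, if_pos (hx i)]
    rw [Finset.prod_congr rfl h2, Finset.prod_const, Finset.card_univ, Fintype.card_fin]
  · rw [if_neg hx]
    have h3 : ∃ i, P i x ≠ 0 := by
      by_contra hcon
      push Not at hcon
      exact hx hcon
    obtain ⟨i, hi⟩ := h3
    refine Finset.prod_eq_zero (Finset.mem_univ i) ?_
    rw [sum_mul, if_neg hi]

/-- A sum over functionals of a quantity vanishing off the support. -/
theorem sum_le {L : Type} [Fintype L] (w u : L → ℝ) (s : ℕ) (B : ℝ) (hB : 0 ≤ B)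
    (hs : Nat.card {l // w l ≠ 0} ≤ s) (h0 : ∀ l, w l = 0 → u l = 0) (h1 : ∀ l, u l ≤ B) :
    ∑ l, u l ≤ s * B := by
  have h2 : ∑ l, u l = ∑ l ∈ Finset.univ.filter (fun l => w l ≠ 0), u l := by
    rw [Finset.sum_filter]
    refine Finset.sum_congr rfl fun l _ => ?_
    by_cases hl : w l = 0
    · rw [if_neg (not_not.mpr hl), h0 l hl]
    · rw [if_pos hl]
  rw [h2]
  refine (Finset.sum_le_card_nsmul _ _ B fun l _ => h1 l).trans ?_
  rw [nsmul_eq_mul]
  refine mul_le_mul_of_nonneg_right ?_ hB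
  rw [Nat.card_eq_fintype_card, Fintype.card_subtype] at hs
  exact_mod_cast hs

end CONST_

open CONST_ in
/-- **CONST.** -/
theorem p_CONST : T_PLAN → T_CONST := by
  intro hPlan E _ _ _ g s t k P hg hX hbad hc hspa hk
  letI : Fintype E := Fintype.ofFinite E
  have : Finite (Module.Dual (ZMod 2) E) :=
    Finite.of_injective (fun l : Module.Dual (ZMod 2) E => (l : E → ZMod 2)) DFunLike.coe_injective
  letI : Fintype (Module.Dual (ZMod 2) E) := Fintype.ofFinite _
  obtain ⟨x₀, hx₀⟩ := hX
  set n : ℝ := (Nat.card E : ℝ) with hn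
  have hnpos : 0 < n := by
    rw [hn]
    exact_mod_cast (Nat.card_pos (α := E))
  have hfco : ∀ (F : E → ℝ) (l : Module.Dual (ZMod 2) E),
      fco F l = (∑ x, F x * sg (l x)) / n := by
    intro F l
    unfold fco
    rw [finsum_eq_sum_of_fintype]
  have hplan : ∀ F G : E → ℝ, (∑ x, F x * G x) / n = ∑ l, fco F l * fco G l := by
    intro F G
    have := hPlan E F G
    rw [finsum_eq_sum_of_fintype, finsum_eq_sum_of_fintype] at this
    exact this
  have hg0 : ∀ x, 0 ≤ g x := by
    intro x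
    rcases hg x with h | h <;> rw [h] <;> norm_num
  by_contra hcon
  push Not at hcon
  obtain ⟨y, hy⟩ := hcon
  -- the mean of `g`
  set e : ℝ := (∑ x, g x) / n with he
  have hepos : 0 < e := by
    refine div_pos ?_ hnpos
    refine Finset.sum_pos' (fun x _ => hg0 x) ⟨y, Finset.mem_univ y, ?_⟩
    exact lt_of_le_of_ne (hg0 y) (Ne.symm hy)
  have hcoef : ∀ l, |fco g l| ≤ e := by
    intro l
    rw [hfco, abs_div, abs_of_pos hnpos, he]
    refine div_le_div_of_nonneg_right ?_ hnpos.le
    refine (Finset.abs_sum_le_sum_abs _ _).trans (Finset.sum_le_sum fun x _ => ?_)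
    rw [abs_mul, abs_sg, mul_one, abs_of_nonneg (hg0 x)]
  have hA : ∑ l, |fco g l| ≤ s * e := by
    refine sum_le (fco g) (fun l => |fco g l|) s e hepos.le hspa ?_ hcoef
    intro l hl
    simp only [hl, abs_zero]
  have hsq : ∑ l, fco g l * fco g l ≤ s * (e * e) := by
    refine sum_le (fco g) (fun l => fco g l * fco g l) s (e * e) (by positivity) hspa ?_ ?_
    · intro l hl
      simp only [hl, mul_zero]
    · intro l
      have h1 : fco g l * fco g l = |fco g l| * |fco g l| := (abs_mul_abs_self _).symm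
      show fco g l * fco g l ≤ e * e
      rw [h1]
      exact mul_le_mul (hcoef l) (hcoef l) (abs_nonneg _) hepos.le
  have hee : e ≤ s * (e * e) := by
    have h1 : (∑ x, g x * g x) / n = e := by
      rw [he]
      have h2 : ∀ x ∈ (Finset.univ : Finset E), g x * g x = g x := by
        intro x _
        rcases hg x with h | h <;> rw [h] <;> norm_num
      rw [Finset.sum_congr rfl h2]
    have h3 := hplan g g
    rw [h1] at h3
    rw [← h3] at hsq
    exact hsq
  have hse : 1 ≤ s * e := by
    by_contra hlt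
    push Not at hlt
    nlinarith
  have hspos : (1 : ℝ) ≤ s := by
    have h1 : s ≠ 0 := by
      rintro rfl
      norm_num at hse
    exact_mod_cast Nat.one_le_iff_ne_zero.mpr h1
  -- the parameter `h`
  set η : ℝ := (1 / 2 : ℝ) ^ k with hη
  have hηpos : 0 < η := by positivity
  set h : ℝ := 2 ^ t * η with hh
  have hhpos : 0 < h := by positivity
  have hhs : 4 * s * h ≤ 1 := by
    have h1 : ((4 * s * 2 ^ t : ℕ) : ℝ) ≤ ((2 ^ k : ℕ) : ℝ) := by exact_mod_cast hk
    push_cast at h1
    have h2 : (2 : ℝ) ^ k * η = 1 := by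
      rw [hη, ← mul_pow]; norm_num
    rw [hh]
    calc 4 * (s : ℝ) * (2 ^ t * η) = (4 * s * 2 ^ t) * η := by ring
      _ ≤ 2 ^ k * η := mul_le_mul_of_nonneg_right h1 hηpos.le
      _ = 1 := h2
  -- constant combinations
  set C : Finset (Fin t → ZMod 2) :=
    Finset.univ.filter (fun c => ∀ x, comb P c x = comb P c 0) with hC
  have hCone : ∀ c ∈ C, ∀ x, sg (comb P c x) = 1 := by
    intro c hcC x
    have h1 : ∀ x, comb P c x = comb P c 0 := (Finset.mem_filter.mp hcC).2
    have h2 : comb P c x₀ = 0 := by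
      unfold comb
      refine Finset.sum_eq_zero fun i _ => ?_
      rw [hx₀ i, mul_zero]
    rw [h1 x, ← h1 x₀, h2, sg_zero]
  have hCnot : ∀ c, c ∉ C → ∀ l, |fco (fun x => sg (comb P c x)) l| ≤ η := by
    intro c hcC
    rcases hc c with h1 | h1
    · exact absurd (Finset.mem_filter.mpr ⟨Finset.mem_univ c, h1⟩) hcC
    · exact h1
  have h0C : (0 : Fin t → ZMod 2) ∈ C := by
    refine Finset.mem_filter.mpr ⟨Finset.mem_univ _, fun x => ?_⟩
    unfold comb
    simp
  set N : ℝ := (C.card : ℝ) with hN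
  have hN1 : 1 ≤ N := by
    rw [hN]
    exact_mod_cast Finset.card_pos.mpr ⟨_, h0C⟩
  have hcard : ((Finset.univ : Finset (Fin t → ZMod 2)).card : ℝ) = 2 ^ t := by
    rw [Finset.card_univ, Fintype.card_fun, ZMod.card, Fintype.card_fin]
    push_cast
    ring
  have hCc : ((Cᶜ).card : ℝ) ≤ 2 ^ t := by
    rw [← hcard]
    exact_mod_cast Finset.card_le_univ _
  -- upper bound for the size of `zer P`
  have hup : 2 ^ t * ((Set.ncard (zer P) : ℝ) / n) ≤ N + h := by
    have h1 : (2 : ℝ) ^ t * (Set.ncard (zer P) : ℝ) =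
        ∑ c : Fin t → ZMod 2, ∑ x, sg (comb P c x) := by
      rw [Finset.sum_comm]
      rw [Finset.sum_congr rfl fun x _ => ind_sum P x]
      rw [← Finset.sum_filter, Finset.sum_const, nsmul_eq_mul, mul_comm]
      congr 1
      rw [Set.ncard_eq_toFinset_card', ← Set.filter_mem_univ_eq_toFinset]
    have h2 : (2 : ℝ) ^ t * ((Set.ncard (zer P) : ℝ) / n) =
        ∑ c : Fin t → ZMod 2, (∑ x, sg (comb P c x)) / n := by
      rw [← Finset.sum_div, ← h1, mul_div_assoc]
    rw [h2, ← Finset.sum_add_sum_compl C]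
    refine add_le_add ?_ ?_
    · refine (Finset.sum_le_card_nsmul _ _ 1 fun c hcC => ?_).trans ?_
      · rw [Finset.sum_congr rfl fun x _ => hCone c hcC x]
        rw [Finset.sum_const, nsmul_eq_mul, mul_one, Finset.card_univ, hn,
          Nat.card_eq_fintype_card]
        exact div_self_le_one _
      · rw [nsmul_eq_mul, mul_one]
    · refine (Finset.sum_le_card_nsmul _ _ η fun c hcC => ?_).trans ?_
      · have h3 := hCnot c (Finset.mem_compl.mp hcC) 0
        rw [hfco] at h3
        have h4 : ∑ x, sg (comb P c x) * sg ((0 : Module.Dual (ZMod 2) E) x) =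
            ∑ x, sg (comb P c x) := by
          refine Finset.sum_congr rfl fun x _ => ?_
          rw [LinearMap.zero_apply, sg_zero, mul_one]
        rw [h4] at h3
        exact (le_abs_self _).trans h3
      · rw [nsmul_eq_mul, hh]
        exact mul_le_mul_of_nonneg_right hCc hηpos.le
  -- lower bound for the mass of `g` on `zer P`
  have hlow : N * e - h * (s * e) ≤
      2 ^ t * ((Set.ncard {x | x ∈ zer P ∧ g x ≠ 0} : ℝ) / n) := by
    have h1 : (2 : ℝ) ^ t * (Set.ncard {x | x ∈ zer P ∧ g x ≠ 0} : ℝ) =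
        ∑ c : Fin t → ZMod 2, ∑ x, g x * sg (comb P c x) := by
      rw [Finset.sum_comm]
      have h5 : ∀ x ∈ (Finset.univ : Finset E), ∑ c : Fin t → ZMod 2, g x * sg (comb P c x) =
          if x ∈ {x | x ∈ zer P ∧ g x ≠ 0} then (2 : ℝ) ^ t else 0 := by
        intro x _
        rw [← Finset.mul_sum, ind_sum]
        by_cases hx : x ∈ zer P
        · rw [if_pos hx]
          rcases hg x with h6 | h6
          · have h8 : x ∉ {x | x ∈ zer P ∧ g x ≠ 0} := by
              rintro ⟨_, h7⟩
              exact h7 h6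
            rw [if_neg h8, h6, zero_mul]
          · have h8 : x ∈ {x | x ∈ zer P ∧ g x ≠ 0} := ⟨hx, by rw [h6]; norm_num⟩
            rw [if_pos h8, h6, one_mul]
        · rw [if_neg hx, mul_zero, if_neg]
          rintro ⟨h7, _⟩
          exact hx h7
      rw [Finset.sum_congr rfl h5]
      rw [← Finset.sum_filter, Finset.sum_const, nsmul_eq_mul, mul_comm]
      congr 1
      rw [Set.ncard_eq_toFinset_card', ← Set.filter_mem_univ_eq_toFinset]
    have h2 : (2 : ℝ) ^ t * ((Set.ncard {x | x ∈ zer P ∧ g x ≠ 0} : ℝ) / n) =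
        ∑ c : Fin t → ZMod 2, (∑ x, g x * sg (comb P c x)) / n := by
      rw [← Finset.sum_div, ← h1, mul_div_assoc]
    have h3 : ∑ c ∈ C, (∑ x, g x * sg (comb P c x)) / n = N * e := by
      have h4 : ∀ c ∈ C, (∑ x, g x * sg (comb P c x)) / n = e := by
        intro c hcC
        rw [he]
        rw [Finset.sum_congr rfl fun x _ => by rw [hCone c hcC x, mul_one]]
      rw [Finset.sum_congr rfl h4, Finset.sum_const, nsmul_eq_mul]
    have h4 : -(h * (s * e)) ≤ ∑ c ∈ Cᶜ, (∑ x, g x * sg (comb P c x)) / n := by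
      have h5 : ∀ c ∈ Cᶜ, -(η * (s * e)) ≤ (∑ x, g x * sg (comb P c x)) / n := by
        intro c hcC
        have h6 := hCnot c (Finset.mem_compl.mp hcC)
        rw [hplan g (fun x => sg (comb P c x))]
        refine neg_le_of_abs_le ?_
        refine (Finset.abs_sum_le_sum_abs _ _).trans ?_
        calc ∑ l, |fco g l * fco (fun x => sg (comb P c x)) l|
            ≤ ∑ l, |fco g l| * η := by
              refine Finset.sum_le_sum fun l _ => ?_
              rw [abs_mul]
              exact mul_le_mul_of_nonneg_left (h6 l) (abs_nonneg _)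
          _ = η * ∑ l, |fco g l| := by rw [← Finset.sum_mul, mul_comm]
          _ ≤ η * (s * e) := mul_le_mul_of_nonneg_left hA hηpos.le
      have h6 := Finset.card_nsmul_le_sum Cᶜ _ _ h5
      refine le_trans ?_ h6
      rw [nsmul_eq_mul, mul_neg, neg_le_neg_iff, hh]
      have h7 : 0 ≤ η * (s * e) := by positivity
      calc ((Cᶜ).card : ℝ) * (η * (s * e)) ≤ 2 ^ t * (η * (s * e)) :=
            mul_le_mul_of_nonneg_right hCc h7
        _ = 2 ^ t * η * (s * e) := by ring
    rw [h2, ← Finset.sum_add_sum_compl C, h3]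
    linarith
  -- conclusion
  have hbad' : 2 * s * ((Set.ncard {x | x ∈ zer P ∧ g x ≠ 0} : ℝ) / n) ≤
      (Set.ncard (zer P) : ℝ) / n := by
    rw [← mul_div_assoc]
    refine div_le_div_of_nonneg_right ?_ hnpos.le
    exact_mod_cast hbad
  have hfin : 2 * s * (N * e - h * (s * e)) ≤ N + h := by
    have h1 : 2 * s * (N * e - h * (s * e)) ≤
        2 * s * (2 ^ t * ((Set.ncard {x | x ∈ zer P ∧ g x ≠ 0} : ℝ) / n)) :=
      mul_le_mul_of_nonneg_left hlow (by positivity)
    have h2 : (2 : ℝ) ^ t * (2 * s * ((Set.ncard {x | x ∈ zer P ∧ g x ≠ 0} : ℝ) / n)) ≤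
        2 ^ t * ((Set.ncard (zer P) : ℝ) / n) :=
      mul_le_mul_of_nonneg_left hbad' (by positivity)
    have h3 : 2 * s * (2 ^ t * ((Set.ncard {x | x ∈ zer P ∧ g x ≠ 0} : ℝ) / n)) =
        (2 : ℝ) ^ t * (2 * s * ((Set.ncard {x | x ∈ zer P ∧ g x ≠ 0} : ℝ) / n)) := by ring
    linarith
  have hsh : s * h ≤ 1 / 4 := by linarith
  have hh4 : h ≤ 1 / 4 := by nlinarith
  have h5 : 0 < N - s * h := by linarith
  have h6 : 2 * (N - s * h) ≤ 2 * (s * e) * (N - s * h) := by nlinarith
  have h7 : 2 * s * (N * e - h * (s * e)) = 2 * (s * e) * (N - s * h) := by ring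
  linarith

end Pool.Agent.LRC
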