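import Pool.Agent.LRC.Targets

set_option autoImplicit false

/-!
# MP_9f5962_lc: CUB, cubic phases are quadratic on a small subspace
-/

open scoped Classical

noncomputable section

namespace Pool.Agent.LRC

theorem p_CUB : T_LOW → T_DBL → T_HALV → T_CUB := by
  intro hLOW hDBL hHALV E _ _ _ P l k hP hl
  obtain ⟨hT, hc⟩ := hLOW E P l k hP hl
  set T : E → E → E → ZMod 2 := fun x y z => Dv x (Dv y (Dv z P)) 0 with hTdef
  obtain ⟨y, hy, hz⟩ := hDBL E T (4 * k + 1) (2 * k + 1) hT hc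
  set U := rad T ⊤ y with hU
  have hUz : ∀ x ∈ U, Module.finrank (ZMod 2) U ≤ (12 * k + 6) + Module.finrank (ZMod 2) (rad T U x) := by
    intro x hx
    have h1 := hz x hx
    have h2 := Submodule.finrank_sup_add_finrank_inf_eq (rad T ⊤ x) U
    have h3 : Module.finrank (ZMod 2) ↥(rad T ⊤ x ⊔ U) ≤ Module.finrank (ZMod 2) E :=
      Submodule.finrank_le _
    have h4 : rad T ⊤ x ⊓ U ≤ rad T U x := by
      intro w hw
      rw [Submodule.mem_inf] at hw
      rw [mem_rad hT]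
      have hw1 := (mem_rad hT ⊤ x w).1 hw.1
      exact ⟨hw.2, fun z _ => hw1.2 z Submodule.mem_top⟩
    have h5 := Submodule.finrank_mono h4
    omega
  obtain ⟨V', _, hV2, hV3⟩ := hHALV E T (12 * k + 6) U hT hUz
  refine ⟨V', by omega, ?_⟩
  intro a ha b hb c hc' x
  have h1 : Dv x (Dv a (Dv b (Dv c P))) 0 = 0 := hP x a b c 0
  have h2 : Dv a (Dv b (Dv c P)) 0 = 0 := hV3 a ha b hb c hc'
  have h3 : Dv x (Dv a (Dv b (Dv c P))) 0 = Dv a (Dv b (Dv c P)) (0 + x) + Dv a (Dv b (Dv c P)) 0 := rfl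
  rw [h1, h2, add_zero, zero_add] at h3
  exact h3.symm

end Pool.Agent.LRC
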