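import Pool.Agent.LRC.Targets

set_option autoImplicit false

/-!
# LRC: target DBL (double counting of radicals)
-/

open scoped Classical

noncomputable section

namespace Pool.Agent.LRC

section

variable {E : Type} [AddCommGroup E] [Module (ZMod 2) E]

theorem DBL_symm {T : E → E → E → ZMod 2} (hT : Tri T) (y z : E) :
    z ∈ rad T ⊤ y ↔ y ∈ rad T ⊤ z := by
  rw [mem_rad hT, mem_rad hT]
  constructor
  · rintro ⟨_, h⟩
    exact ⟨Submodule.mem_top, fun w _ => by rw [hT.2.1]; exact h w Submodule.mem_top⟩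
  · rintro ⟨_, h⟩
    exact ⟨Submodule.mem_top, fun w _ => by rw [hT.2.1]; exact h w Submodule.mem_top⟩

theorem DBL_inf {T : E → E → E → ZMod 2} (hT : Tri T) (a b : E) :
    rad T ⊤ a ⊓ rad T ⊤ b ≤ rad T ⊤ (a + b) := by
  intro w hw
  rw [Submodule.mem_inf, mem_rad hT, mem_rad hT] at hw
  rw [mem_rad hT]
  refine ⟨Submodule.mem_top, fun z _ => ?_⟩
  rw [hT.1, hw.1.2 z Submodule.mem_top, hw.2.2 z Submodule.mem_top, add_zero]

theorem DBL_card [Fintype E] (W : Submodule (ZMod 2) E) :
    (Finset.univ.filter fun x : E => x ∈ W).card = 2 ^ Module.finrank (ZMod 2) W := by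
  have h1 : Nat.card W = 2 ^ Module.finrank (ZMod 2) W := by
    have := Module.natCard_eq_pow_finrank (K := ZMod 2) (V := W)
    rw [this, Nat.card_zmod]
  rw [← h1, Nat.card_eq_fintype_card, Fintype.card_subtype]

end

theorem p_DBL : T_DBL := by
  intro E _ _ _ T R m hT hcard
  have hfin : Fintype E := Fintype.ofFinite E
  set n := Module.finrank (ZMod 2) E with hn
  have hE : Fintype.card E = 2 ^ n := by
    have := Module.natCard_eq_pow_finrank (K := ZMod 2) (V := E)
    rw [Nat.card_zmod, Nat.card_eq_fintype_card] at this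
    exact this
  set S : Finset E := Finset.univ.filter fun h : E =>
    n ≤ R + Module.finrank (ZMod 2) (rad T ⊤ h) with hS
  set Z : Finset E := Finset.univ.filter fun z : E =>
    ¬ n ≤ R + m + 1 + Module.finrank (ZMod 2) (rad T ⊤ z) with hZ
  have hScard : 2 ^ n ≤ 2 ^ m * S.card := by
    rw [Nat.card_eq_fintype_card, hE, Nat.card_eq_fintype_card, Fintype.card_subtype] at hcard
    exact hcard
  set rf : E → Finset E := fun y => Finset.univ.filter fun x : E => x ∈ rad T ⊤ y with hrf
  have hrc : ∀ y, (rf y).card = 2 ^ Module.finrank (ZMod 2) (rad T ⊤ y) := fun y => DBL_card _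
  -- the good y
  have hgood : ∃ y ∈ S, 2 * ((rf y).filter fun z => z ∈ Z).card < (rf y).card := by
    by_contra hcon
    push Not at hcon
    have h1 : ∀ y ∈ S, 2 ^ n ≤ 2 ^ (R + 1) * ((rf y).filter fun z => z ∈ Z).card := by
      intro y hy
      have h2 := hcon y hy
      have h3 : n ≤ R + Module.finrank (ZMod 2) (rad T ⊤ y) := (Finset.mem_filter.1 hy).2
      calc 2 ^ n ≤ 2 ^ (R + Module.finrank (ZMod 2) (rad T ⊤ y)) :=
            Nat.pow_le_pow_right two_pos h3
        _ = 2 ^ R * (rf y).card := by rw [pow_add, hrc]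
        _ ≤ 2 ^ R * (2 * ((rf y).filter fun z => z ∈ Z).card) := Nat.mul_le_mul_left _ h2
        _ = 2 ^ (R + 1) * ((rf y).filter fun z => z ∈ Z).card := by rw [pow_succ, mul_assoc]
    have h4 : S.card * 2 ^ n ≤ 2 ^ (R + 1) * ∑ y : E, ((rf y).filter fun z => z ∈ Z).card := by
      calc S.card * 2 ^ n = ∑ _y ∈ S, 2 ^ n := by rw [Finset.sum_const, smul_eq_mul]
        _ ≤ ∑ y ∈ S, 2 ^ (R + 1) * ((rf y).filter fun z => z ∈ Z).card := Finset.sum_le_sum h1
        _ ≤ ∑ y : E, 2 ^ (R + 1) * ((rf y).filter fun z => z ∈ Z).card :=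
            Finset.sum_le_sum_of_subset (Finset.subset_univ S)
        _ = _ := by rw [Finset.mul_sum]
    have h5 : ∑ y : E, ((rf y).filter fun z => z ∈ Z).card = ∑ z ∈ Z, (rf z).card := by
      have e1 : ∀ y : E, ((rf y).filter fun z => z ∈ Z).card =
          ∑ z ∈ Z, if z ∈ rad T ⊤ y then 1 else 0 := by
        intro y
        rw [← Finset.sum_filter, Finset.sum_const, smul_eq_mul, mul_one]
        congr 1
        ext z
        simp only [hrf, Finset.mem_filter, Finset.mem_univ, true_and]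
        exact and_comm
      have e2 : ∀ z : E, (rf z).card = ∑ y : E, if z ∈ rad T ⊤ y then 1 else 0 := by
        intro z
        rw [← Finset.sum_filter, Finset.sum_const, smul_eq_mul, mul_one]
        congr 1
        ext y
        simp only [hrf, Finset.mem_filter, Finset.mem_univ, true_and]
        exact DBL_symm hT z y
      simp only [e1, e2]
      rw [Finset.sum_comm]
    have h6 : 2 ^ (R + m + 2) * ∑ z ∈ Z, (rf z).card ≤ 2 ^ n * 2 ^ n := by
      rw [Finset.mul_sum]
      calc ∑ z ∈ Z, 2 ^ (R + m + 2) * (rf z).card ≤ ∑ _z ∈ Z, 2 ^ n := by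
            refine Finset.sum_le_sum fun z hz => ?_
            have h7 : ¬ n ≤ R + m + 1 + Module.finrank (ZMod 2) (rad T ⊤ z) :=
              (Finset.mem_filter.1 hz).2
            rw [hrc, ← pow_add]
            exact Nat.pow_le_pow_right two_pos (by omega)
        _ = Z.card * 2 ^ n := by rw [Finset.sum_const, smul_eq_mul]
        _ ≤ 2 ^ n * 2 ^ n := by
            refine Nat.mul_le_mul_right _ ?_
            rw [← hE]
            exact Finset.card_le_univ Z
    rw [h5] at h4
    have h8 : 2 ^ (m + 1) * (S.card * 2 ^ n) ≤ 2 ^ n * 2 ^ n := by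
      calc 2 ^ (m + 1) * (S.card * 2 ^ n) ≤ 2 ^ (m + 1) * (2 ^ (R + 1) * ∑ z ∈ Z, (rf z).card) :=
            Nat.mul_le_mul_left _ h4
        _ = 2 ^ (R + m + 2) * ∑ z ∈ Z, (rf z).card := by
            rw [← mul_assoc, ← pow_add]
            congr 2
            omega
        _ ≤ _ := h6
    have h9 : 2 * (2 ^ n * 2 ^ n) ≤ 2 ^ (m + 1) * (S.card * 2 ^ n) := by
      calc 2 * (2 ^ n * 2 ^ n) ≤ 2 * ((2 ^ m * S.card) * 2 ^ n) :=
            Nat.mul_le_mul_left _ (Nat.mul_le_mul_right _ hScard)
        _ = 2 ^ (m + 1) * (S.card * 2 ^ n) := by ring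
    have h10 : 0 < 2 ^ n * 2 ^ n := by positivity
    omega
  obtain ⟨y, hyS, hy⟩ := hgood
  refine ⟨y, (Finset.mem_filter.1 hyS).2, fun z hz => ?_⟩
  set A : Finset E := (rf y).filter fun z => z ∉ Z with hA
  have hAc : (rf y).card < 2 * A.card := by
    have := Finset.card_filter_add_card_filter_not (s := rf y) (fun z => z ∈ Z)
    have e : A.card = ((rf y).filter fun z => ¬ z ∈ Z).card := rfl
    omega
  have hAsub : ∀ a ∈ A, a ∈ rad T ⊤ y := fun a ha =>
    (Finset.mem_filter.1 (Finset.mem_filter.1 ha).1).2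
  have hAr : ∀ a ∈ A, n ≤ R + m + 1 + Module.finrank (ZMod 2) (rad T ⊤ a) := by
    intro a ha
    by_contra hc
    exact (Finset.mem_filter.1 ha).2 (Finset.mem_filter.2 ⟨Finset.mem_univ _, hc⟩)
  set B : Finset E := A.image fun a => z - a with hB
  have hBc : B.card = A.card := Finset.card_image_of_injective _ (sub_right_injective)
  have hsub : A ∪ B ⊆ rf y := by
    intro w hw
    rcases Finset.mem_union.1 hw with hw | hw
    · exact (Finset.mem_filter.1 hw).1
    · obtain ⟨a, ha, rfl⟩ := Finset.mem_image.1 hw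
      exact Finset.mem_filter.2 ⟨Finset.mem_univ _, Submodule.sub_mem _ hz (hAsub a ha)⟩
  have hmeet : ¬ Disjoint A B := by
    intro hd
    have h1 := Finset.card_le_card hsub
    rw [Finset.card_union_of_disjoint hd, hBc] at h1
    omega
  rw [Finset.not_disjoint_iff] at hmeet
  obtain ⟨a, haA, haB⟩ := hmeet
  obtain ⟨a', ha'A, ha'⟩ := Finset.mem_image.1 haB
  have hz' : z = a + a' := by
    rw [← ha']
    exact (sub_add_cancel z a').symm
  rw [hz']
  have h1 := hAr a haA
  have h2 := hAr a' ha'A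
  have h3 := Submodule.finrank_mono (DBL_inf hT a a')
  have h4 := Submodule.finrank_sup_add_finrank_inf_eq (rad T ⊤ a) (rad T ⊤ a')
  have h5 : Module.finrank (ZMod 2) ↥(rad T ⊤ a ⊔ rad T ⊤ a') ≤ n := Submodule.finrank_le _
  omega

end Pool.Agent.LRC
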