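import Pool.Agent.LRC.Targets

set_option autoImplicit false

/-!
# MP_9f5962_lc: the main theorem, hereditary form
-/

open scoped Classical

noncomputable section

namespace Pool.Agent.LRC

namespace FIN1_

/-- The integer logarithm is at most the real logarithm. -/
theorem log_le {r : ℕ} (hr : 1 ≤ r) : (Nat.log 2 r : ℝ) ≤ Real.logb 2 (r : ℝ) := by
  have h1 : 2 ^ Nat.log 2 r ≤ r := Nat.pow_log_le_self 2 (by omega)
  have h2 : ((2 : ℝ) ^ Nat.log 2 r) ≤ (r : ℝ) := by exact_mod_cast h1
  rw [Real.le_logb_iff_rpow_le (by norm_num) (by exact_mod_cast hr), Real.rpow_natCast]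
  exact h2

/-- The integer logarithm of the successor. -/
theorem log_succ_le {r : ℕ} (hr : 1 ≤ r) :
    (Nat.log 2 (r + 1) : ℝ) ≤ 1 + Real.logb 2 (r : ℝ) := by
  have h1 := log_le (r := r + 1) (by omega)
  have hr0 : (0 : ℝ) < (r : ℝ) := by exact_mod_cast hr
  have h2 : Real.logb 2 ((r + 1 : ℕ) : ℝ) ≤ Real.logb 2 (2 * (r : ℝ)) := by
    apply Real.logb_le_logb_of_le (by norm_num)
    · positivity
    · have h3 : (1 : ℝ) ≤ (r : ℝ) := by exact_mod_cast hr
      push_cast
      linarith
  have h4 : Real.logb 2 (2 * (r : ℝ)) = 1 + Real.logb 2 (r : ℝ) := by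
    rw [Real.logb_mul (by norm_num) hr0.ne', Real.logb_self_eq_one (by norm_num)]
  linarith

/-- The final estimate. -/
theorem est {t k m : ℕ} {L : ℝ} (hL : 1 ≤ L) (hk : (k : ℝ) ≤ t + L + 4) (hm : (m : ℝ) ≤ L + 1) :
    ((2 * (t * (30 * k + 14)) * m : ℕ) : ℝ) ≤ 388 * t * (t + L) * L := by
  rcases Nat.eq_zero_or_pos t with h0 | h0
  · subst h0
    simp
  · have ht : (1 : ℝ) ≤ (t : ℝ) := by exact_mod_cast h0
    push_cast
    have h1 : (30 * (k : ℝ) + 14) ≤ 97 * (t + L) := by linarith
    have h2 : (m : ℝ) ≤ 2 * L := by linarith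
    have hm0 : (0 : ℝ) ≤ m := Nat.cast_nonneg m
    have ht0 : (0 : ℝ) ≤ t := by linarith
    have h3 : (t : ℝ) * (30 * k + 14) ≤ t * (97 * (t + L)) := mul_le_mul_of_nonneg_left h1 ht0
    have h4 : (0 : ℝ) ≤ t * (97 * (t + L)) := by positivity
    calc 2 * ((t : ℝ) * (30 * k + 14)) * m ≤ 2 * (t * (97 * (t + L))) * m := by
          apply mul_le_mul_of_nonneg_right _ hm0
          linarith
      _ ≤ 2 * (t * (97 * (t + L))) * (2 * L) := by
          apply mul_le_mul_of_nonneg_left h2
          linarith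
      _ = 388 * t * (t + L) * L := by ring

/-- A constant function has a protocol of cost `0`. -/
theorem prot_const {n : ℕ} (f : (Fin n → ZMod 2) → Bool) (h : ∀ x y, f x = f y) : Prot f 0 :=
  ⟨fun _ => true, fun _ _ => true, fun _ _ => true, fun _ => f 0, fun x y _ _ _ => h 0 (x + y)⟩

end FIN1_

open FIN1_

/-- FIN1: the theorem for hereditarily almost constant functions. -/
theorem p_FIN1 : T_COS → T_PDT → T_RNK → T_NCO → T_FIN1 := by
  intro hCOS hPDT hRNK hNCO n f t hC
  set r := xrk f with hr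
  have hs : spa (ind f) ≤ r := hRNK n f
  by_cases hcon : ∀ x y, f x = f y
  · refine ⟨0, ?_, prot_const f hcon⟩
    have hL : 0 ≤ Real.logb 2 (r : ℝ) := by
      rcases Nat.eq_zero_or_pos r with h0 | h0
      · rw [h0]
        simp
      · exact Real.logb_nonneg (by norm_num) (by exact_mod_cast h0)
    have ht : (0 : ℝ) ≤ t := Nat.cast_nonneg t
    have : (0 : ℝ) ≤ 388 * t * (t + Real.logb 2 (r : ℝ)) * Real.logb 2 (r : ℝ) := by positivity
    simpa using this
  · have hn : ∃ x y, f x ≠ f y := by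
      by_contra h
      apply hcon
      intro x y
      by_contra h'
      exact h ⟨x, y, h'⟩
    obtain ⟨hsp, h2⟩ := hNCO (Fin n → ZMod 2) f
    have hr2 : 2 ≤ r := le_trans (h2 hn) hs
    have hr1 : 1 ≤ r := by omega
    have hL : 1 ≤ Real.logb 2 (r : ℝ) := by
      rw [Real.le_logb_iff_rpow_le (by norm_num) (by positivity)]
      rw [Real.rpow_one]
      exact_mod_cast hr2
    set k := t + Nat.log 2 (r + 1) + 3 with hk
    set m := Nat.log 2 r + 1 with hm
    have hpow : 4 * (r + 1) * 2 ^ t ≤ 2 ^ k := by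
      have h1 : r + 1 < 2 ^ (Nat.log 2 (r + 1) + 1) := Nat.lt_pow_succ_log_self (by norm_num) _
      have h3 : 2 ^ k = 4 * 2 ^ (Nat.log 2 (r + 1) + 1) * 2 ^ t := by
        rw [hk]
        ring
      rw [h3]
      apply Nat.mul_le_mul_right
      omega
    have hcos := hCOS n f r t k hC hs hpow
    have hlt : sp1 (ind f) < 2 ^ m := by
      have h1 : r < 2 ^ (Nat.log 2 r + 1) := Nat.lt_pow_succ_log_self (by norm_num) _
      exact lt_of_le_of_lt (le_trans hsp hs) h1
    have hp := hPDT n f (t * (30 * k + 14)) hcos m hlt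
    refine ⟨2 * (t * (30 * k + 14)) * m, ?_, hp⟩
    apply est hL
    · have := log_succ_le hr1
      rw [hk]
      push_cast
      linarith
    · have := log_le hr1
      rw [hm]
      push_cast
      linarith

end Pool.Agent.LRC
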