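import Pool.Agent.LRC.Targets

set_option autoImplicit false

/-!
# MP_9f5962_lc: the main theorem, postselected randomised form
-/

open scoped Classical

noncomputable section

namespace Pool.Agent.LRC

private theorem FIN2_mono {n : ℕ} (f : (Fin n → ZMod 2) → Bool) (t M M' : ℕ) (h : M' ≤ M)
    (hC : Cub f t M) : Cub f t M' := by
  intro x W
  obtain ⟨P, b, h1, h2, h3⟩ := hC x W
  exact ⟨P, b, h1, h2, (Nat.mul_le_mul_right _ h).trans h3⟩

private theorem FIN2_const {n : ℕ} (f : (Fin n → ZMod 2) → Bool) (hf : ∀ x y, f x = f y) :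
    Prot f 0 := by
  refine ⟨fun _ => true, fun _ _ => true, fun _ _ => true, fun _ => f 0, ?_⟩
  intro x y t _ _
  exact hf _ _

theorem p_FIN2 : T_AMP → T_FIN1 → T_RNK → T_NCO → T_FIN2 := by
  intro hAMP hFIN1 hRNK hNCO n f t hR
  by_cases hf : ∀ x y, f x = f y
  · refine ⟨0, ?_, FIN2_const f hf⟩
    have hL : 0 ≤ Real.logb 2 (xrk f : ℝ) := by
      rcases Nat.eq_zero_or_pos (xrk f) with h | h
      · rw [h]; simp
      · exact Real.logb_nonneg (by norm_num) (by exact_mod_cast h)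
    rw [Nat.cast_zero]
    positivity
  · push Not at hf
    obtain ⟨x, y, hxy⟩ := hf
    have h2 : 2 ≤ xrk f := ((hNCO (Fin n → ZMod 2) f).2 ⟨x, y, hxy⟩).trans (hRNK n f)
    set r : ℕ := xrk f with hr
    set L : ℝ := Real.logb 2 (r : ℝ) with hL
    have hr2 : (2 : ℝ) ≤ r := by exact_mod_cast h2
    have hL1 : 1 ≤ L := by
      rw [hL, Real.le_logb_iff_rpow_le (by norm_num) (by linarith)]
      simpa using hr2
    set m : ℕ := Nat.log 2 (r + 1) + 2 with hm
    have hm1 : 2 * (r + 1) ≤ 2 ^ m := by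
      have h3 : r + 1 < 2 ^ (Nat.log 2 (r + 1) + 1) := Nat.lt_pow_succ_log_self (by norm_num) _
      have h4 : 2 ^ m = 2 * 2 ^ (Nat.log 2 (r + 1) + 1) := by
        rw [hm, pow_succ, mul_comm]
      omega
    have hm2 : (m : ℝ) ≤ 4 * L := by
      have h3 : ((2 : ℝ)) ^ (Nat.log 2 (r + 1)) ≤ r + 1 := by
        exact_mod_cast Nat.pow_log_le_self 2 (by omega)
      have h4 : (Nat.log 2 (r + 1) : ℝ) ≤ Real.logb 2 (2 * r) := by
        rw [Real.le_logb_iff_rpow_le (by norm_num) (by linarith), Real.rpow_natCast]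
        linarith
      rw [Real.logb_mul (by norm_num) (by linarith), Real.logb_self_eq_one (by norm_num), ← hL] at h4
      rw [hm]
      push_cast
      linarith
    have hC := FIN2_mono f (t * m) (2 ^ m) (2 * (r + 1)) hm1 (hAMP n f t hR m)
    obtain ⟨d, hd, hP⟩ := hFIN1 n f (t * m) hC
    refine ⟨d, hd.trans ?_, hP⟩
    rw [← hr, ← hL]
    push_cast
    have hm0 : (0 : ℝ) ≤ m := Nat.cast_nonneg m
    rcases Nat.eq_zero_or_pos t with ht | ht
    · rw [ht]; simp
    · have ht1 : (1 : ℝ) ≤ t := by exact_mod_cast ht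
      have h5 : (t : ℝ) * m ≤ 4 * t * L := by nlinarith
      have h6 : (t : ℝ) * m + L ≤ 5 * t * L := by nlinarith
      have h7 : ((t : ℝ) * m) * (t * m + L) ≤ (4 * t * L) * (5 * t * L) :=
        mul_le_mul h5 h6 (by positivity) (by positivity)
      calc 388 * ((t : ℝ) * m) * (t * m + L) * L = 388 * (((t : ℝ) * m) * (t * m + L)) * L := by ring
        _ ≤ 388 * ((4 * t * L) * (5 * t * L)) * L := by gcongr
        _ = 7760 * (t : ℝ) ^ 2 * L ^ 3 := by ring

end Pool.Agent.LRC
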