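import Pool.Agent.LRC.Targets

set_option autoImplicit false

/-!
# MP_9f5962_lc: FIN3, the theorem for a single function
-/

open scoped Classical

noncomputable section

namespace Pool.Agent.LRC

theorem FIN3_.logb_nonneg (r : ℕ) : 0 ≤ Real.logb 2 (r : ℝ) := by
  rcases Nat.eq_zero_or_pos r with h | h
  · subst h; simp
  · exact Real.logb_nonneg (by norm_num) (by exact_mod_cast h)

theorem FIN3_.natlog (r : ℕ) (hr : 1 ≤ r) :
    ((Nat.log 2 (r + 1) : ℕ) : ℝ) ≤ 1 + Real.logb 2 (r : ℝ) := by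
  have hr' : (1 : ℝ) ≤ (r : ℝ) := by exact_mod_cast hr
  have h1 : (2 : ℝ) ^ (Nat.log 2 (r + 1)) ≤ 2 * (r : ℝ) := by
    have h := Nat.pow_log_le_self 2 (x := r + 1) (by omega)
    have h' : ((2 : ℕ) : ℝ) ^ (Nat.log 2 (r + 1)) ≤ ((r + 1 : ℕ) : ℝ) := by exact_mod_cast h
    push_cast at h'
    linarith
  have h2 : Real.logb 2 ((2 : ℝ) ^ (Nat.log 2 (r + 1))) ≤ Real.logb 2 (2 * (r : ℝ)) :=
    Real.logb_le_logb_of_le (by norm_num) (by positivity) h1
  rw [Real.logb_pow, Real.logb_mul (by norm_num) (by linarith),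
    Real.logb_self_eq_one (by norm_num)] at h2
  linarith

theorem FIN3_.L1 (r : ℕ) (hr : 2 ≤ r) : 1 ≤ Real.logb 2 (r : ℝ) := by
  have hr' : (2 : ℝ) ≤ (r : ℝ) := by exact_mod_cast hr
  have h2 : Real.logb 2 (2 : ℝ) ≤ Real.logb 2 (r : ℝ) :=
    Real.logb_le_logb_of_le (by norm_num) (by norm_num) hr'
  rwa [Real.logb_self_eq_one (by norm_num)] at h2

theorem p_FIN3 : T_KILL → T_MVP → T_RNK → T_NCO → T_FIN3 := by
  intro hKILL hMVP hRNK hNCO n f t b P hdeg hne hcard
  by_cases hc : ∃ x y, f x ≠ f y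
  · -- the main case
    have h2 : 2 ≤ spa (ind f) := (hNCO (Fin n → ZMod 2) f).2 hc
    have h3 : spa (ind f) ≤ xrk f := hRNK n f
    have hr : 2 ≤ xrk f := h2.trans h3
    obtain ⟨x₀, W, hW, hf⟩ := hKILL (Fin n → ZMod 2) f b (xrk f) t
      (t + Nat.log 2 (xrk f + 1) + 3) (fun i x => MvPolynomial.eval x (P i))
      (fun i => hMVP n (P i) (hdeg i)) hne hcard h3 (by
        have h := Nat.lt_pow_succ_log_self (b := 2) (by norm_num) (xrk f + 1)
        have e : 2 ^ (t + Nat.log 2 (xrk f + 1) + 3) =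
            4 * 2 ^ (Nat.log 2 (xrk f + 1) + 1) * 2 ^ t := by ring
        rw [e]
        exact Nat.mul_le_mul_right _ (Nat.mul_le_mul_left _ h.le))
    refine ⟨x₀, W, ?_, hf⟩
    rw [Module.finrank_fin_fun] at hW
    have hW' : (n : ℝ) ≤ (t : ℝ) * (30 * ((t : ℝ) + (Nat.log 2 (xrk f + 1) : ℕ) + 3) + 14) +
        (Module.finrank (ZMod 2) W : ℕ) := by exact_mod_cast hW
    have hL := FIN3_.natlog (xrk f) (by omega)
    have hL1 := FIN3_.L1 (xrk f) hr
    rcases Nat.eq_zero_or_pos t with ht | ht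
    · subst ht
      simpa using hW'
    · have ht' : (1 : ℝ) ≤ (t : ℝ) := by exact_mod_cast ht
      have key : 30 * ((t : ℝ) + (Nat.log 2 (xrk f + 1) : ℕ) + 3) + 14 ≤
          97 * ((t : ℝ) + Real.logb 2 (xrk f : ℝ)) := by linarith
      have := mul_le_mul_of_nonneg_left key (by linarith : (0 : ℝ) ≤ (t : ℝ))
      nlinarith
  · -- the constant case
    have hc' : ∀ x y, f x = f y := by
      intro x y
      by_contra h
      exact hc ⟨x, y, h⟩
    obtain ⟨y, hy⟩ := hne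
    have hfb : f y = b := by
      by_contra hb
      have e : {x | MvZ P x ∧ f x ≠ b} = {x | MvZ P x} := by
        ext x
        constructor
        · intro hx; exact hx.1
        · intro hx
          exact ⟨hx, by rw [hc' x y]; exact hb⟩
      rw [e] at hcard
      have hpos : 0 < Set.ncard {x : Fin n → ZMod 2 | MvZ P x} :=
        (Set.ncard_pos (Set.toFinite _)).2 ⟨y, hy⟩
      nlinarith
    refine ⟨0, ⊤, ?_, ?_⟩
    · rw [finrank_top, Module.finrank_fin_fun]
      have h0 := FIN3_.logb_nonneg (xrk f)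
      have : (0 : ℝ) ≤ 97 * t * (t + Real.logb 2 (xrk f : ℝ)) := by positivity
      linarith
    · intro w _
      rw [hc' _ y]
      exact hfb

end Pool.Agent.LRC
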