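import Pool.Agent.LRC.Targets

set_option autoImplicit false

namespace Pool.Agent.LRC

theorem p_FIN4 (h1 : T_RED) (h2 : T_FIN1) : T_FIN4 := by
  rintro ⟨C, k, h⟩
  have hA : (0 : ℝ) ≤ |C| := abs_nonneg C
  refine ⟨776 * |C| * (2 * |C| + 1), 2 * k + 2, ?_⟩
  intro n f
  obtain ⟨d, hd, hP⟩ := h2 n f _ (h1 C k h n f (2 * (xrk f + 1)))
  refine ⟨d, hd.trans ?_, hP⟩
  set L : ℝ := Real.logb 2 (xrk f : ℝ) with hL
  have hL0 : L = 0 ∨ 1 ≤ L := by
    rcases Nat.lt_or_ge (xrk f) 2 with hx | hx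
    · left
      have : xrk f = 0 ∨ xrk f = 1 := by omega
      rcases this with h0 | h0 <;> rw [hL, h0] <;> simp
    · right
      rw [hL, Real.le_logb_iff_rpow_le (by norm_num) (by positivity)]
      rw [Real.rpow_one]
      exact_mod_cast hx
  have hLn : 0 ≤ L := by rcases hL0 with h0 | h0 <;> linarith
  set T : ℕ := Nat.floor (C * L ^ k + C) with hT
  have hLk : 0 ≤ L ^ k := pow_nonneg hLn k
  have hTle : (T : ℝ) ≤ |C| * L ^ k + |C| := by
    rcases le_or_gt 0 (C * L ^ k + C) with h0 | h0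
    · refine (Nat.floor_le h0).trans ?_
      have := le_abs_self C
      nlinarith
    · have : T = 0 := by
        rw [hT]; exact Nat.floor_of_nonpos h0.le
      rw [this]
      have := mul_nonneg hA hLk
      push_cast
      linarith
  rcases hL0 with h0 | h0
  · rw [h0, mul_zero]
    have h1 : (0 : ℝ) ≤ 776 * |C| * (2 * |C| + 1) := by positivity
    have h2 : (0 : ℝ) ≤ 776 * |C| * (2 * |C| + 1) * 0 ^ (2 * k + 2) := by positivity
    linarith
  · have hk1 : 1 ≤ L ^ k := one_le_pow₀ h0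
    have hT2 : (T : ℝ) ≤ 2 * |C| * L ^ k := by nlinarith
    have hk2 : L ^ k ≤ L ^ (k + 1) := pow_le_pow_right₀ h0 (by omega)
    have hk3 : L ≤ L ^ (k + 1) := by
      calc L = L ^ 1 := (pow_one L).symm
        _ ≤ L ^ (k + 1) := pow_le_pow_right₀ h0 (by omega)
    have hTL : (T : ℝ) + L ≤ (2 * |C| + 1) * L ^ (k + 1) := by nlinarith
    have hT0 : (0 : ℝ) ≤ T := Nat.cast_nonneg T
    have hk4 : 0 ≤ L ^ (k + 1) := pow_nonneg hLn _
    calc 388 * (T : ℝ) * (T + L) * L
        ≤ 388 * (2 * |C| * L ^ k) * ((2 * |C| + 1) * L ^ (k + 1)) * L := by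
          have a1 : 388 * (T : ℝ) ≤ 388 * (2 * |C| * L ^ k) := by linarith
          have a2 : 388 * (T : ℝ) * (T + L) ≤
              388 * (2 * |C| * L ^ k) * ((2 * |C| + 1) * L ^ (k + 1)) :=
            mul_le_mul a1 hTL (by positivity) (by positivity)
          exact mul_le_mul_of_nonneg_right a2 hLn
      _ = 776 * |C| * (2 * |C| + 1) * L ^ (2 * k + 2) := by ring
      _ ≤ 776 * |C| * (2 * |C| + 1) * L ^ (2 * k + 2) + 776 * |C| * (2 * |C| + 1) := by
          have : (0 : ℝ) ≤ 776 * |C| * (2 * |C| + 1) := by positivity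
          linarith

end Pool.Agent.LRC
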