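import Pool.Agent.LRC.Targets

set_option autoImplicit false

/-!
# LRC, FOLD: folding of the spectrum
-/

open scoped Classical

noncomputable section

namespace Pool.Agent.LRC

namespace FOLD_

theorem sg_add (a b : ZMod 2) : sg (a + b) = sg a * sg b := by
  have h : ∀ a b : ZMod 2, (a = 0 ∧ b = 0 ∧ a + b = 0) ∨ (a = 0 ∧ b ≠ 0 ∧ a + b ≠ 0) ∨
      (a ≠ 0 ∧ b = 0 ∧ a + b ≠ 0) ∨ (a ≠ 0 ∧ b ≠ 0 ∧ a + b = 0) := by decide
  unfold sg
  rcases h a b with ⟨h1, h2, h3⟩ | ⟨h1, h2, h3⟩ | ⟨h1, h2, h3⟩ | ⟨h1, h2, h3⟩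
  · rw [if_pos h3, if_pos h1, if_pos h2]; norm_num
  · rw [if_neg h3, if_pos h1, if_neg h2]; norm_num
  · rw [if_neg h3, if_neg h1, if_pos h2]; norm_num
  · rw [if_pos h3, if_neg h1, if_neg h2]; norm_num

theorem sg_ne (a : ZMod 2) : sg a ≠ 0 := by
  unfold sg
  split_ifs <;> norm_num

theorem sg_zero : sg 0 = 1 := by
  unfold sg
  rw [if_pos rfl]

theorem sg_of_ne {a : ZMod 2} (h : a ≠ 0) : sg a = -1 := by
  unfold sg
  rw [if_neg h]

theorem finite_dual (V : Type) [AddCommGroup V] [Module (ZMod 2) V] [Finite V] :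
    Finite (Module.Dual (ZMod 2) V) :=
  Finite.of_injective (fun l : Module.Dual (ZMod 2) V => (l : V → ZMod 2)) DFunLike.coe_injective

theorem orth {V : Type} [AddCommGroup V] [Module (ZMod 2) V] [Fintype V] (h : Module.Dual (ZMod 2) V) :
    ∑ w : V, sg (h w) = if h = 0 then (Fintype.card V : ℝ) else 0 := by
  split_ifs with h0
  · subst h0
    simp [sg_zero]
  · obtain ⟨w0, hw0⟩ : ∃ w0, h w0 ≠ 0 := by
      by_contra hc
      push Not at hc
      exact h0 (LinearMap.ext hc)
    have h1 : ∑ w : V, sg (h w) = ∑ w : V, sg (h (w + w0)) :=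
      (Equiv.sum_comp (Equiv.addRight w0) (fun w => sg (h w))).symm
    have h2 : ∑ w : V, sg (h (w + w0)) = - ∑ w : V, sg (h w) := by
      rw [← Finset.sum_neg_distrib]
      apply Finset.sum_congr rfl
      intro w _
      rw [map_add, sg_add, sg_of_ne hw0]
      ring
    linarith

theorem inv (h_PLAN : T_PLAN) {V : Type} [AddCommGroup V] [Module (ZMod 2) V] [Fintype V]
    [Fintype (Module.Dual (ZMod 2) V)] (F : V → ℝ) (z : V) :
    F z = ∑ l : Module.Dual (ZMod 2) V, fco F l * sg (l z) := by
  have h := h_PLAN V F (fun x => if x = z then 1 else 0)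
  rw [finsum_eq_sum_of_fintype, finsum_eq_sum_of_fintype] at h
  have hc : (Nat.card V : ℝ) ≠ 0 := by
    have : 0 < Nat.card V := Nat.card_pos
    positivity
  have h1 : ∀ l : Module.Dual (ZMod 2) V, fco (fun x => if x = z then (1 : ℝ) else 0) l =
      sg (l z) / (Nat.card V : ℝ) := by
    intro l
    unfold fco
    rw [finsum_eq_sum_of_fintype]
    congr 1
    simp [ite_mul]
  simp only [h1] at h
  rw [div_eq_iff hc] at h
  simp only [mul_ite, mul_one, mul_zero, Finset.sum_ite_eq', Finset.mem_univ, if_true] at h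
  rw [h, Finset.sum_mul]
  apply Finset.sum_congr rfl
  intro l _
  field_simp

theorem res (h_PLAN : T_PLAN) {U V : Type} [AddCommGroup V] [Module (ZMod 2) V] [Fintype V]
    [AddCommGroup U] [Module (ZMod 2) U] [Fintype U]
    [Fintype (Module.Dual (ZMod 2) U)] (ι : V →ₗ[ZMod 2] U) (G : U → ℝ) (u : U) (m : Module.Dual (ZMod 2) V) :
    fco (fun w => G (u + ι w)) m =
      ∑ l : Module.Dual (ZMod 2) U, if l.comp ι = m then fco G l * sg (l u) else 0 := by
  have hc : (Nat.card V : ℝ) ≠ 0 := by
    have : 0 < Nat.card V := Nat.card_pos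
    positivity
  unfold fco
  rw [finsum_eq_sum_of_fintype, div_eq_iff hc, Finset.sum_mul]
  have h1 : ∀ w : V, G (u + ι w) * sg (m w) =
      ∑ l : Module.Dual (ZMod 2) U, fco G l * sg (l u) * sg ((l.comp ι + m) w) := by
    intro w
    rw [inv h_PLAN G (u + ι w), Finset.sum_mul]
    apply Finset.sum_congr rfl
    intro l _
    rw [map_add, sg_add, LinearMap.add_apply, sg_add, LinearMap.comp_apply]
    ring
  rw [Finset.sum_congr rfl (fun w _ => h1 w), Finset.sum_comm]
  apply Finset.sum_congr rfl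
  intro l _
  rw [← Finset.mul_sum, orth]
  have h2 : l.comp ι + m = 0 ↔ l.comp ι = m := by
    constructor
    · intro h
      have h3 : ∀ a b : ZMod 2, a + b = 0 → a = b := by decide
      apply LinearMap.ext
      intro w
      apply h3
      have := LinearMap.congr_fun h w
      simpa using this
    · intro h
      rw [h]
      have h3 : ∀ a : ZMod 2, a + a = 0 := by decide
      apply LinearMap.ext
      intro w
      simpa using h3 (m w)
  by_cases h : l.comp ι = m
  · rw [if_pos h, if_pos (h2.mpr h), Nat.card_eq_fintype_card (α := V)]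
    rfl
  · rw [if_neg h, if_neg (fun h' => h (h2.mp h')), mul_zero, zero_mul]

/-- a constant function has no coefficient at a nonzero functional -/
theorem fco_const {V : Type} [AddCommGroup V] [Module (ZMod 2) V] [Fintype V] (c : ℝ)
    (m : Module.Dual (ZMod 2) V) (hm : m ≠ 0) : fco (fun _ : V => c) m = 0 := by
  unfold fco
  rw [finsum_eq_sum_of_fintype, ← Finset.mul_sum, orth, if_neg hm]
  simp

end FOLD_

theorem p_FOLD (h_PLAN : T_PLAN) : T_FOLD := by
  intro E _ _ _ W W₀ f x x₁ x₂ hW hx1 hx2 hconst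
  let _ : Fintype W := Fintype.ofFinite W
  let _ : Fintype W₀ := Fintype.ofFinite W₀
  have : Finite (Module.Dual (ZMod 2) W) := FOLD_.finite_dual W
  have : Finite (Module.Dual (ZMod 2) W₀) := FOLD_.finite_dual W₀
  let _ : Fintype (Module.Dual (ZMod 2) W) := Fintype.ofFinite _
  let _ : Fintype (Module.Dual (ZMod 2) W₀) := Fintype.ofFinite _
  set G : W₀ → ℝ := fun w => ind f (x + (w : E)) with hG
  set ι : W →ₗ[ZMod 2] W₀ := Submodule.inclusion hW with hι
  have hιc : ∀ w : W, ((ι w : W₀) : E) = (w : E) := fun w => rfl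
  set u1 : W₀ := ⟨x₁ - x, hx1⟩ with hu1
  set u2 : W₀ := ⟨x₂ - x, hx2⟩ with hu2
  have h1 : (fun w : W => G (u1 + ι w)) = fun _ : W => ind f x₁ := by
    funext w
    have h2 : x + ((u1 + ι w : W₀) : E) = x₁ + (w : E) := by
      rw [Submodule.coe_add, hιc]
      show x + ((x₁ - x) + (w : E)) = _
      abel
    rw [hG]
    show ind f (x + ((u1 + ι w : W₀) : E)) = _
    rw [h2]
    unfold ind
    rw [hconst w w.2]
  have h2 : (fun w : W => G (u2 + ι w)) = fun w : W => ind f (x₂ + (w : E)) := by
    funext w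
    have h3 : x + ((u2 + ι w : W₀) : E) = x₂ + (w : E) := by
      rw [Submodule.coe_add, hιc]
      show x + ((x₂ - x) + (w : E)) = _
      abel
    rw [hG]
    show ind f (x + ((u2 + ι w : W₀) : E)) = _
    rw [h3]
  unfold sp1
  rw [← h2, Nat.card_eq_fintype_card, Nat.card_eq_fintype_card, Fintype.card_subtype, Fintype.card_subtype]
  set M : Finset (Module.Dual (ZMod 2) W) :=
    Finset.univ.filter fun m => m ≠ 0 ∧ fco (fun w : W => G (u2 + ι w)) m ≠ 0 with hM
  set S : Finset (Module.Dual (ZMod 2) W₀) := Finset.univ.filter fun l => l ≠ 0 ∧ fco G l ≠ 0 with hS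
  have hfib : ∀ m ∈ M, 2 ≤ (S.filter fun l => l.comp ι = m).card := by
    intro m hm
    rw [hM, Finset.mem_filter] at hm
    obtain ⟨_, hm0, hm2⟩ := hm
    have hc1 := FOLD_.fco_const (V := W) (ind f x₁) m hm0
    rw [← h1, FOLD_.res h_PLAN ι G u1 m] at hc1
    rw [FOLD_.res h_PLAN ι G u2 m] at hm2
    have hsum : ∀ u : W₀, (∑ l : Module.Dual (ZMod 2) W₀, if l.comp ι = m then fco G l * sg (l u) else 0) =
        ∑ l ∈ S.filter (fun l => l.comp ι = m), fco G l * sg (l u) := by
      intro u
      rw [← Finset.sum_filter]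
      symm
      apply Finset.sum_subset
      · intro l hl
        rw [Finset.mem_filter] at hl ⊢
        exact ⟨Finset.mem_univ _, hl.2⟩
      · intro l hl hl'
        rw [Finset.mem_filter] at hl hl'
        have h0 : fco G l = 0 := by
          by_contra hne
          apply hl'
          refine ⟨?_, hl.2⟩
          rw [hS, Finset.mem_filter]
          refine ⟨Finset.mem_univ _, ?_, hne⟩
          intro hl0
          apply hm0
          rw [← hl.2, hl0, LinearMap.zero_comp]
        rw [h0, zero_mul]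
    rw [hsum] at hc1 hm2
    by_contra hlt
    push Not at hlt
    have h01 : (S.filter fun l => l.comp ι = m).card = 0 ∨ (S.filter fun l => l.comp ι = m).card = 1 := by
      omega
    rcases h01 with h0 | h0
    · rw [Finset.card_eq_zero] at h0
      rw [h0, Finset.sum_empty] at hm2
      exact hm2 rfl
    · rw [Finset.card_eq_one] at h0
      obtain ⟨l, hl⟩ := h0
      have hlS : l ∈ S.filter (fun l => l.comp ι = m) := by
        rw [hl]; exact Finset.mem_singleton_self _
      rw [hl, Finset.sum_singleton] at hc1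
      rw [Finset.mem_filter, hS, Finset.mem_filter] at hlS
      rcases mul_eq_zero.mp hc1 with h | h
      · exact hlS.1.2.2 h
      · exact FOLD_.sg_ne _ h
  calc 2 * M.card = ∑ _m ∈ M, 2 := by rw [Finset.sum_const, smul_eq_mul, mul_comm]
    _ ≤ ∑ m ∈ M, (S.filter fun l => l.comp ι = m).card := Finset.sum_le_sum hfib
    _ = ∑ m ∈ M, ((S.filter fun l => l.comp ι ∈ M).filter fun l => l.comp ι = m).card := by
        apply Finset.sum_congr rfl
        intro m hm
        congr 1
        ext l
        simp only [Finset.mem_filter]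
        constructor
        · rintro ⟨h1, h2⟩
          exact ⟨⟨h1, h2 ▸ hm⟩, h2⟩
        · rintro ⟨⟨h1, _⟩, h2⟩
          exact ⟨h1, h2⟩
    _ = (S.filter fun l => l.comp ι ∈ M).card := by
        symm
        apply Finset.card_eq_sum_card_fiberwise
        intro l hl
        have := (Finset.mem_filter.mp hl).2
        exact this
    _ ≤ S.card := Finset.card_filter_le _ _

end Pool.Agent.LRC
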