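import Pool.Agent.LRC.Targets

set_option autoImplicit false

/-!
# LRC, target FUN: functionals cutting out a subspace
-/

noncomputable section

namespace Pool.Agent.LRC

namespace FUN_

theorem aux (E : Type) [AddCommGroup E] [Module (ZMod 2) E] [Finite E]
    (W : Submodule (ZMod 2) E) (K : ℕ) : ∀ W₀ : Submodule (ZMod 2) E, W ≤ W₀ →
    Module.finrank (ZMod 2) W₀ ≤ K + Module.finrank (ZMod 2) W →
    ∃ l : Fin K → Module.Dual (ZMod 2) E, ∀ x ∈ W₀, (∀ i, l i x = 0) → x ∈ W := by
  induction K with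
  | zero =>
    intro W₀ hW hr
    rw [zero_add] at hr
    have h := Submodule.eq_of_le_of_finrank_le hW hr
    refine ⟨fun i => 0, fun x hx _ => ?_⟩
    rw [h]
    exact hx
  | succ K ih =>
    intro W₀ hW hr
    by_cases h : W₀ ≤ W
    · exact ⟨fun i => 0, fun x hx _ => h hx⟩
    · obtain ⟨x₀, hx₀, hx₀W⟩ := Set.not_subset.mp h
      obtain ⟨l₀, hl₀, hlW⟩ := Submodule.exists_le_ker_of_notMem (p := W) hx₀W
      have hW' : W ≤ W₀ ⊓ LinearMap.ker l₀ := by
        exact le_inf hW hlW
      have hlt : W₀ ⊓ LinearMap.ker l₀ < W₀ := by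
        refine lt_of_le_of_ne inf_le_left ?_
        intro he
        have : x₀ ∈ W₀ ⊓ LinearMap.ker l₀ := by
          rw [he]
          exact hx₀
        exact hl₀ (LinearMap.mem_ker.mp this.2)
      have hfr := Submodule.finrank_lt_finrank_of_lt hlt
      obtain ⟨l, hl⟩ := ih (W₀ ⊓ LinearMap.ker l₀) hW' (by omega)
      refine ⟨Fin.cons l₀ l, fun x hx hx0 => ?_⟩
      apply hl x
      · refine ⟨hx, ?_⟩
        have := hx0 0
        rw [Fin.cons_zero] at this
        exact LinearMap.mem_ker.mpr this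
      · intro i
        have := hx0 i.succ
        rw [Fin.cons_succ] at this
        exact this

end FUN_

theorem p_FUN : T_FUN := by
  intro E _ _ _ W W₀ K hW hr
  exact FUN_.aux E W K W₀ hW hr

end Pool.Agent.LRC
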