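import Pool.Agent.LRC.Targets

set_option autoImplicit false

/-!
# LRC: HALV (halving the rank of a trilinear form)
-/

namespace Pool.Agent.LRC

namespace HALV_

variable {E : Type} [AddCommGroup E] [Module (ZMod 2) E]

theorem rad_le {T : E → E → E → ZMod 2} (hT : Tri T) (V : Submodule (ZMod 2) E) (x : E) :
    rad T V x ≤ V := fun y hy => ((mem_rad hT V x y).1 hy).1

theorem main (hS : T_STEP) [Finite E] {T : E → E → E → ZMod 2} (hT : Tri T) (ρ : ℕ) :
    ∀ V : Submodule (ZMod 2) E,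
      (∀ x ∈ V, Module.finrank (ZMod 2) V ≤ ρ + Module.finrank (ZMod 2) (rad T V x)) →
      ∃ V' : Submodule (ZMod 2) E, V' ≤ V ∧
        Module.finrank (ZMod 2) V ≤ 2 * ρ + Module.finrank (ZMod 2) V' ∧
        ∀ x ∈ V', ∀ y ∈ V', ∀ z ∈ V', T x y z = 0 := by
  induction ρ using Nat.strong_induction_on with
  | _ ρ ih =>
    intro V hV
    by_cases h0 : ∀ x ∈ V, ∀ y ∈ V, ∀ z ∈ V, T x y z = 0
    · exact ⟨V, le_rfl, by omega, h0⟩
    obtain ⟨x₀, hx₀, hmin⟩ : ∃ x₀ ∈ V, ∀ x ∈ V, Module.finrank (ZMod 2) (rad T V x₀) ≤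
        Module.finrank (ZMod 2) (rad T V x) := by
      have h1 : {k : ℕ | ∃ x ∈ V, Module.finrank (ZMod 2) (rad T V x) = k}.Nonempty :=
        ⟨_, 0, V.zero_mem, rfl⟩
      obtain ⟨x₀, hx₀, h2⟩ := Nat.sInf_mem h1
      refine ⟨x₀, hx₀, fun x hx => ?_⟩
      rw [h2]
      exact Nat.sInf_le ⟨x, hx, rfl⟩
    have hpos : Module.finrank (ZMod 2) (rad T V x₀) < Module.finrank (ZMod 2) V := by
      by_contra hcon
      push Not at hcon
      apply h0
      intro x hx y hy z hz
      have h1 : rad T V x = V :=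
        Submodule.eq_of_le_of_finrank_le (rad_le hT V x) (hcon.trans (hmin x hx))
      have h2 : y ∈ rad T V x := by rw [h1]; exact hy
      exact ((mem_rad hT V x y).1 h2).2 z hz
    have h3 := hV x₀ hx₀
    have hN : rad T V x₀ ≤ V := rad_le hT V x₀
    obtain ⟨V', hV'N, hV'd, hV'T⟩ := ih
      ((Module.finrank (ZMod 2) V - Module.finrank (ZMod 2) (rad T V x₀)) / 2) (by omega)
      (rad T V x₀) (by
        intro x hx
        have h4 := hS E T V x₀ x hT
        have h5 := hmin x (hN hx)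
        have h6 := hmin (x₀ + x) (V.add_mem hx₀ (hN hx))
        omega)
    exact ⟨V', hV'N.trans hN, by omega, hV'T⟩

end HALV_

theorem p_HALV : T_STEP → T_HALV := by
  intro hS E _ _ _ T ρ V hT hV
  exact HALV_.main hS hT ρ V hV

end Pool.Agent.LRC
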