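import Pool.Agent.LRC.Targets

set_option autoImplicit false

/-!
# MP_9f5962_lc: job KILL
-/

open scoped Classical

noncomputable section

namespace Pool.Agent.LRC

namespace KILL_

variable {E : Type} [AddCommGroup E] [Module (ZMod 2) E] [Finite E]

theorem sum_sg (l : Module.Dual (ZMod 2) E) (hl : l ≠ 0) : ∑ᶠ x : E, (1 : ℝ) * sg (l x) = 0 := by
  have := Fintype.ofFinite E
  rw [finsum_eq_sum_of_fintype]
  obtain ⟨b, hb⟩ : ∃ b, l b ≠ 0 := by
    by_contra h
    push Not at h
    exact hl (LinearMap.ext h)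
  have h1 : ∀ u v : ZMod 2, v ≠ 0 → (u + v = 0 ↔ u ≠ 0) := by decide
  have h2 : ∀ x : E, (1 : ℝ) * sg (l (x + b)) = -((1 : ℝ) * sg (l x)) := by
    intro x
    rw [map_add]
    unfold sg
    by_cases hx : l x = 0
    · have : ¬ l x + l b = 0 := by
        rw [h1 _ _ hb]
        simp [hx]
      simp [hx, hb]
    · have : l x + l b = 0 := (h1 _ _ hb).2 hx
      simp [this, hx]
  have h3 := Fintype.sum_equiv (Equiv.addRight b) (fun x : E => (1 : ℝ) * sg (l (x + b)))
    (fun x : E => (1 : ℝ) * sg (l x)) (fun x => rfl)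
  simp only [h2, Finset.sum_neg_distrib] at h3
  linarith

theorem fco_one_sub (F : E → ℝ) (l : Module.Dual (ZMod 2) E) (hl : l ≠ 0) :
    fco (fun x => 1 - F x) l = - fco F l := by
  have h := sum_sg l hl
  have := Fintype.ofFinite E
  unfold fco
  rw [finsum_eq_sum_of_fintype] at h ⊢
  rw [finsum_eq_sum_of_fintype, ← neg_div]
  congr 1
  simp only [sub_mul, Finset.sum_sub_distrib]
  rw [h, zero_sub]

theorem spa_one_sub (F : E → ℝ) : spa (fun x => 1 - F x) ≤ spa F + 1 := by
  have hfin : Finite (Module.Dual (ZMod 2) E) := by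
    have : Function.Injective (fun l : Module.Dual (ZMod 2) E => (l : E → ZMod 2)) :=
      DFunLike.coe_injective
    exact Finite.of_injective _ this
  unfold spa
  have h1 : Nat.card {l : Module.Dual (ZMod 2) E // fco (fun x => 1 - F x) l ≠ 0} ≤
      Nat.card (Option {l : Module.Dual (ZMod 2) E // fco F l ≠ 0}) := by
    refine Nat.card_le_card_of_injective (fun l => if h : l.1 = 0 then none else
      some ⟨l.1, fun h' => l.2 (by rw [fco_one_sub F l.1 h, h', neg_zero])⟩) ?_
    intro l l' hll
    simp only at hll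
    by_cases h : l.1 = 0
    · by_cases h' : l'.1 = 0
      · exact Subtype.ext (h.trans h'.symm)
      · rw [dif_pos h, dif_neg h'] at hll
        exact absurd hll (by simp)
    · by_cases h' : l'.1 = 0
      · rw [dif_neg h, dif_pos h'] at hll
        exact absurd hll (by simp)
      · rw [dif_neg h, dif_neg h'] at hll
        have h3 := Option.some.inj hll
        exact Subtype.ext (Subtype.mk.inj h3)
  rw [Finite.card_option] at h1
  exact h1

end KILL_

theorem p_KILL : T_REG → T_CONST → T_RES → T_KILL := by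
  intro h_REG h_CONST h_RES E _ _ _ f b s t k P hP hne hB hs hk
  obtain ⟨x₀, W, hdim, hW0, hWB, hWc⟩ := h_REG E t k (2 * (s + 1)) P {x | f x ≠ b} hP hne hB
  refine ⟨x₀, W, hdim, ?_⟩
  have hspa : spa (fun w : W => if f (x₀ + (w : E)) ≠ b then (1 : ℝ) else 0) ≤ s + 1 := by
    have h1 : spa (fun w : W => ind f (x₀ + (w : E))) ≤ s := (h_RES E W x₀ (ind f)).trans hs
    cases b with
    | false =>
      have : (fun w : W => if f (x₀ + (w : E)) ≠ false then (1 : ℝ) else 0) =
          fun w : W => ind f (x₀ + (w : E)) := by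
        funext w
        unfold ind
        simp
      rw [this]
      omega
    | true =>
      have : (fun w : W => if f (x₀ + (w : E)) ≠ true then (1 : ℝ) else 0) =
          fun w : W => 1 - ind f (x₀ + (w : E)) := by
        funext w
        unfold ind
        by_cases h : f (x₀ + (w : E)) = true
        · simp [h]
        · simp [h]
      rw [this]
      exact (KILL_.spa_one_sub _).trans (by omega)
  have key := h_CONST W (fun w : W => if f (x₀ + (w : E)) ≠ b then (1 : ℝ) else 0) (s + 1) t k
    (fun i w => P i (x₀ + (w : E))) ?_ ?_ ?_ ?_ hspa hk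
  · intro w hw
    have := key ⟨w, hw⟩
    by_contra hne'
    simp only at this
    rw [if_pos hne'] at this
    exact one_ne_zero this
  · intro x
    by_cases h : f (x₀ + (x : E)) ≠ b
    · exact Or.inr (if_pos h)
    · exact Or.inl (if_neg h)
  · obtain ⟨v, hv, hv'⟩ := hW0
    exact ⟨⟨v, hv⟩, hv'⟩
  · have e1 : {v | v ∈ W ∧ x₀ + v ∈ zer P ∧ x₀ + v ∈ {x | f x ≠ b}} =
        (Subtype.val : W → E) '' {w : W | w ∈ zer (fun i (w : W) => P i (x₀ + (w : E))) ∧
          (if f (x₀ + (w : E)) ≠ b then (1 : ℝ) else 0) ≠ 0} := by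
      ext v
      constructor
      · rintro ⟨h1, h2, h3⟩
        exact ⟨⟨v, h1⟩, ⟨h2, by
          have h4 : f (x₀ + v) ≠ b := h3
          rw [if_pos h4]
          exact one_ne_zero⟩, rfl⟩
      · rintro ⟨w, ⟨h1, h2⟩, rfl⟩
        refine ⟨w.2, h1, ?_⟩
        by_contra h3
        exact h2 (if_neg h3)
    have e2 : {v | v ∈ W ∧ x₀ + v ∈ zer P} =
        (Subtype.val : W → E) '' (zer (fun i (w : W) => P i (x₀ + (w : E)))) := by
      ext v
      constructor
      · rintro ⟨h1, h2⟩
        exact ⟨⟨v, h1⟩, h2, rfl⟩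
      · rintro ⟨w, h1, rfl⟩
        exact ⟨w.2, h1⟩
    rw [e1, e2, Set.ncard_image_of_injective _ Subtype.val_injective,
      Set.ncard_image_of_injective _ Subtype.val_injective] at hWB
    exact hWB
  · intro c
    rcases hWc c with h | h
    · left
      intro w
      have h1 := h w.1 w.2
      have h2 := h 0 W.zero_mem
      change comb P c (x₀ + (w : E)) = comb P c (x₀ + ((0 : W) : E))
      rw [h1, ZeroMemClass.coe_zero, h2]
    · right
      exact h

end Pool.Agent.LRC
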