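import Pool.Agent.LRC.Targets

set_option autoImplicit false
set_option linter.unusedSectionVars false

/-!
# LRC, target LOW: derivatives of small rank of a cubic phase with a large Fourier coefficient
-/

open scoped Classical

noncomputable section

namespace Pool.Agent.LRC

namespace LOW_

theorem sg_add (a b : ZMod 2) : sg (a + b) = sg a * sg b := by
  have h : ∀ a : ZMod 2, a = 0 ∨ a = 1 := by decide
  have h10 : (1 : ZMod 2) ≠ 0 := by decide
  have h11 : (1 : ZMod 2) + 1 = 0 := by decide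
  unfold sg
  rcases h a with ha | ha <;> rcases h b with hb | hb <;> subst ha <;> subst hb <;> simp [h10, h11]

theorem sg_abs (a : ZMod 2) : |sg a| = 1 := by
  unfold sg
  split_ifs <;> simp

theorem sg_le (a : ZMod 2) : sg a ≤ 1 := by
  unfold sg
  split_ifs <;> norm_num

section

variable {E : Type} [AddCommGroup E] [Module (ZMod 2) E]

theorem self_add (x : E) : x + x = 0 := by
  have h : (2 : ZMod 2) • x = 0 := by
    have : (2 : ZMod 2) = 0 := by decide
    rw [this, zero_smul]
  rw [two_smul] at h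
  exact h

theorem dv_comm (x y : E) (R : E → ZMod 2) : Dv x (Dv y R) = Dv y (Dv x R) := by
  funext u
  unfold Dv
  rw [add_right_comm u x y]
  ring

theorem T_add (R : E → ZMod 2) (x x' : E) (h : Dv x (Dv x' R) 0 = 0) :
    Dv (x + x') R 0 = Dv x R 0 + Dv x' R 0 := by
  unfold Dv at h ⊢
  rw [← add_assoc]
  generalize R (0 + x + x') = a at *
  generalize R (0 + x) = b at *
  generalize R (0 + x') = c at *
  generalize R 0 = e at *
  revert a b c e
  decide

theorem tri {P : E → ZMod 2} (hP : Deg3 P) : Tri (fun x y z => Dv x (Dv y (Dv z P)) 0) := by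
  refine ⟨?_, ?_, ?_⟩
  · intro x x' y z
    exact T_add _ x x' (hP x x' y z 0)
  · intro x y z
    change Dv x (Dv y (Dv z P)) 0 = Dv y (Dv x (Dv z P)) 0
    rw [dv_comm x y]
  · intro x y z
    change Dv x (Dv y (Dv z P)) 0 = Dv x (Dv z (Dv y P)) 0
    rw [dv_comm y z]

theorem const {P : E → ZMod 2} (hP : Deg3 P) (b a h x : E) :
    Dv b (Dv a (Dv h P)) x = Dv b (Dv a (Dv h P)) 0 := by
  have h1 := hP x b a h 0
  have h2 : Dv b (Dv a (Dv h P)) (0 + x) + Dv b (Dv a (Dv h P)) 0 = 0 := h1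
  rw [zero_add] at h2
  revert h2
  generalize Dv b (Dv a (Dv h P)) x = u
  generalize Dv b (Dv a (Dv h P)) 0 = v
  revert u v
  decide

theorem sum_zero [Fintype E] (g : E → ZMod 2) (b : E) (h : ∀ x, Dv b g x = 1) :
    ∑ x, sg (g x) = 0 := by
  have h1 : ∑ x, sg (g (x + b)) = ∑ x, sg (g x) :=
    Equiv.sum_comp (Equiv.addRight b) fun x => sg (g x)
  have h2 : ∑ x, sg (g (x + b)) = -∑ x, sg (g x) := by
    rw [← Finset.sum_neg_distrib]
    refine Finset.sum_congr rfl fun x _ => ?_
    have h3 : g (x + b) = g x + 1 := by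
      have h4 := h x
      unfold Dv at h4
      revert h4
      generalize g (x + b) = u
      generalize g x = v
      revert u v
      decide
    rw [h3, sg_add]
    have : sg 1 = -1 := by
      unfold sg
      rw [if_neg (by decide)]
    rw [this]
    ring
  linarith

/-- the square of a sum of signs -/
theorem sq_sum [Fintype E] (g : E → ZMod 2) (f : E → ℝ) (hf : ∀ x y, f (x + y) = f x * f y)
    (hf1 : ∀ x, f x * f x = 1) :
    (∑ x, sg (g x) * f x) ^ 2 = ∑ a, f a * ∑ x, sg (Dv a g x) := by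
  rw [sq, Finset.sum_mul_sum]
  have h1 : ∀ x : E, ∑ y, sg (g x) * f x * (sg (g y) * f y) = ∑ a, f a * sg (Dv a g x) := by
    intro x
    rw [← Equiv.sum_comp (Equiv.addLeft x)]
    refine Finset.sum_congr rfl fun a _ => ?_
    rw [Equiv.coe_addLeft, hf x a]
    unfold Dv
    rw [sg_add]
    calc sg (g x) * f x * (sg (g (x + a)) * (f x * f a))
        = sg (g x) * sg (g (x + a)) * f a * (f x * f x) := by ring
      _ = f a * (sg (g (x + a)) * sg (g x)) := by rw [hf1]; ring
  rw [Finset.sum_congr rfl fun x _ => h1 x, Finset.sum_comm]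
  refine Finset.sum_congr rfl fun a _ => ?_
  rw [Finset.mul_sum]

theorem card_pow [Finite E] (W : Submodule (ZMod 2) E) :
    Nat.card W = 2 ^ Module.finrank (ZMod 2) W := by
  have : Fintype W := Fintype.ofFinite W
  rw [Nat.card_eq_fintype_card, Module.card_eq_pow_finrank (K := ZMod 2), ZMod.card]

theorem card_pow' [Finite E] : Nat.card E = 2 ^ Module.finrank (ZMod 2) E := by
  have : Fintype E := Fintype.ofFinite E
  rw [Nat.card_eq_fintype_card, Module.card_eq_pow_finrank (K := ZMod 2), ZMod.card]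

end

end LOW_

open LOW_ in
theorem p_LOW : T_LOW := by
  intro E _ _ _ P l k hP hc
  have hT := tri hP
  refine ⟨hT, ?_⟩
  have : Fintype E := Fintype.ofFinite E
  set T : E → E → E → ZMod 2 := fun x y z => Dv x (Dv y (Dv z P)) 0 with hTd
  set N : ℝ := (Nat.card E : ℝ) with hN
  have hN0 : 0 < N := by
    rw [hN]
    exact_mod_cast Nat.card_pos
  have hNc : N = (Fintype.card E : ℝ) := by rw [hN, Nat.card_eq_fintype_card]
  set m : E → ℝ := fun h => ∑ x, sg (Dv h P x) with hm
  -- bounds for `m`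
  have hm2 : ∀ h, m h ^ 2 ≤ N * (Nat.card (rad T ⊤ h) : ℝ) := by
    intro h
    have h1 := sq_sum (Dv h P) (fun _ => (1 : ℝ)) (fun _ _ => by ring) (fun _ => by ring)
    simp only [mul_one, one_mul] at h1
    rw [hm]
    simp only
    rw [h1]
    have h2 : ∀ a : E, ∑ x, sg (Dv a (Dv h P) x) ≤ if a ∈ rad T ⊤ h then N else 0 := by
      intro a
      split_ifs with ha
      · calc ∑ x, sg (Dv a (Dv h P) x) ≤ ∑ x : E, (1 : ℝ) := Finset.sum_le_sum fun x _ => sg_le _
          _ = N := by rw [hNc]; simp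
      · rw [mem_rad hT] at ha
        push Not at ha
        obtain ⟨b, -, hb⟩ := ha Submodule.mem_top
        have hb1 : T b a h = 1 := by
          have h3 : T b a h = T h a b := by
            rw [hT.2.2 b a h, hT.2.1 b h a, hT.2.2 h b a]
          rw [h3]
          revert hb
          generalize T h a b = u
          revert u
          decide
        refine (sum_zero _ b fun x => ?_).le
        rw [const hP]
        exact hb1
    refine (Finset.sum_le_sum fun a _ => h2 a).trans ?_
    rw [← Finset.sum_filter, Finset.sum_const, nsmul_eq_mul, mul_comm]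
    refine le_of_eq ?_
    congr 2
    rw [Nat.card_eq_fintype_card, Fintype.card_subtype]
  have hmN : ∀ h, |m h| ≤ N := by
    intro h
    rw [hm]
    simp only
    refine (Finset.abs_sum_le_sum_abs _ _).trans ?_
    rw [hNc]
    simp [sg_abs]
  set n := Module.finrank (ZMod 2) E with hn
  have hNn : N = 2 ^ n := by
    rw [hN, card_pow']
    push_cast
    rfl
  have hms : ∀ h, ¬ (n ≤ 4 * k + 1 + Module.finrank (ZMod 2) (rad T ⊤ h)) →
      |m h| ≤ N * (1 / 2) ^ (2 * k + 1) := by
    intro h hh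
    push Not at hh
    have hr : (Nat.card (rad T ⊤ h) : ℝ) ≤ N * (1 / 2) ^ (4 * k + 2) := by
      rw [card_pow, hNn]
      push_cast
      have h1 : (2 : ℝ) ^ (4 * k + 2 + Module.finrank (ZMod 2) (rad T ⊤ h)) ≤ 2 ^ n :=
        pow_le_pow_right₀ (by norm_num) (by omega)
      rw [pow_add] at h1
      have h2 : (2 : ℝ) ^ (4 * k + 2) * (1 / 2) ^ (4 * k + 2) = 1 := by
        rw [← mul_pow]
        norm_num
      have h3 := mul_le_mul_of_nonneg_right h1 (show (0 : ℝ) ≤ (1 / 2) ^ (4 * k + 2) by positivity)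
      calc (2 : ℝ) ^ Module.finrank (ZMod 2) (rad T ⊤ h)
          = 2 ^ (4 * k + 2) * 2 ^ Module.finrank (ZMod 2) (rad T ⊤ h) * (1 / 2) ^ (4 * k + 2) := by
            rw [mul_right_comm, h2, one_mul]
        _ ≤ 2 ^ n * (1 / 2) ^ (4 * k + 2) := h3
    refine abs_le_of_sq_le_sq ?_ (by positivity)
    calc m h ^ 2 ≤ N * (Nat.card (rad T ⊤ h) : ℝ) := hm2 h
      _ ≤ N * (N * (1 / 2) ^ (4 * k + 2)) := by gcongr
      _ = (N * (1 / 2) ^ (2 * k + 1)) ^ 2 := by ring
  -- the Fourier coefficient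
  set A : ℝ := ∑ x, sg (P x) * sg (l x) with hA
  have hfco : fco (fun x => sg (P x)) l = A / N := by
    unfold fco
    rw [finsum_eq_sum_of_fintype]
  have hA2 : N ^ 2 * (1 / 2) ^ (2 * k) ≤ A ^ 2 := by
    rw [hfco, abs_div, abs_of_pos hN0, le_div_iff₀ hN0] at hc
    have h1 : ((1 / 2 : ℝ) ^ k * N) ^ 2 ≤ |A| ^ 2 := pow_le_pow_left₀ (by positivity) hc 2
    rw [sq_abs] at h1
    calc N ^ 2 * (1 / 2) ^ (2 * k) = ((1 / 2 : ℝ) ^ k * N) ^ 2 := by ring
      _ ≤ A ^ 2 := h1
  have hA3 : A ^ 2 ≤ ∑ a, |m a| := by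
    rw [hA, sq_sum P (fun x => sg (l x)) (fun x y => by rw [map_add, sg_add]) (fun x => by
      rw [← sq, ← sq_abs, sg_abs]
      norm_num)]
    refine Finset.sum_le_sum fun a _ => ?_
    refine (le_abs_self _).trans ?_
    rw [abs_mul, sg_abs, one_mul]
  have hS : ∑ a, |m a| ≤
      (Nat.card {h : E // n ≤ 4 * k + 1 + Module.finrank (ZMod 2) (rad T ⊤ h)} : ℝ) * N +
        N * (N * (1 / 2) ^ (2 * k + 1)) := by
    have h1 : ∀ a, |m a| ≤ (if n ≤ 4 * k + 1 + Module.finrank (ZMod 2) (rad T ⊤ a) then N else 0) +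
        N * (1 / 2) ^ (2 * k + 1) := by
      intro a
      split_ifs with ha
      · have : 0 ≤ N * (1 / 2) ^ (2 * k + 1) := by positivity
        linarith [hmN a]
      · rw [zero_add]
        exact hms a ha
    refine (Finset.sum_le_sum fun a _ => h1 a).trans ?_
    rw [Finset.sum_add_distrib, ← Finset.sum_filter, Finset.sum_const, Finset.sum_const,
      nsmul_eq_mul, nsmul_eq_mul, Finset.card_univ, ← hNc]
    refine le_of_eq ?_
    congr 3
    rw [Nat.card_eq_fintype_card, Fintype.card_subtype]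
  set c : ℝ := (Nat.card {h : E // n ≤ 4 * k + 1 + Module.finrank (ZMod 2) (rad T ⊤ h)} : ℝ)
    with hcd
  have hfin : N * (1 / 2) ^ (2 * k + 1) ≤ c := by
    have h1 := hA2.trans (hA3.trans hS)
    have h2 : N * (N * (1 / 2) ^ (2 * k + 1)) ≤ N * c := by
      have h3 : N ^ 2 * (1 / 2) ^ (2 * k) = 2 * (N * (N * (1 / 2) ^ (2 * k + 1))) := by ring
      rw [h3] at h1
      linarith
    exact le_of_mul_le_mul_left h2 hN0
  have hfin2 : N ≤ 2 ^ (2 * k + 1) * c := by
    have h2 : (2 : ℝ) ^ (2 * k + 1) * (1 / 2) ^ (2 * k + 1) = 1 := by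
      rw [← mul_pow]
      norm_num
    calc N = 2 ^ (2 * k + 1) * (N * (1 / 2) ^ (2 * k + 1)) := by
          rw [mul_left_comm, h2, mul_one]
      _ ≤ 2 ^ (2 * k + 1) * c := by gcongr
  rw [hN, hcd] at hfin2
  exact_mod_cast hfin2

end Pool.Agent.LRC
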