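import Pool.Agent.LRC.PLAN

set_option autoImplicit false

/-!
# LRC, target NCO: sparsity of nonconstant functions
-/

open scoped Classical

noncomputable section

namespace Pool.Agent.LRC

namespace NCO_

theorem sg_ne (a : ZMod 2) : sg a ≠ 0 := by
  unfold sg
  split_ifs <;> norm_num

/-- Fourier inversion -/
theorem inv (E : Type) [AddCommGroup E] [Module (ZMod 2) E] [Finite E] (F : E → ℝ) (z : E) :
    F z = ∑ᶠ l : Module.Dual (ZMod 2) E, fco F l * sg (l z) := by
  have : Fintype E := Fintype.ofFinite E
  have : Finite (Module.Dual (ZMod 2) E) :=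
    Finite.of_injective (fun l : Module.Dual (ZMod 2) E => (l : E → ZMod 2)) DFunLike.coe_injective
  have : Fintype (Module.Dual (ZMod 2) E) := Fintype.ofFinite _
  have hN : (0 : ℝ) < (Nat.card E : ℝ) := by
    exact_mod_cast Nat.card_pos
  have h := p_PLAN E F (fun x => if x = z then 1 else 0)
  have h1 : ∀ l : Module.Dual (ZMod 2) E, fco (fun x : E => if x = z then (1 : ℝ) else 0) l =
      sg (l z) / (Nat.card E : ℝ) := by
    intro l
    unfold fco
    rw [finsum_eq_single _ z (fun x hx => by simp [hx])]
    simp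
  rw [finsum_eq_single _ z (fun x hx => by simp [hx])] at h
  simp only [if_true, mul_one, h1] at h
  rw [finsum_eq_sum_of_fintype] at h ⊢
  rw [div_eq_iff hN.ne', Finset.sum_mul] at h
  rw [h]
  refine Finset.sum_congr rfl fun l _ => ?_
  field_simp

end NCO_

/-- NCO -/
theorem p_NCO : T_NCO := by
  intro E _ _ _ f
  have hfin : Finite (Module.Dual (ZMod 2) E) :=
    Finite.of_injective (fun l : Module.Dual (ZMod 2) E => (l : E → ZMod 2)) DFunLike.coe_injective
  refine ⟨?_, ?_⟩
  · unfold sp1 spa
    exact Nat.card_le_card_of_injective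
      (fun x : {l : Module.Dual (ZMod 2) E // l ≠ 0 ∧ fco (ind f) l ≠ 0} =>
        (⟨x.1, x.2.2⟩ : {l : Module.Dual (ZMod 2) E // fco (ind f) l ≠ 0}))
      (fun x y hxy => Subtype.ext (by simpa using hxy))
  · rintro ⟨x, y, hxy⟩
    by_contra hlt
    push Not at hlt
    have h1 : Nat.card {l : Module.Dual (ZMod 2) E // fco (ind f) l ≠ 0} ≤ 1 := by
      have : spa (ind f) ≤ 1 := by omega
      exact this
    rw [Finite.card_le_one_iff_subsingleton] at h1
    -- all nonzero coefficients are at one functional
    have h2 : ∃ l₀ : Module.Dual (ZMod 2) E, ∀ l, l ≠ l₀ → fco (ind f) l = 0 := by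
      by_cases he : ∃ l₀ : Module.Dual (ZMod 2) E, fco (ind f) l₀ ≠ 0
      · obtain ⟨l₀, hl₀⟩ := he
        refine ⟨l₀, fun l hl => ?_⟩
        by_contra hc
        apply hl
        have := h1.elim ⟨l, hc⟩ ⟨l₀, hl₀⟩
        simpa using this
      · push Not at he
        exact ⟨0, fun l _ => he l⟩
    obtain ⟨l₀, hl₀⟩ := h2
    have h3 : ∀ z, ind f z = fco (ind f) l₀ * sg (l₀ z) := by
      intro z
      rw [NCO_.inv E (ind f) z, finsum_eq_single _ l₀ (fun l hl => by rw [hl₀ l hl, zero_mul])]
    have h4 : ∀ z, f z = false → fco (ind f) l₀ = 0 := by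
      intro z hz
      have := h3 z
      have h5 : ind f z = 0 := by unfold ind; simp [hz]
      rw [h5] at this
      rcases mul_eq_zero.1 this.symm with h | h
      · exact h
      · exact absurd h (NCO_.sg_ne _)
    have h5 : ∀ z, f z = true → fco (ind f) l₀ ≠ 0 := by
      intro z hz h0
      have := h3 z
      rw [h0, zero_mul] at this
      unfold ind at this
      simp [hz] at this
    rcases hx : f x with _ | _ <;> rcases hy : f y with _ | _
    · exact hxy (hx.trans hy.symm)
    · exact h5 y hy (h4 x hx)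
    · exact h5 x hx (h4 y hy)
    · exact hxy (hx.trans hy.symm)

end Pool.Agent.LRC
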