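import Pool.Agent.LRC.Targets

set_option autoImplicit false

/-!
# MP_9f5962_lc: parity queries in the protocol encoding

Alice sends the values `l i x`, Bob sends the values `l i y`, and then they run the protocol of
`G v` where `v i = l i x + l i y`.
-/

open scoped Classical

noncomputable section

namespace Pool.Agent.LRC

namespace QRY_

/-- The value vector decoded from the first `2 * K` bits of the transcript. -/
def dec (K : ℕ) (s : List Bool) : Fin K → ZMod 2 := fun i =>
  (if s[i.1]? = some true then 1 else 0) + (if s[K + i.1]? = some true then 1 else 0)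

theorem dec_take (K m : ℕ) (s : List Bool) (hm : 2 * K ≤ m) : dec K (s.take m) = dec K s := by
  funext i
  have hi := i.2
  unfold dec
  rw [List.getElem?_take_of_lt (by omega), List.getElem?_take_of_lt (by omega)]

theorem bit (a : ZMod 2) : (if some (decide (a = 1)) = some true then (1 : ZMod 2) else 0) = a := by
  revert a
  decide

end QRY_

open QRY_

theorem p_QRY : T_QRY := by
  intro n K d l G hG
  choose ow A B out h using hG
  refine ⟨fun s => if s.length < K then true else if s.length < 2 * K then false else
      ow (dec K s) (s.drop (2 * K)),
    fun s x => if h : s.length < K then decide (l ⟨s.length, h⟩ x = 1) else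
      A (dec K s) (s.drop (2 * K)) x,
    fun s y => if h : s.length < 2 * K ∧ K ≤ s.length then
      decide (l ⟨s.length - K, by omega⟩ y = 1) else B (dec K s) (s.drop (2 * K)) y,
    fun t => out (dec K t) (t.drop (2 * K)), ?_⟩
  intro x y t ht hcon
  have hlen : ∀ i, i < 2 * K + d → (t.take i).length = i := by
    intro i hi
    rw [List.length_take]
    omega
  have h1 : ∀ i : Fin K, t[i.1]? = some (decide (l i x = 1)) := by
    intro i
    have hi := i.2
    have hl := hlen i.1 (by omega)
    rw [hcon i.1 (by omega)]
    simp only [hl, hi, if_true, dif_pos, Fin.eta]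
  have h2 : ∀ i : Fin K, t[K + i.1]? = some (decide (l i y = 1)) := by
    intro i
    have hi := i.2
    have hl := hlen (K + i.1) (by omega)
    have e1 : ¬ (K + i.1 < K) := by omega
    have e2 : K + i.1 < 2 * K := by omega
    have e3 : K ≤ K + i.1 := by omega
    have e4 : K + i.1 - K = i.1 := by omega
    rw [hcon (K + i.1) (by omega)]
    simp [hl, e2, e4]
  have hdec : dec K t = fun i => l i (x + y) := by
    funext i
    unfold dec
    rw [h1 i, h2 i, bit, bit, map_add]
  have h3 := h (dec K t) x y (t.drop (2 * K)) (by rw [List.length_drop]; omega) (by
    intro i hi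
    have hl := hlen (2 * K + i) (by omega)
    have e1 : ¬ (2 * K + i < K) := by omega
    have e2 : ¬ (2 * K + i < 2 * K) := by omega
    have e3 : (t.take (2 * K + i)).drop (2 * K) = (t.drop (2 * K)).take i := by
      rw [List.drop_take]
      congr 1
      omega
    rw [List.getElem?_drop, hcon (2 * K + i) (by omega)]
    simp only [hl, e1, e2, e3, if_false, dec_take K (2 * K + i) t (by omega), false_and,
      dif_neg, not_false_eq_true])
  show out (dec K t) (t.drop (2 * K)) = G (fun i => l i (x + y)) (x + y)
  rw [h3, hdec]

end Pool.Agent.LRC
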