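import Pool.Agent.LRC.Targets

set_option autoImplicit false

/-!
# LRC: T_QUAD, quadratic phases with a large Fourier coefficient
-/

open scoped Classical

noncomputable section

namespace Pool.Agent.LRC

namespace QUAD_

lemma z2_cases (a : ZMod 2) : a = 0 ∨ a = 1 := by revert a; decide

lemma sg_zero : sg 0 = 1 := by simp [sg]

lemma sg_one : sg 1 = -1 := by
  unfold sg
  rw [if_neg (by decide)]

lemma sg_add (a b : ZMod 2) : sg (a + b) = sg a * sg b := by
  rcases z2_cases a with rfl | rfl <;> rcases z2_cases b with rfl | rfl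
  · simp [sg_zero]
  · simp [sg_zero]
  · simp [sg_zero]
  · have : (1 : ZMod 2) + 1 = 0 := by decide
    rw [this, sg_zero, sg_one]
    norm_num

lemma sg_sq (a : ZMod 2) : sg a * sg a = 1 := by
  rcases z2_cases a with rfl | rfl
  · rw [sg_zero]; norm_num
  · rw [sg_one]; norm_num

lemma sg_abs (a : ZMod 2) : |sg a| = 1 := by
  rcases z2_cases a with rfl | rfl
  · rw [sg_zero]; norm_num
  · rw [sg_one]; norm_num

lemma dbl (a : ZMod 2) : a + a = 0 := by revert a; decide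

lemma eq_of_add (a b : ZMod 2) (h : a + b = 0) : a = b := by
  revert a b; decide

variable {E : Type} [AddCommGroup E] [Module (ZMod 2) E]

lemma Dv_add (Q : E → ZMod 2) (a a' x : E) :
    Dv (a + a') Q x = Dv a Q (x + a') + Dv a' Q x := by
  unfold Dv
  have h1 : x + (a + a') = x + a' + a := by abel
  rw [h1]
  have h2 := dbl (Q (x + a'))
  calc Q (x + a' + a) + Q x = Q (x + a' + a) + 0 + Q x := by rw [add_zero]
    _ = Q (x + a' + a) + (Q (x + a') + Q (x + a')) + Q x := by rw [h2]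
    _ = _ := by ring

/-- the subspace of directions with vanishing second derivatives -/
def HH (Q : E → ZMod 2) : Submodule (ZMod 2) E where
  carrier := {a | ∀ b x : E, Dv b (Dv a Q) x = 0}
  zero_mem' := by
    intro b x
    unfold Dv
    simp only [add_zero, dbl]
  add_mem' := by
    intro a a' ha ha' b x
    show Dv (a + a') Q (x + b) + Dv (a + a') Q x = 0
    rw [Dv_add, Dv_add]
    have e1 : Dv a Q (x + a' + b) + Dv a Q (x + a') = 0 := ha b (x + a')
    have e2 : Dv a' Q (x + b) + Dv a' Q x = 0 := ha' b x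
    have e3 : x + b + a' = x + a' + b := by abel
    rw [e3]
    calc Dv a Q (x + a' + b) + Dv a' Q (x + b) + (Dv a Q (x + a') + Dv a' Q x)
        = (Dv a Q (x + a' + b) + Dv a Q (x + a')) + (Dv a' Q (x + b) + Dv a' Q x) := by ring
      _ = 0 := by rw [e1, e2, add_zero]
  smul_mem' := by
    intro c a ha
    rcases z2_cases c with rfl | rfl
    · rw [zero_smul]
      intro b x
      unfold Dv
      simp only [add_zero, dbl]
    · rw [one_smul]
      exact ha

lemma mem_HH (Q : E → ZMod 2) (a : E) : a ∈ HH Q ↔ ∀ b x : E, Dv b (Dv a Q) x = 0 := Iff.rfl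

lemma sum_zero [Fintype E] (Q : E → ZMod 2) (hQ : Deg2 Q) (a : E) (ha : a ∉ HH Q) :
    ∑ x : E, sg (Dv a Q x) = 0 := by
  rw [mem_HH] at ha
  push Not at ha
  obtain ⟨b, x0, hb⟩ := ha
  have h1 : Dv b (Dv a Q) x0 = 1 := by
    rcases z2_cases (Dv b (Dv a Q) x0) with h | h
    · exact absurd h hb
    · exact h
  have h2 : ∀ x, Dv a Q (x + b) = Dv a Q x + 1 := by
    intro x
    have h3 : Dv b (Dv a Q) (x0 + (x - x0)) + Dv b (Dv a Q) x0 = 0 := hQ (x - x0) b a x0
    have h4 : x0 + (x - x0) = x := by abel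
    rw [h4] at h3
    have h5 := eq_of_add _ _ h3
    rw [h1] at h5
    have h6 : Dv a Q (x + b) + Dv a Q x = 1 := h5
    calc Dv a Q (x + b) = Dv a Q (x + b) + 0 := by rw [add_zero]
      _ = Dv a Q (x + b) + (Dv a Q x + Dv a Q x) := by rw [dbl]
      _ = (Dv a Q (x + b) + Dv a Q x) + Dv a Q x := by ring
      _ = Dv a Q x + 1 := by rw [h6]; ring
  have h7 : ∑ x : E, sg (Dv a Q (x + b)) = ∑ x : E, sg (Dv a Q x) :=
    Fintype.sum_equiv (Equiv.addRight b) _ _ fun x => rfl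
  have h8 : ∑ x : E, sg (Dv a Q (x + b)) = -∑ x : E, sg (Dv a Q x) := by
    rw [← Finset.sum_neg_distrib]
    refine Finset.sum_congr rfl fun x _ => ?_
    rw [h2 x, sg_add, sg_one]
    ring
  linarith

lemma square [Fintype E] (Q : E → ZMod 2) (l : Module.Dual (ZMod 2) E) :
    (∑ x : E, sg (Q x) * sg (l x)) ^ 2 = ∑ a : E, sg (l a) * ∑ x : E, sg (Dv a Q x) := by
  have h1 : (∑ x : E, sg (Q x) * sg (l x)) ^ 2 =
      ∑ x : E, ∑ a : E, sg (l a) * sg (Dv a Q x) := by
    rw [sq, Finset.sum_mul]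
    refine Finset.sum_congr rfl fun x _ => ?_
    rw [Finset.mul_sum]
    rw [← Fintype.sum_equiv (Equiv.addLeft x)
      (fun a => sg (Q x) * sg (l x) * (sg (Q (x + a)) * sg (l (x + a)))) _ fun a => rfl]
    refine Finset.sum_congr rfl fun a _ => ?_
    have e : Dv a Q x = Q (x + a) + Q x := rfl
    rw [map_add, sg_add, e, sg_add]
    have e2 := sg_sq (l x)
    calc sg (Q x) * sg (l x) * (sg (Q (x + a)) * (sg (l x) * sg (l a)))
        = (sg (l x) * sg (l x)) * (sg (l a) * (sg (Q (x + a)) * sg (Q x))) := by ring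
      _ = _ := by rw [e2, one_mul]
  rw [h1, Finset.sum_comm]
  refine Finset.sum_congr rfl fun a _ => ?_
  rw [Finset.mul_sum]

lemma bound [Fintype E] (Q : E → ZMod 2) (l : Module.Dual (ZMod 2) E) (hQ : Deg2 Q) :
    (∑ x : E, sg (Q x) * sg (l x)) ^ 2 ≤ (Nat.card (HH Q) : ℝ) * (Nat.card E : ℝ) := by
  rw [square]
  have hpt : ∀ a : E, sg (l a) * ∑ x : E, sg (Dv a Q x) ≤
      if a ∈ HH Q then (Nat.card E : ℝ) else 0 := by
    intro a
    by_cases ha : a ∈ HH Q
    · rw [if_pos ha]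
      have h1 : |sg (l a) * ∑ x : E, sg (Dv a Q x)| ≤ (Nat.card E : ℝ) := by
        rw [abs_mul, sg_abs, one_mul]
        calc |∑ x : E, sg (Dv a Q x)| ≤ ∑ x : E, |sg (Dv a Q x)| :=
              Finset.abs_sum_le_sum_abs _ _
          _ = ∑ x : E, (1 : ℝ) := Finset.sum_congr rfl fun x _ => sg_abs _
          _ = (Nat.card E : ℝ) := by simp [Nat.card_eq_fintype_card]
      exact (le_abs_self _).trans h1
    · rw [if_neg ha, sum_zero Q hQ a ha, mul_zero]
  refine (Finset.sum_le_sum fun a _ => hpt a).trans (le_of_eq ?_)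
  rw [← Finset.sum_filter, Finset.sum_const, nsmul_eq_mul]
  congr 2
  rw [Nat.card_eq_fintype_card, Fintype.card_subtype]

end QUAD_

open QUAD_

theorem p_QUAD : T_QUAD := by
  intro E _ _ _ Q l k hQ hc
  have : Fintype E := Fintype.ofFinite E
  refine ⟨HH Q, ?_, fun a ha b x => ha b x⟩
  have hE : (0 : ℝ) < (Nat.card E : ℝ) := by
    have : 0 < Nat.card E := Nat.card_pos
    exact_mod_cast this
  have hfco : fco (fun x => sg (Q x)) l = (∑ x : E, sg (Q x) * sg (l x)) / (Nat.card E : ℝ) := by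
    unfold fco
    rw [finsum_eq_sum_of_fintype]
  set S : ℝ := ∑ x : E, sg (Q x) * sg (l x) with hS
  have hb : S ^ 2 ≤ (Nat.card (HH Q) : ℝ) * (Nat.card E : ℝ) := bound Q l hQ
  rw [hfco] at hc
  have h1 : ((1 / 2 : ℝ) ^ k) ^ 2 ≤ (S / (Nat.card E : ℝ)) ^ 2 := by
    rw [← sq_abs (S / (Nat.card E : ℝ))]
    exact pow_le_pow_left₀ (by positivity) hc 2
  have h2 : (Nat.card E : ℝ) ≤ 2 ^ (2 * k) * (Nat.card (HH Q) : ℝ) := by
    have h3 : ((1 / 2 : ℝ) ^ k) ^ 2 * (Nat.card E : ℝ) ^ 2 ≤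
        (Nat.card (HH Q) : ℝ) * (Nat.card E : ℝ) := by
      calc ((1 / 2 : ℝ) ^ k) ^ 2 * (Nat.card E : ℝ) ^ 2
          ≤ (S / (Nat.card E : ℝ)) ^ 2 * (Nat.card E : ℝ) ^ 2 :=
            mul_le_mul_of_nonneg_right h1 (by positivity)
        _ = S ^ 2 := by field_simp
        _ ≤ _ := hb
    have h4 : ((1 / 2 : ℝ) ^ k) ^ 2 * (Nat.card E : ℝ) ≤ (Nat.card (HH Q) : ℝ) := by
      have h5 : (((1 / 2 : ℝ) ^ k) ^ 2 * (Nat.card E : ℝ)) * (Nat.card E : ℝ) ≤
          (Nat.card (HH Q) : ℝ) * (Nat.card E : ℝ) := by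
        calc _ = ((1 / 2 : ℝ) ^ k) ^ 2 * (Nat.card E : ℝ) ^ 2 := by ring
          _ ≤ _ := h3
      exact le_of_mul_le_mul_right h5 hE
    have h6 : (2 : ℝ) ^ (2 * k) * (((1 / 2 : ℝ) ^ k) ^ 2 * (Nat.card E : ℝ)) =
        (Nat.card E : ℝ) := by
      have : (2 : ℝ) ^ (2 * k) * ((1 / 2 : ℝ) ^ k) ^ 2 = 1 := by
        rw [← pow_mul, mul_comm k 2, ← mul_pow]
        norm_num
      rw [← mul_assoc, this, one_mul]
    calc (Nat.card E : ℝ) = 2 ^ (2 * k) * (((1 / 2 : ℝ) ^ k) ^ 2 * (Nat.card E : ℝ)) := h6.symm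
      _ ≤ _ := mul_le_mul_of_nonneg_left h4 (by positivity)
  have h7 : Nat.card E ≤ 2 ^ (2 * k) * Nat.card (HH Q) := by exact_mod_cast h2
  have h8 : Nat.card E = 2 ^ Module.finrank (ZMod 2) E := by
    rw [Module.natCard_eq_pow_finrank (K := ZMod 2) (V := E)]
    simp
  have h9 : Nat.card (HH Q) = 2 ^ Module.finrank (ZMod 2) (HH Q) := by
    rw [Module.natCard_eq_pow_finrank (K := ZMod 2) (V := HH Q)]
    simp
  rw [h8, h9, ← pow_add] at h7
  exact (Nat.pow_le_pow_iff_right (by norm_num)).1 h7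

end Pool.Agent.LRC
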