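import Pool.Agent.LRC.Targets

set_option autoImplicit false
set_option linter.unusedSectionVars false

/-!
# MP_9f5962_lc, project LRC: regularisation of `t` cubics
-/

open scoped Classical

noncomputable section

namespace Pool.Agent.LRC

namespace REG_

section basic

variable {E : Type} [AddCommGroup E] [Module (ZMod 2) E]

theorem comb_add {t : ℕ} (P : Fin t → E → ZMod 2) (c c' : Fin t → ZMod 2) (x : E) :
    comb P (c + c') x = comb P c x + comb P c' x := by
  unfold comb
  rw [← Finset.sum_add_distrib]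
  exact Finset.sum_congr rfl fun i _ => by rw [Pi.add_apply, add_mul]

theorem comb_smul {t : ℕ} (P : Fin t → E → ZMod 2) (a : ZMod 2) (c : Fin t → ZMod 2) (x : E) :
    comb P (a • c) x = a * comb P c x := by
  unfold comb
  rw [Finset.mul_sum]
  exact Finset.sum_congr rfl fun i _ => by rw [Pi.smul_apply, smul_eq_mul, mul_assoc]

theorem comb_zero {t : ℕ} (P : Fin t → E → ZMod 2) (x : E) :
    comb P 0 x = 0 := by
  unfold comb
  exact Finset.sum_eq_zero fun i _ => by rw [Pi.zero_apply, zero_mul]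

theorem Dv_add (h : E) (P Q : E → ZMod 2) :
    Dv h (fun x => P x + Q x) = fun x => Dv h P x + Dv h Q x := by
  funext x
  unfold Dv
  ring

theorem Dv_mul (h : E) (a : ZMod 2) (P : E → ZMod 2) :
    Dv h (fun x => a * P x) = fun x => a * Dv h P x := by
  funext x
  unfold Dv
  ring

theorem Dv_zero (h : E) : Dv h (fun _ : E => (0 : ZMod 2)) = fun _ => 0 := by
  funext x
  unfold Dv
  ring

/-- Combinations that are constant. -/
def L0 {t : ℕ} (P : Fin t → E → ZMod 2) : Submodule (ZMod 2) (Fin t → ZMod 2) where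
  carrier := {c | ∀ x, comb P c x = comb P c 0}
  add_mem' := by
    intro a b ha hb x
    rw [comb_add, comb_add, ha x, hb x]
  zero_mem' := by
    intro x
    rw [comb_zero, comb_zero]
  smul_mem' := by
    intro a c hc x
    rw [comb_smul, comb_smul, hc x]

/-- Combinations of degree at most two. -/
def L2 {t : ℕ} (P : Fin t → E → ZMod 2) : Submodule (ZMod 2) (Fin t → ZMod 2) where
  carrier := {c | Deg2 (comb P c)}
  add_mem' := by
    intro a b ha hb u v w x
    have e : comb P (a + b) = fun x => comb P a x + comb P b x := funext fun x => comb_add P a b x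
    rw [e, Dv_add, Dv_add, Dv_add]
    have h1 : Dv u (Dv v (Dv w (comb P a))) x = 0 := ha u v w x
    have h2 : Dv u (Dv v (Dv w (comb P b))) x = 0 := hb u v w x
    show Dv u (Dv v (Dv w (comb P a))) x + Dv u (Dv v (Dv w (comb P b))) x = 0
    rw [h1, h2, add_zero]
  zero_mem' := by
    intro u v w x
    have e : comb P 0 = fun _ => 0 := funext fun x => comb_zero P x
    rw [e, Dv_zero, Dv_zero, Dv_zero]
  smul_mem' := by
    intro a c hc u v w x
    have e : comb P (a • c) = fun x => a * comb P c x := funext fun x => comb_smul P a c x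
    rw [e, Dv_mul, Dv_mul, Dv_mul]
    have h1 : Dv u (Dv v (Dv w (comb P c))) x = 0 := hc u v w x
    show a * Dv u (Dv v (Dv w (comb P c))) x = 0
    rw [h1, mul_zero]

theorem mem_L0 {t : ℕ} (P : Fin t → E → ZMod 2) (c : Fin t → ZMod 2) :
    c ∈ L0 P ↔ ∀ x, comb P c x = comb P c 0 := Iff.rfl

theorem mem_L2 {t : ℕ} (P : Fin t → E → ZMod 2) (c : Fin t → ZMod 2) :
    c ∈ L2 P ↔ Deg2 (comb P c) := Iff.rfl

/-- Restriction to a coset. -/
def rst (W : Submodule (ZMod 2) E) (x₀ : E) (P : E → ZMod 2) (w : W) : ZMod 2 := P (x₀ + (w : E))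

theorem Dv_rst (W : Submodule (ZMod 2) E) (x₀ : E) (P : E → ZMod 2) (h : W) :
    Dv h (rst W x₀ P) = rst W x₀ (Dv (h : E) P) := by
  funext w
  show P (x₀ + ((w + h : W) : E)) + P (x₀ + (w : E)) = P (x₀ + (w : E) + (h : E)) + P (x₀ + (w : E))
  rw [Submodule.coe_add, add_assoc]

theorem Deg3_rst (W : Submodule (ZMod 2) E) (x₀ : E) (P : E → ZMod 2) (h : Deg3 P) :
    Deg3 (rst W x₀ P) := by
  intro a b c d x
  rw [Dv_rst, Dv_rst, Dv_rst, Dv_rst]
  exact h _ _ _ _ _

theorem Deg2_rst (W : Submodule (ZMod 2) E) (x₀ : E) (P : E → ZMod 2) (h : Deg2 P) :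
    Deg2 (rst W x₀ P) := by
  intro a b c x
  rw [Dv_rst, Dv_rst, Dv_rst]
  exact h _ _ _ _

theorem comb_rst {t : ℕ} (W : Submodule (ZMod 2) E) (x₀ : E) (P : Fin t → E → ZMod 2)
    (c : Fin t → ZMod 2) :
    comb (fun i => rst W x₀ (P i)) c = rst W x₀ (comb P c) := rfl

theorem L0_le {t : ℕ} (W : Submodule (ZMod 2) E) (x₀ : E) (P : Fin t → E → ZMod 2) :
    L0 P ≤ L0 (fun i => rst W x₀ (P i)) := by
  intro c hc x
  rw [comb_rst]
  unfold rst
  rw [hc, hc (x₀ + ((0 : W) : E))]

theorem L2_le {t : ℕ} (W : Submodule (ZMod 2) E) (x₀ : E) (P : Fin t → E → ZMod 2) :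
    L2 P ≤ L2 (fun i => rst W x₀ (P i)) := by
  intro c hc
  rw [mem_L2, comb_rst]
  exact Deg2_rst W x₀ _ hc

theorem ncard_sub (W : Submodule (ZMod 2) E) (S : Set E) :
    Set.ncard {w : W | (w : E) ∈ S} = Set.ncard {v : E | v ∈ W ∧ v ∈ S} := by
  rw [← Set.ncard_image_of_injective {w : W | (w : E) ∈ S} Subtype.val_injective]
  congr 1
  ext v
  constructor
  · rintro ⟨w, hw, rfl⟩
    exact ⟨w.2, hw⟩
  · rintro ⟨h1, h2⟩
    exact ⟨⟨v, h1⟩, h2, rfl⟩

theorem ncard_map (W : Submodule (ZMod 2) E) (W' : Submodule (ZMod 2) W) (S : Set E) :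
    Set.ncard {w : W | w ∈ W' ∧ (w : E) ∈ S} =
      Set.ncard {v : E | v ∈ W'.map W.subtype ∧ v ∈ S} := by
  rw [← Set.ncard_image_of_injective {w : W | w ∈ W' ∧ (w : E) ∈ S} Subtype.val_injective]
  congr 1
  ext v
  constructor
  · rintro ⟨w, hw, rfl⟩
    exact ⟨⟨w, hw.1, rfl⟩, hw.2⟩
  · rintro ⟨⟨w, h1, rfl⟩, h2⟩
    exact ⟨w, ⟨h1, h2⟩, rfl⟩

end basic

theorem fco_equiv {E E' : Type} [AddCommGroup E] [Module (ZMod 2) E] [AddCommGroup E']
    [Module (ZMod 2) E'] (e : E' ≃ₗ[ZMod 2] E) (F : E → ℝ) (l : Module.Dual (ZMod 2) E) :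
    fco (fun x => F (e x)) (l ∘ₗ (e : E' →ₗ[ZMod 2] E)) = fco F l := by
  unfold fco
  rw [Nat.card_congr e.toEquiv]
  congr 1
  exact finsum_comp_equiv (f := fun x => F x * sg (l x)) e.toEquiv

theorem main (h_REGS : T_REGS) (t k M : ℕ) : ∀ (j : ℕ) (E : Type) [AddCommGroup E]
    [Module (ZMod 2) E] [Finite E] (P : Fin t → E → ZMod 2) (B : Set E), (∀ i, Deg3 (P i)) →
    (zer P).Nonempty → M * Set.ncard {x | x ∈ zer P ∧ x ∈ B} ≤ Set.ncard (zer P) →
    (t - Module.finrank (ZMod 2) (L0 P)) + (t - Module.finrank (ZMod 2) (L2 P)) ≤ j →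
    ∃ (x₀ : E) (W : Submodule (ZMod 2) E),
      Module.finrank (ZMod 2) E ≤ (t - Module.finrank (ZMod 2) (L0 P)) * (2 * k + 1) +
        (t - Module.finrank (ZMod 2) (L2 P)) * (28 * k + 13) + Module.finrank (ZMod 2) W ∧
      (∃ v ∈ W, x₀ + v ∈ zer P) ∧
      M * Set.ncard {v | v ∈ W ∧ x₀ + v ∈ zer P ∧ x₀ + v ∈ B} ≤
        Set.ncard {v | v ∈ W ∧ x₀ + v ∈ zer P} ∧
      ∀ c : Fin t → ZMod 2, (∀ w ∈ W, comb P c (x₀ + w) = comb P c x₀) ∨
        ∀ l : Module.Dual (ZMod 2) W,
          |fco (fun w : W => sg (comb P c (x₀ + (w : E)))) l| ≤ (1 / 2 : ℝ) ^ k := by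
  intro j
  induction j using Nat.strong_induction_on with
  | _ j ih =>
  intro E _ _ _ P B hP hne hM hj
  by_cases hall : ∀ c : Fin t → ZMod 2, (∀ x, comb P c x = comb P c 0) ∨
      ∀ l : Module.Dual (ZMod 2) E, |fco (fun x => sg (comb P c x)) l| ≤ (1 / 2 : ℝ) ^ k
  · -- nothing to do
    refine ⟨0, ⊤, ?_, ?_, ?_, ?_⟩
    · rw [finrank_top]
      exact Nat.le_add_left _ _
    · obtain ⟨v, hv⟩ := hne
      exact ⟨v, Submodule.mem_top, by rwa [zero_add]⟩
    · have e1 : {v : E | v ∈ (⊤ : Submodule (ZMod 2) E) ∧ 0 + v ∈ zer P ∧ 0 + v ∈ B} =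
          {x | x ∈ zer P ∧ x ∈ B} := by
        ext v
        simp [zero_add]
      have e2 : {v : E | v ∈ (⊤ : Submodule (ZMod 2) E) ∧ 0 + v ∈ zer P} = zer P := by
        ext v
        simp [zero_add]
      rw [e1, e2]
      exact hM
    · intro c
      rcases hall c with h | h
      · left
        intro w _
        rw [h, h 0]
      · right
        intro l
        have e : fco (fun w : (⊤ : Submodule (ZMod 2) E) => sg (comb P c (0 + (w : E)))) l =
            fco (fun x => sg (comb P c x))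
              (l ∘ₗ ((Submodule.topEquiv (R := ZMod 2) (M := E)).symm :
                E →ₗ[ZMod 2] (⊤ : Submodule (ZMod 2) E))) := by
          rw [← fco_equiv (Submodule.topEquiv (R := ZMod 2) (M := E))
            (fun x => sg (comb P c x))]
          congr 1
          funext w
          rw [zero_add]
          rfl
        rw [e]
        exact h _
  · push Not at hall
    obtain ⟨c, hc, l, hl⟩ := hall
    obtain ⟨x₀, W, hne', hM', hcase⟩ := h_REGS E t k M P B c l hP hne hM hl
    set P' : Fin t → W → ZMod 2 := fun i => rst W x₀ (P i) with hP'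
    set B' : Set W := {w | x₀ + (w : E) ∈ B} with hB'
    have hdeg : ∀ i, Deg3 (P' i) := fun i => Deg3_rst W x₀ (P i) (hP i)
    have hzer : ∀ w : W, w ∈ zer P' ↔ x₀ + (w : E) ∈ zer P := fun w => Iff.rfl
    have hneW : (zer P').Nonempty := by
      obtain ⟨v, hv, hz⟩ := hne'
      exact ⟨⟨v, hv⟩, hz⟩
    have hMW : M * Set.ncard {x | x ∈ zer P' ∧ x ∈ B'} ≤ Set.ncard (zer P') := by
      have e1 := ncard_sub W {v : E | x₀ + v ∈ zer P ∧ x₀ + v ∈ B}
      have e2 := ncard_sub W {v : E | x₀ + v ∈ zer P}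
      calc M * Set.ncard {x | x ∈ zer P' ∧ x ∈ B'}
          = M * Set.ncard {v | v ∈ W ∧ x₀ + v ∈ zer P ∧ x₀ + v ∈ B} := congrArg (fun m => M * m) e1
        _ ≤ Set.ncard {v | v ∈ W ∧ x₀ + v ∈ zer P} := hM'
        _ = Set.ncard (zer P') := e2.symm
    have hle0 : L0 P ≤ L0 P' := L0_le W x₀ P
    have hle2 : L2 P ≤ L2 P' := L2_le W x₀ P
    have hfr0 := Submodule.finrank_mono hle0
    have hfr2 := Submodule.finrank_mono hle2
    have hb0 : Module.finrank (ZMod 2) (L0 P') ≤ t := by
      have := Submodule.finrank_le (L0 P')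
      rwa [Module.finrank_fin_fun] at this
    have hb2 : Module.finrank (ZMod 2) (L2 P') ≤ t := by
      have := Submodule.finrank_le (L2 P')
      rwa [Module.finrank_fin_fun] at this
    -- the decrease of the measure and the cost
    have hcost : (t - Module.finrank (ZMod 2) (L0 P')) + (t - Module.finrank (ZMod 2) (L2 P')) <
        (t - Module.finrank (ZMod 2) (L0 P)) + (t - Module.finrank (ZMod 2) (L2 P)) ∧
        Module.finrank (ZMod 2) E +
          ((t - Module.finrank (ZMod 2) (L0 P')) * (2 * k + 1) +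
            (t - Module.finrank (ZMod 2) (L2 P')) * (28 * k + 13)) ≤
          (t - Module.finrank (ZMod 2) (L0 P)) * (2 * k + 1) +
            (t - Module.finrank (ZMod 2) (L2 P)) * (28 * k + 13) +
              Module.finrank (ZMod 2) W := by
      rcases hcase with ⟨_, hfin, hconst⟩ | ⟨hn2, hfin, hd2⟩
      · have hmem : c ∈ L0 P' := by
          intro w
          show comb P c (x₀ + (w : E)) = comb P c (x₀ + ((0 : W) : E))
          rw [hconst w w.2, hconst _ (0 : W).2]
        have hnm : c ∉ L0 P := by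
          intro h
          obtain ⟨x, hx⟩ := hc
          exact hx (h x)
        have hlt : L0 P < L0 P' := lt_of_le_of_ne hle0 fun h => hnm (h ▸ hmem)
        have hflt := Submodule.finrank_lt_finrank_of_lt hlt
        have h1 : (t - Module.finrank (ZMod 2) (L0 P')) + 1 ≤
            t - Module.finrank (ZMod 2) (L0 P) := by omega
        have h2 : (t - Module.finrank (ZMod 2) (L2 P')) ≤
            t - Module.finrank (ZMod 2) (L2 P) := by omega
        have h3 := Nat.mul_le_mul_right (2 * k + 1) h1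
        have h4 := Nat.mul_le_mul_right (28 * k + 13) h2
        rw [add_mul, one_mul] at h3
        exact ⟨by omega, by omega⟩
      · have hmem : c ∈ L2 P' := hd2
        have hnm : c ∉ L2 P := hn2
        have hlt : L2 P < L2 P' := lt_of_le_of_ne hle2 fun h => hnm (h ▸ hmem)
        have hflt := Submodule.finrank_lt_finrank_of_lt hlt
        have h1 : (t - Module.finrank (ZMod 2) (L2 P')) + 1 ≤
            t - Module.finrank (ZMod 2) (L2 P) := by omega
        have h2 : (t - Module.finrank (ZMod 2) (L0 P')) ≤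
            t - Module.finrank (ZMod 2) (L0 P) := by omega
        have h3 := Nat.mul_le_mul_right (28 * k + 13) h1
        have h4 := Nat.mul_le_mul_right (2 * k + 1) h2
        rw [add_mul, one_mul] at h3
        exact ⟨by omega, by omega⟩
    obtain ⟨x₁, W', hfin', hex', hM'', hreg⟩ := ih _ (lt_of_lt_of_le hcost.1 hj) W P' B' hdeg
      hneW hMW le_rfl
    refine ⟨x₀ + (x₁ : E), W'.map W.subtype, ?_, ?_, ?_, ?_⟩
    · rw [Submodule.finrank_map_subtype_eq]
      have := hcost.2
      omega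
    · obtain ⟨v, hv, hz⟩ := hex'
      refine ⟨(v : E), ⟨v, hv, rfl⟩, ?_⟩
      have : x₀ + ((x₁ + v : W) : E) ∈ zer P := hz
      rwa [Submodule.coe_add, ← add_assoc] at this
    · have e1 := ncard_map W W' {v : E | x₀ + (x₁ : E) + v ∈ zer P ∧ x₀ + (x₁ : E) + v ∈ B}
      have e2 := ncard_map W W' {v : E | x₀ + (x₁ : E) + v ∈ zer P}
      have f1 : {v : W | v ∈ W' ∧ x₁ + v ∈ zer P' ∧ x₁ + v ∈ B'} =
          {w : W | w ∈ W' ∧ (w : E) ∈
            {v : E | x₀ + (x₁ : E) + v ∈ zer P ∧ x₀ + (x₁ : E) + v ∈ B}} := by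
        ext v
        show (v ∈ W' ∧ x₀ + ((x₁ + v : W) : E) ∈ zer P ∧ x₀ + ((x₁ + v : W) : E) ∈ B) ↔
          (v ∈ W' ∧ x₀ + (x₁ : E) + (v : E) ∈ zer P ∧ x₀ + (x₁ : E) + (v : E) ∈ B)
        rw [Submodule.coe_add, ← add_assoc]
      have f2 : {v : W | v ∈ W' ∧ x₁ + v ∈ zer P'} =
          {w : W | w ∈ W' ∧ (w : E) ∈ {v : E | x₀ + (x₁ : E) + v ∈ zer P}} := by
        ext v
        show (v ∈ W' ∧ x₀ + ((x₁ + v : W) : E) ∈ zer P) ↔
          (v ∈ W' ∧ x₀ + (x₁ : E) + (v : E) ∈ zer P)
        rw [Submodule.coe_add, ← add_assoc]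
      rw [f1, f2, e1, e2] at hM''
      exact hM''
    · intro c'
      rcases hreg c' with h | h
      · left
        rintro w ⟨w', hw', rfl⟩
        have := h w' hw'
        have e : comb P c' (x₀ + ((x₁ + w' : W) : E)) = comb P c' (x₀ + (x₁ : E)) := this
        rw [Submodule.coe_add, ← add_assoc] at e
        exact e
      · right
        intro l'
        have hinj : Function.Injective W.subtype := Subtype.val_injective
        have e := fco_equiv (Submodule.equivMapOfInjective W.subtype hinj W')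
          (fun w : W'.map W.subtype => sg (comb P c' (x₀ + (x₁ : E) + (w : E)))) l'
        rw [← e]
        have e2 : (fun x : W' => sg (comb P c' (x₀ + (x₁ : E) +
            ((Submodule.equivMapOfInjective W.subtype hinj W' x : W'.map W.subtype) : E)))) =
            fun w : W' => sg (comb P' c' (x₁ + (w : W))) := by
          funext w
          show sg (comb P c' (x₀ + (x₁ : E) + ((w : W) : E))) =
            sg (comb P c' (x₀ + ((x₁ + (w : W) : W) : E)))
          rw [Submodule.coe_add, ← add_assoc]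
        rw [e2]
        exact h _

end REG_

open REG_ in
theorem p_REG (h_REGS : T_REGS) : T_REG := by
  intro E _ _ _ t k M P B hP hne hM
  obtain ⟨x₀, W, hfin, h1, h2, h3⟩ := main h_REGS t k M _ E P B hP hne hM le_rfl
  refine ⟨x₀, W, ?_, h1, h2, h3⟩
  have h4 := Nat.mul_le_mul_right (2 * k + 1) (Nat.sub_le t (Module.finrank (ZMod 2) (L0 P)))
  have h5 := Nat.mul_le_mul_right (28 * k + 13) (Nat.sub_le t (Module.finrank (ZMod 2) (L2 P)))
  have e : t * (30 * k + 14) = t * (2 * k + 1) + t * (28 * k + 13) := by ring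
  omega

end Pool.Agent.LRC
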