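import Pool.Agent.LRC.Targets

set_option autoImplicit false

/-!
# MP_9f5962_lc: one step of the regularisation (T_REGS)
-/

open scoped Classical

noncomputable section

namespace Pool.Agent.LRC

namespace REGS_

set_option linter.unusedSectionVars false

variable {E : Type} [AddCommGroup E] [Module (ZMod 2) E]

theorem Dv_comb {t : ℕ} (h : E) (P : Fin t → E → ZMod 2) (c : Fin t → ZMod 2) :
    Dv h (comb P c) = comb (fun i => Dv h (P i)) c := by
  funext x
  unfold Dv comb
  rw [← Finset.sum_add_distrib]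
  refine Finset.sum_congr rfl fun i _ => ?_
  ring

theorem Deg3_comb {t : ℕ} (P : Fin t → E → ZMod 2) (c : Fin t → ZMod 2) (h : ∀ i, Deg3 (P i)) :
    Deg3 (comb P c) := by
  intro a b c' d x
  rw [Dv_comb, Dv_comb, Dv_comb, Dv_comb]
  unfold comb
  refine Finset.sum_eq_zero fun i _ => ?_
  show c i * Dv a (Dv b (Dv c' (Dv d (P i)))) x = 0
  rw [h i a b c' d x, mul_zero]

theorem comb_zer {t : ℕ} (P : Fin t → E → ZMod 2) (c : Fin t → ZMod 2) (x : E) (hx : x ∈ zer P) :
    comb P c x = 0 := by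
  unfold comb
  refine Finset.sum_eq_zero fun i _ => ?_
  rw [hx i, mul_zero]

theorem Dv_coset (W : Submodule (ZMod 2) E) (G : E → ZMod 2) (x₀ : E) (a : W) :
    Dv a (fun w : W => G (x₀ + (w : E))) = fun w : W => Dv (a : E) G (x₀ + (w : E)) := by
  funext w
  show G (x₀ + ((w + a : W) : E)) + G (x₀ + (w : E)) = G (x₀ + (w : E) + (a : E)) + G (x₀ + (w : E))
  rw [Submodule.coe_add, add_assoc]

theorem add_self (u : ZMod 2) : u + u = 0 := by
  revert u
  decide

/-- translating the base point of a coset -/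
theorem ncard_shift (W : Submodule (ZMod 2) E) (p : E → Prop) (x' v₁ : E) (hv : v₁ ∈ W) :
    Set.ncard {v | v ∈ W ∧ p (x' + v₁ + v)} = Set.ncard {v | v ∈ W ∧ p (x' + v)} := by
  have h : {v | v ∈ W ∧ p (x' + v)} = (fun v => v₁ + v) '' {v | v ∈ W ∧ p (x' + v₁ + v)} := by
    ext v
    constructor
    · rintro ⟨h1, h2⟩
      refine ⟨v - v₁, ⟨W.sub_mem h1 hv, ?_⟩, by simp⟩
      have e : x' + v₁ + (v - v₁) = x' + v := by abel
      rw [e]
      exact h2
    · rintro ⟨w, ⟨h1, h2⟩, rfl⟩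
      refine ⟨W.add_mem hv h1, ?_⟩
      show p (x' + (v₁ + w))
      rw [← add_assoc]
      exact h2
  rw [h, Set.ncard_image_of_injective _ (add_right_injective v₁)]

end REGS_

/-- T_REGS -/
theorem p_REGS : T_QUAD → T_CUB → T_AVG → T_REGS := by
  intro h_QUAD h_CUB h_AVG E _ _ _ t k M P B c l hdeg hne hM hf
  by_cases h2 : Deg2 (comb P c)
  · obtain ⟨W1, hW1, hW1'⟩ := h_QUAD E (comb P c) l k h2 hf.le
    obtain ⟨x', ⟨v1, hv1, hx1⟩, hM'⟩ := h_AVG E W1 (zer P) B M hne hM
    -- the affine function on `W1`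
    have hlam : ∀ w ∈ W1, ∀ w' ∈ W1, comb P c (x' + v1 + (w + w')) =
        comb P c (x' + v1 + w) + comb P c (x' + v1 + w') := by
      intro w hw w' hw'
      have h3 := hW1' w hw w' (x' + v1)
      unfold Dv at h3
      rw [REGS_.comb_zer P c _ hx1, add_zero] at h3
      have e : x' + v1 + w' + w = x' + v1 + (w + w') := by abel
      rw [e] at h3
      have h4 : ∀ a b d : ZMod 2, a + b + d = 0 → a = d + b := by decide
      exact h4 _ _ _ h3
    let lam : W1 →ₗ[ZMod 2] ZMod 2 :=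
      { toFun := fun w => comb P c (x' + v1 + (w : E))
        map_add' := fun w w' => hlam w w.2 w' w'.2
        map_smul' := by
          intro a w
          have ha : a = 0 ∨ a = 1 := by revert a; decide
          rcases ha with rfl | rfl
          · simp only [zero_smul, Submodule.coe_zero, add_zero, RingHom.id_apply, zero_mul, smul_eq_mul]
            exact REGS_.comb_zer P c _ hx1
          · simp }
    have hlamv : ∀ w : W1, lam w = comb P c (x' + v1 + (w : E)) := fun _ => rfl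
    set W : Submodule (ZMod 2) E := (LinearMap.ker lam).map W1.subtype with hW
    have hmem : ∀ w, w ∈ W ↔ w ∈ W1 ∧ comb P c (x' + v1 + w) = 0 := by
      intro w
      rw [hW, Submodule.mem_map]
      constructor
      · rintro ⟨y, hy, rfl⟩
        exact ⟨y.2, hy⟩
      · rintro ⟨h3, h4⟩
        exact ⟨⟨w, h3⟩, h4, rfl⟩
    have hfr : Module.finrank (ZMod 2) W1 ≤ 1 + Module.finrank (ZMod 2) W := by
      have h3 := LinearMap.finrank_range_add_finrank_ker lam
      have h4 : Module.finrank (ZMod 2) (LinearMap.range lam) ≤ 1 := by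
        refine (Submodule.finrank_le _).trans ?_
        rw [Module.finrank_self]
      have h5 : Module.finrank (ZMod 2) W = Module.finrank (ZMod 2) (LinearMap.ker lam) := by
        rw [hW]
        exact Submodule.finrank_map_subtype_eq W1 (LinearMap.ker lam)
      omega
    refine ⟨x' + v1, W, ⟨0, W.zero_mem, by rwa [add_zero]⟩, ?_, Or.inl ⟨h2, by omega, ?_⟩⟩
    · have e1 : {v | v ∈ W ∧ x' + v1 + v ∈ zer P ∧ x' + v1 + v ∈ B} =
          {v | v ∈ W1 ∧ x' + v1 + v ∈ zer P ∧ x' + v1 + v ∈ B} := by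
        ext v
        constructor
        · rintro ⟨h3, h4⟩
          exact ⟨((hmem v).1 h3).1, h4⟩
        · rintro ⟨h3, h4⟩
          exact ⟨(hmem v).2 ⟨h3, REGS_.comb_zer P c _ h4.1⟩, h4⟩
      have e2 : {v | v ∈ W ∧ x' + v1 + v ∈ zer P} = {v | v ∈ W1 ∧ x' + v1 + v ∈ zer P} := by
        ext v
        constructor
        · rintro ⟨h3, h4⟩
          exact ⟨((hmem v).1 h3).1, h4⟩
        · rintro ⟨h3, h4⟩
          exact ⟨(hmem v).2 ⟨h3, REGS_.comb_zer P c _ h4⟩, h4⟩
      rw [e1, e2, REGS_.ncard_shift W1 (fun z => z ∈ zer P ∧ z ∈ B) x' v1 hv1,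
        REGS_.ncard_shift W1 (fun z => z ∈ zer P) x' v1 hv1]
      exact hM'
    · intro w hw
      rw [((hmem w).1 hw).2, REGS_.comb_zer P c _ hx1]
  · obtain ⟨W, hW, hW'⟩ := h_CUB E (comb P c) l k (REGS_.Deg3_comb P c hdeg) hf.le
    obtain ⟨x₀, hx₀, hM'⟩ := h_AVG E W (zer P) B M hne hM
    refine ⟨x₀, W, hx₀, hM', Or.inr ⟨h2, hW, ?_⟩⟩
    intro a b d w
    rw [REGS_.Dv_coset W (comb P c) x₀ d, REGS_.Dv_coset W (Dv (d : E) (comb P c)) x₀ b,
      REGS_.Dv_coset W (Dv (b : E) (Dv (d : E) (comb P c))) x₀ a]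
    exact hW' a a.2 b b.2 d d.2 _

end Pool.Agent.LRC
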