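import Pool.Agent.LRC.Targets
import Pool.Agent.XLR.RANK

set_option autoImplicit false

/-!
# LRC-RNK: the sparsity is at most the rank
-/

open scoped Classical

noncomputable section

namespace Pool.Agent.LRC

namespace RNK_

/-- the vector of a functional -/
def vec {n : ℕ} (l : Module.Dual (ZMod 2) (Fin n → ZMod 2)) : Fin n → ZMod 2 := fun i => l (Pi.single i 1)

theorem apply_eq {n : ℕ} (l : Module.Dual (ZMod 2) (Fin n → ZMod 2)) (x : Fin n → ZMod 2) :
    l x = ∑ i, vec l i * x i := by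
  have h : x = ∑ i, x i • (Pi.single i (1 : ZMod 2) : Fin n → ZMod 2) := by
    funext j
    simp [Finset.sum_apply, Pi.single_apply]
  conv_lhs => rw [h]
  rw [map_sum]
  refine Finset.sum_congr rfl fun i _ => ?_
  rw [map_smul, smul_eq_mul, mul_comm]
  rfl

theorem vec_inj {n : ℕ} : Function.Injective (vec (n := n)) := by
  intro l l' h
  ext i
  exact congrFun h i

theorem fco_eq {n : ℕ} (f : (Fin n → ZMod 2) → Bool) (l : Module.Dual (ZMod 2) (Fin n → ZMod 2)) :
    fco (ind f) l = XLR.fh (XLR.ind f) (vec l) / (Nat.card (Fin n → ZMod 2) : ℝ) := by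
  unfold fco XLR.fh
  congr 1
  rw [finsum_eq_sum_of_fintype]
  refine Finset.sum_congr (Finset.ext fun x => by simp only [Finset.mem_univ]) fun x _ => ?_
  unfold ind XLR.ind XLR.chi sg
  rw [apply_eq]
  rfl

theorem rank_inst {α : Type} (i1 i2 : Fintype α) (M : Matrix α α ℝ) :
    @Matrix.rank α α ℝ i1 _ M = @Matrix.rank α α ℝ i2 _ M := by
  rw [Subsingleton.elim i1 i2]

end RNK_

theorem p_RNK : T_RNK := by
  intro n f
  have h := XLR.p_RANK (Fin n) f
  refine le_trans ?_ (le_trans h (le_of_eq ?_))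
  swap
  · exact RNK_.rank_inst _ _ (XLR.xmat f)
  unfold spa XLR.spar
  have hfin : ({S : Fin n → ZMod 2 | XLR.fh (XLR.ind f) S ≠ 0}).Finite := Set.toFinite _
  rw [← Nat.card_coe_set_eq]
  refine Nat.card_le_card_of_injective (fun l : {l : Module.Dual (ZMod 2) (Fin n → ZMod 2) // fco (ind f) l ≠ 0} =>
    (⟨RNK_.vec l.1, fun h0 => l.2 (by
      have h0' : XLR.fh (XLR.ind f) (RNK_.vec l.1) = 0 := h0
      rw [RNK_.fco_eq, h0', zero_div])⟩ : {S : Fin n → ZMod 2 | XLR.fh (XLR.ind f) S ≠ 0})) ?_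
  intro l l' hll
  exact Subtype.ext (RNK_.vec_inj (congrArg Subtype.val hll))

end Pool.Agent.LRC
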