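import Pool.Agent.LRC.Targets

set_option autoImplicit false
set_option linter.unusedSectionVars false

/-!
# MP_9f5962_lc: STEP
-/

open scoped Classical

noncomputable section

namespace Pool.Agent.LRC

namespace STEP_

variable {E : Type} [AddCommGroup E] [Module (ZMod 2) E]

theorem add2 {T : E → E → E → ZMod 2} (hT : Tri T) (x a b z : E) :
    T x (a + b) z = T x a z + T x b z := by
  rw [hT.2.1 x (a + b) z, hT.1, hT.2.1 a x z, hT.2.1 b x z]

theorem add3 {T : E → E → E → ZMod 2} (hT : Tri T) (x y a b : E) :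
    T x y (a + b) = T x y a + T x y b := by
  rw [hT.2.2 x y (a + b), add2 hT, hT.2.2 x a y, hT.2.2 x b y]

theorem smul2 {T : E → E → E → ZMod 2} (hT : Tri T) (c : ZMod 2) (x y z : E) :
    T x (c • y) z = c * T x y z := by
  have hc : c = 0 ∨ c = 1 := by revert c; decide
  rcases hc with hc | hc
  · rw [hc, zero_smul, zero_mul]
    have h := add2 hT x 0 0 z
    rw [add_zero] at h
    have : ∀ u : ZMod 2, u = u + u → u = 0 := by decide
    exact this _ h
  · rw [hc, one_smul, one_mul]

theorem smul3 {T : E → E → E → ZMod 2} (hT : Tri T) (c : ZMod 2) (x y z : E) :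
    T x y (c • z) = c * T x y z := by
  rw [hT.2.2 x y (c • z), smul2 hT, hT.2.2 x z y]

/-- the bilinear form on `V × W` -/
def bil {T : E → E → E → ZMod 2} (hT : Tri T) (x : E) (V W : Submodule (ZMod 2) E) :
    V →ₗ[ZMod 2] W →ₗ[ZMod 2] ZMod 2 :=
  LinearMap.mk₂ (ZMod 2) (fun (y : V) (z : W) => T x y z)
    (fun y y' z => by
      rw [Submodule.coe_add]
      exact add2 hT x _ _ _)
    (fun c y z => by
      rw [Submodule.coe_smul]
      exact smul2 hT c x _ _)
    (fun y z z' => by
      rw [Submodule.coe_add]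
      exact add3 hT x _ _ _)
    (fun c y z => by
      rw [Submodule.coe_smul]
      exact smul3 hT c x _ _)

/-- the annihilator of `W` in `V` -/
def ann {T : E → E → E → ZMod 2} (hT : Tri T) (x : E) (V W : Submodule (ZMod 2) E) :
    Submodule (ZMod 2) E := (LinearMap.ker (bil hT x V W)).map V.subtype

theorem mem_ann {T : E → E → E → ZMod 2} (hT : Tri T) (x : E) (V W : Submodule (ZMod 2) E)
    (y : E) : y ∈ ann hT x V W ↔ y ∈ V ∧ ∀ z ∈ W, T x y z = 0 := by
  unfold ann
  rw [Submodule.mem_map]
  constructor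
  · rintro ⟨y, hy, rfl⟩
    refine ⟨y.2, fun z hz => ?_⟩
    rw [LinearMap.mem_ker] at hy
    exact LinearMap.congr_fun hy ⟨z, hz⟩
  · rintro ⟨hy, h⟩
    refine ⟨⟨y, hy⟩, ?_, rfl⟩
    rw [LinearMap.mem_ker]
    ext z
    exact h z z.2

theorem rad_eq_ann {T : E → E → E → ZMod 2} (hT : Tri T) (x : E) (V : Submodule (ZMod 2) E) :
    rad T V x = ann hT x V V := by
  ext y
  rw [mem_rad hT, mem_ann]

theorem flip_eq {T : E → E → E → ZMod 2} (hT : Tri T) (x : E) (V W : Submodule (ZMod 2) E) :
    (bil hT x V W).flip = bil hT x W V := by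
  ext z y
  exact hT.2.2 x y z

theorem finrank_range_flip [Finite E] {T : E → E → E → ZMod 2} (hT : Tri T) (x : E)
    (V W : Submodule (ZMod 2) E) :
    Module.finrank (ZMod 2) (LinearMap.range (bil hT x V W)) =
      Module.finrank (ZMod 2) (LinearMap.range (bil hT x W V)) := by
  have h1 := LinearMap.finrank_range_dualMap_eq_finrank_range (bil hT x V W)
  rw [← h1]
  have h2 : (bil hT x V W).dualMap ∘ₗ (Module.Dual.eval (ZMod 2) W) = bil hT x W V := by
    rw [← flip_eq hT x V W]
    rfl
  rw [← h2, LinearMap.range_comp_of_range_eq_top]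
  rw [LinearMap.range_eq_top]
  exact (Module.bijective_dual_eval (ZMod 2) W).2

theorem finrank_ann [Finite E] {T : E → E → E → ZMod 2} (hT : Tri T) (x : E)
    (V W : Submodule (ZMod 2) E) :
    Module.finrank (ZMod 2) (ann hT x V W) + Module.finrank (ZMod 2) W =
      Module.finrank (ZMod 2) V + Module.finrank (ZMod 2) (ann hT x W V) := by
  have h1 := LinearMap.finrank_range_add_finrank_ker (bil hT x V W)
  have h2 := LinearMap.finrank_range_add_finrank_ker (bil hT x W V)
  have h3 := finrank_range_flip hT x V W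
  have h4 : Module.finrank (ZMod 2) (ann hT x V W) =
      Module.finrank (ZMod 2) (LinearMap.ker (bil hT x V W)) :=
    Submodule.finrank_map_subtype_eq V _
  have h5 : Module.finrank (ZMod 2) (ann hT x W V) =
      Module.finrank (ZMod 2) (LinearMap.ker (bil hT x W V)) :=
    Submodule.finrank_map_subtype_eq W _
  omega

end STEP_

open STEP_ in
theorem p_STEP : T_STEP := by
  intro E _ _ _ T V x₀ x hT
  have hFE : FiniteDimensional (ZMod 2) E := Module.Finite.of_finite
  have hz2 : ∀ a b : ZMod 2, a + b = 0 → a = b := by decide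
  set K := rad T V x with hK
  set K' := rad T V (x₀ + x) with hK'
  set N := rad T V x₀ with hN
  set R := rad T N x with hR
  have e1 : K ⊓ K' ≤ R := by
    intro y hy
    rw [Submodule.mem_inf, hK, hK', mem_rad hT, mem_rad hT] at hy
    obtain ⟨⟨hyV, h1⟩, _, h2⟩ := hy
    rw [hR, mem_rad hT]
    refine ⟨?_, fun w hw => ?_⟩
    · rw [hN, mem_rad hT]
      refine ⟨hyV, fun z hz => ?_⟩
      have h3 := h2 z hz
      rw [hT.1, h1 z hz, add_zero] at h3
      exact h3
    · rw [hN, mem_rad hT] at hw
      exact h1 w hw.1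
  have e2 : K ⊔ K' ≤ ann hT x V N := by
    rw [sup_le_iff]
    constructor
    · intro y hy
      rw [hK, mem_rad hT] at hy
      rw [mem_ann]
      refine ⟨hy.1, fun z hz => hy.2 z ?_⟩
      rw [hN, mem_rad hT] at hz
      exact hz.1
    · intro y hy
      rw [hK', mem_rad hT] at hy
      rw [mem_ann]
      refine ⟨hy.1, fun z hz => ?_⟩
      rw [hN, mem_rad hT] at hz
      have h1 := hy.2 z hz.1
      rw [hT.1] at h1
      have h2 : T x₀ y z = 0 := by
        rw [hT.2.2]
        exact hz.2 y hy.1
      rw [h2, zero_add] at h1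
      exact h1
  have e3 := finrank_ann hT x V N
  have e4 : ann hT x N V ≤ R := by
    intro y hy
    rw [mem_ann] at hy
    rw [hR, mem_rad hT]
    refine ⟨hy.1, fun z hz => hy.2 z ?_⟩
    rw [hN, mem_rad hT] at hz
    exact hz.1
  have e5 := Submodule.finrank_sup_add_finrank_inf_eq K K'
  have e6 := Submodule.finrank_mono e1
  have e7 := Submodule.finrank_mono e2
  have e8 := Submodule.finrank_mono e4
  omega

end Pool.Agent.LRC
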