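import Pool.Agent.LRC.PLAN
import Pool.Agent.LRC.CONST
import Pool.Agent.LRC.QUAD
import Pool.Agent.LRC.LOW
import Pool.Agent.LRC.DBL
import Pool.Agent.LRC.STEP
import Pool.Agent.LRC.HALV
import Pool.Agent.LRC.CUB
import Pool.Agent.LRC.AVG
import Pool.Agent.LRC.REGS
import Pool.Agent.LRC.REG
import Pool.Agent.LRC.RES
import Pool.Agent.LRC.KILL
import Pool.Agent.LRC.MVP
import Pool.Agent.LRC.COS
import Pool.Agent.LRC.FOLD
import Pool.Agent.LRC.FUN
import Pool.Agent.LRC.QRY
import Pool.Agent.LRC.PDT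
import Pool.Agent.LRC.RNK
import Pool.Agent.LRC.NCO
import Pool.Agent.LRC.AMP
import Pool.Agent.LRC.CERT
import Pool.Agent.LRC.RED
import Pool.Agent.LRC.FIN1
import Pool.Agent.LRC.FIN2
import Pool.Agent.LRC.FIN3
import Pool.Agent.LRC.FIN4

set_option autoImplicit false

/-!
# MP_9f5962_lc: the log-rank conjecture for XOR functions and cubic queries

(1) The log-rank conjecture for all `f` of small postselected randomised cubic query complexity,
(2) for all `f` with small cubic certificates (for one of the two values), (3) structure of a single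
sparse function which is almost constant on a nonempty common zero set of `t` cubic polynomials,
(4) the log-rank conjecture for XOR functions follows if every `f` is constant on a nonempty common
zero set of `polylog (rank)` cubic polynomials.
-/

namespace Pool.Agent.LRC.CubicQueriesMain

theorem result :
    -- (1) postselected randomised cubic query complexity at most `t`
    (∀ (n : ℕ) (f : (Fin n → ZMod 2) → Bool) (t N : ℕ) (p : Fin N → ℝ)
        (P : Fin N → Fin t → MvPolynomial (Fin n) (ZMod 2)) (b : Fin N → Bool),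
      (∀ ω, 0 ≤ p ω) → (∀ ω i, (P ω i).totalDegree ≤ 3) →
      (∀ x : Fin n → ZMod 2,
        0 < (∑ ω : Fin N, if ∀ i, MvPolynomial.eval x (P ω i) = 0 then p ω else 0) ∧
        3 * (∑ ω : Fin N,
          if (∀ i, MvPolynomial.eval x (P ω i) = 0) ∧ b ω ≠ f x then p ω else 0) ≤
        ∑ ω : Fin N, if ∀ i, MvPolynomial.eval x (P ω i) = 0 then p ω else 0) →
      ∃ d : ℕ,
        (d : ℝ) ≤ 7760 * (t : ℝ) ^ 2 * (Real.logb 2
            ((Matrix.of (fun x y : Fin n → ZMod 2 =>
                if f (x + y) then (1 : ℝ) else 0)).rank : ℝ)) ^ 3 ∧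
        ∃ owner : List Bool → Bool,
        ∃ A : List Bool → (Fin n → ZMod 2) → Bool,
        ∃ B : List Bool → (Fin n → ZMod 2) → Bool,
        ∃ out : List Bool → Bool,
          ∀ x y : Fin n → ZMod 2, ∀ s : List Bool, s.length = d →
            (∀ i : ℕ, i < d →
              s[i]? = some (if owner (s.take i) then A (s.take i) x else B (s.take i) y)) →
            out s = f (x + y)) ∧
    -- (2) cubic certificates of size `t` for the inputs of value `b`
    (∀ (n : ℕ) (f : (Fin n → ZMod 2) → Bool) (t : ℕ) (b : Bool),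
      (∀ x, f x = b → ∃ P : Fin t → MvPolynomial (Fin n) (ZMod 2),
        (∀ i, (P i).totalDegree ≤ 3) ∧ (∀ i, MvPolynomial.eval x (P i) = 0) ∧
        ∀ y, (∀ i, MvPolynomial.eval y (P i) = 0) → f y = b) →
      ∃ d : ℕ,
        (d : ℝ) ≤ 388 * t * (t + Real.logb 2
            ((Matrix.of (fun x y : Fin n → ZMod 2 =>
                if f (x + y) then (1 : ℝ) else 0)).rank : ℝ)) * Real.logb 2
            ((Matrix.of (fun x y : Fin n → ZMod 2 =>
                if f (x + y) then (1 : ℝ) else 0)).rank : ℝ) ∧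
        ∃ owner : List Bool → Bool,
        ∃ A : List Bool → (Fin n → ZMod 2) → Bool,
        ∃ B : List Bool → (Fin n → ZMod 2) → Bool,
        ∃ out : List Bool → Bool,
          ∀ x y : Fin n → ZMod 2, ∀ s : List Bool, s.length = d →
            (∀ i : ℕ, i < d →
              s[i]? = some (if owner (s.take i) then A (s.take i) x else B (s.take i) y)) →
            out s = f (x + y)) ∧
    -- (3) a single function, almost constant on a nonempty common zero set of `t` cubics
    (∀ (n : ℕ) (f : (Fin n → ZMod 2) → Bool) (t : ℕ) (b : Bool)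
        (P : Fin t → MvPolynomial (Fin n) (ZMod 2)), (∀ i, (P i).totalDegree ≤ 3) →
      (∃ x, ∀ i, MvPolynomial.eval x (P i) = 0) →
      2 * ((Matrix.of (fun x y : Fin n → ZMod 2 =>
          if f (x + y) then (1 : ℝ) else 0)).rank + 1) *
          Set.ncard {x | (∀ i, MvPolynomial.eval x (P i) = 0) ∧ f x ≠ b} ≤
        Set.ncard {x : Fin n → ZMod 2 | ∀ i, MvPolynomial.eval x (P i) = 0} →
      ∃ (x₀ : Fin n → ZMod 2) (W : Submodule (ZMod 2) (Fin n → ZMod 2)),
        (n : ℝ) ≤ 97 * t * (t + Real.logb 2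
            ((Matrix.of (fun x y : Fin n → ZMod 2 =>
                if f (x + y) then (1 : ℝ) else 0)).rank : ℝ)) + Module.finrank (ZMod 2) W ∧
        ∀ w ∈ W, f (x₀ + w) = b) ∧
    -- (4) the reduction to cubic kill numbers
    ((∃ (C : ℝ) (k : ℕ), ∀ (n : ℕ) (f : (Fin n → ZMod 2) → Bool), ∃ t : ℕ,
        (t : ℝ) ≤ C * (Real.logb 2
            ((Matrix.of (fun x y : Fin n → ZMod 2 =>
                if f (x + y) then (1 : ℝ) else 0)).rank : ℝ)) ^ k + C ∧
        ∃ P : Fin t → MvPolynomial (Fin n) (ZMod 2), (∀ i, (P i).totalDegree ≤ 3) ∧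
          ∃ x, (∀ i, MvPolynomial.eval x (P i) = 0) ∧
            ∀ y, (∀ i, MvPolynomial.eval y (P i) = 0) → f y = f x) →
      ∃ C : ℝ, ∃ k : ℕ, ∀ n : ℕ, ∀ f : (Fin n → ZMod 2) → Bool,
        ∃ d : ℕ,
          (d : ℝ) ≤ C * (Real.logb 2
              ((Matrix.of (fun x y : Fin n → ZMod 2 =>
                  if f (x + y) then (1 : ℝ) else 0)).rank : ℝ)) ^ k + C ∧
          ∃ owner : List Bool → Bool,
          ∃ A : List Bool → (Fin n → ZMod 2) → Bool,
          ∃ B : List Bool → (Fin n → ZMod 2) → Bool,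
          ∃ out : List Bool → Bool,
            ∀ x y : Fin n → ZMod 2, ∀ t : List Bool, t.length = d →
              (∀ i : ℕ, i < d →
                t[i]? = some (if owner (t.take i) then A (t.take i) x else B (t.take i) y)) →
              out t = f (x + y)) := by
  have hCUB := Pool.Agent.LRC.p_CUB Pool.Agent.LRC.p_LOW Pool.Agent.LRC.p_DBL
    (Pool.Agent.LRC.p_HALV Pool.Agent.LRC.p_STEP)
  have hREG := Pool.Agent.LRC.p_REG
    (Pool.Agent.LRC.p_REGS Pool.Agent.LRC.p_QUAD hCUB Pool.Agent.LRC.p_AVG)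
  have hKILL := Pool.Agent.LRC.p_KILL hREG (Pool.Agent.LRC.p_CONST Pool.Agent.LRC.p_PLAN)
    Pool.Agent.LRC.p_RES
  have hCOS := Pool.Agent.LRC.p_COS hKILL Pool.Agent.LRC.p_MVP Pool.Agent.LRC.p_RES
  have hPDT := Pool.Agent.LRC.p_PDT (Pool.Agent.LRC.p_FOLD Pool.Agent.LRC.p_PLAN)
    Pool.Agent.LRC.p_FUN Pool.Agent.LRC.p_QRY Pool.Agent.LRC.p_PLAN
  have hFIN1 := Pool.Agent.LRC.p_FIN1 hCOS hPDT Pool.Agent.LRC.p_RNK Pool.Agent.LRC.p_NCO
  have hFIN2 := Pool.Agent.LRC.p_FIN2 Pool.Agent.LRC.p_AMP hFIN1 Pool.Agent.LRC.p_RNK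
    Pool.Agent.LRC.p_NCO
  have hFIN3 := Pool.Agent.LRC.p_FIN3 hKILL Pool.Agent.LRC.p_MVP Pool.Agent.LRC.p_RNK
    Pool.Agent.LRC.p_NCO
  have hFIN4 := Pool.Agent.LRC.p_FIN4 Pool.Agent.LRC.p_RED hFIN1
  refine ⟨?_, ?_, ?_, ?_⟩
  · intro n f t N p P b hp hP h
    refine hFIN2 n f t ⟨N, p, P, b, hp, hP, fun x => ?_⟩
    obtain ⟨h1, h2⟩ := h x
    have e1 : ∀ ω, (if ∀ i, MvPolynomial.eval x (P ω i) = 0 then p ω else 0) =
        @ite ℝ (Pool.Agent.LRC.MvZ (P ω) x)
          (Classical.propDecidable (Pool.Agent.LRC.MvZ (P ω) x)) (p ω) 0 := by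
      intro ω
      by_cases hz : ∀ i, MvPolynomial.eval x (P ω i) = 0
      · rw [if_pos hz, if_pos (show Pool.Agent.LRC.MvZ (P ω) x from hz)]
      · rw [if_neg hz, if_neg (show ¬ Pool.Agent.LRC.MvZ (P ω) x from hz)]
    have e2 : ∀ ω, (if (∀ i, MvPolynomial.eval x (P ω i) = 0) ∧ b ω ≠ f x then p ω else 0) =
        @ite ℝ (Pool.Agent.LRC.MvZ (P ω) x ∧ b ω ≠ f x)
          (@instDecidableAnd _ _ (Classical.propDecidable (Pool.Agent.LRC.MvZ (P ω) x)) _)
          (p ω) 0 := by
      intro ω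
      by_cases hz : (∀ i, MvPolynomial.eval x (P ω i) = 0) ∧ b ω ≠ f x
      · rw [if_pos hz, if_pos (show Pool.Agent.LRC.MvZ (P ω) x ∧ b ω ≠ f x from hz)]
      · rw [if_neg hz, if_neg (show ¬ (Pool.Agent.LRC.MvZ (P ω) x ∧ b ω ≠ f x) from hz)]
    simp only [e1, e2] at h1 h2
    exact ⟨h1, h2⟩
  · intro n f t b h
    exact hFIN1 n f t (Pool.Agent.LRC.p_CERT n f t b h _)
  · intro n f t b P hP hx hc
    exact hFIN3 n f t b P hP hx hc
  · intro h
    exact hFIN4 h

end Pool.Agent.LRC.CubicQueriesMain
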