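import Mathlib

set_option autoImplicit false

/-!
# MP_9f5962_lc: XOR functions and cubic queries: definitions

`E` is a finite vector space over `F_2`.
-/

open scoped Classical

noncomputable section

namespace Pool.Agent.LRC

section General

variable {E : Type} [AddCommGroup E] [Module (ZMod 2) E]

/-- The derivative of `P` in direction `h`. -/
def Dv (h : E) (P : E → ZMod 2) (x : E) : ZMod 2 := P (x + h) + P x

/-- All third derivatives vanish: degree at most `2`. -/
def Deg2 (P : E → ZMod 2) : Prop :=
  ∀ (a b c x : E), Dv a (Dv b (Dv c P)) x = 0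

/-- All fourth derivatives vanish: degree at most `3`. -/
def Deg3 (P : E → ZMod 2) : Prop :=
  ∀ (a b c d x : E), Dv a (Dv b (Dv c (Dv d P))) x = 0

/-- The sign `(-1)^a`. -/
def sg (a : ZMod 2) : ℝ := if a = 0 then 1 else -1

/-- The `0/1` valued real function of a Boolean function. -/
def ind (f : E → Bool) (x : E) : ℝ := if f x = true then 1 else 0

/-- The normalised Fourier coefficient of `F` at the functional `l`. -/
def fco (F : E → ℝ) (l : Module.Dual (ZMod 2) E) : ℝ := (∑ᶠ x : E, F x * sg (l x)) / (Nat.card E : ℝ)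

/-- The number of nonzero Fourier coefficients. -/
def spa (F : E → ℝ) : ℕ := Nat.card {l : Module.Dual (ZMod 2) E // fco F l ≠ 0}

/-- The number of nonzero Fourier coefficients at nonzero functionals. -/
def sp1 (F : E → ℝ) : ℕ := Nat.card {l : Module.Dual (ZMod 2) E // l ≠ 0 ∧ fco F l ≠ 0}

/-- Symmetric trilinear forms. -/
def Tri (T : E → E → E → ZMod 2) : Prop :=
  (∀ x x' y z, T (x + x') y z = T x y z + T x' y z) ∧ (∀ x y z, T x y z = T y x z) ∧
  (∀ x y z, T x y z = T x z y)

/-- The radical in `V` of the form `T x · ·` restricted to `V`. -/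
def rad (T : E → E → E → ZMod 2) (V : Submodule (ZMod 2) E) (x : E) : Submodule (ZMod 2) E :=
  Submodule.span (ZMod 2) {y | y ∈ V ∧ ∀ z ∈ V, T x y z = 0}

/-- The linear combination of the functions `P i`. -/
def comb {t : ℕ} (P : Fin t → E → ZMod 2) (c : Fin t → ZMod 2) (x : E) : ZMod 2 :=
  ∑ i, c i * P i x

/-- The set of common zeros of the functions `P i`. -/
def zer {t : ℕ} (P : Fin t → E → ZMod 2) : Set E := {x | ∀ i, P i x = 0}

theorem mem_rad {T : E → E → E → ZMod 2} (hT : Tri T) (V : Submodule (ZMod 2) E) (x y : E) :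
    y ∈ rad T V x ↔ y ∈ V ∧ ∀ z ∈ V, T x y z = 0 := by
  constructor
  · intro hy
    have hadd : ∀ a b z, T x (a + b) z = T x a z + T x b z := by
      intro a b z
      rw [hT.2.1 x (a + b) z, hT.1, hT.2.1 a x z, hT.2.1 b x z]
    have hzero : ∀ z, T x 0 z = 0 := by
      intro z
      have h := hadd 0 0 z
      rw [add_zero] at h
      have : ∀ u : ZMod 2, u = u + u → u = 0 := by decide
      exact this _ h
    refine Submodule.span_induction (p := fun y _ => y ∈ V ∧ ∀ z ∈ V, T x y z = 0) ?_ ?_ ?_ ?_ hy
    · intro y hy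
      exact hy
    · exact ⟨V.zero_mem, fun z _ => hzero z⟩
    · intro a b _ _ ha hb
      refine ⟨V.add_mem ha.1 hb.1, fun z hz => ?_⟩
      rw [hadd, ha.2 z hz, hb.2 z hz, add_zero]
    · intro c a _ ha
      have hc : c = 0 ∨ c = 1 := by revert c; decide
      rcases hc with hc | hc
      · rw [hc, zero_smul]
        exact ⟨V.zero_mem, fun z _ => hzero z⟩
      · rw [hc, one_smul]
        exact ha
  · intro hy
    exact Submodule.subset_span hy

end General

section Prot

variable {n : ℕ}

/-- `f (x + y)` has a deterministic two-party protocol of cost `d` (the encoding of the frozen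
statement `S15125`). -/
def Prot (f : (Fin n → ZMod 2) → Bool) (d : ℕ) : Prop :=
  ∃ owner : List Bool → Bool,
  ∃ A : List Bool → (Fin n → ZMod 2) → Bool,
  ∃ B : List Bool → (Fin n → ZMod 2) → Bool,
  ∃ out : List Bool → Bool,
    ∀ x y : Fin n → ZMod 2, ∀ t : List Bool, t.length = d →
      (∀ i : ℕ, i < d →
        t[i]? = some (if owner (t.take i) then A (t.take i) x else B (t.take i) y)) →
      out t = f (x + y)

/-- The real rank of the matrix of the XOR function. -/
def xrk (f : (Fin n → ZMod 2) → Bool) : ℕ :=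
  (Matrix.of (fun x y : Fin n → ZMod 2 => if f (x + y) then (1 : ℝ) else 0)).rank

/-- `MvZ P x`: `x` is a common zero of the polynomials `P i`. -/
def MvZ {t : ℕ} (P : Fin t → MvPolynomial (Fin n) (ZMod 2)) (x : Fin n → ZMod 2) : Prop :=
  ∀ i, MvPolynomial.eval x (P i) = 0

/-- Each coset `x + W` contains a common zero of some `t` polynomials of degree at most `3` such
that `f` differs from some constant `b` on at most a fraction `1 / M` of the common zeros in the
coset. -/
def Cub (f : (Fin n → ZMod 2) → Bool) (t M : ℕ) : Prop :=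
  ∀ (x : Fin n → ZMod 2) (W : Submodule (ZMod 2) (Fin n → ZMod 2)),
    ∃ (P : Fin t → MvPolynomial (Fin n) (ZMod 2)) (b : Bool),
      (∀ i, (P i).totalDegree ≤ 3) ∧ (∃ v ∈ W, MvZ P (x + v)) ∧
      M * Set.ncard {v | v ∈ W ∧ MvZ P (x + v) ∧ f (x + v) ≠ b} ≤
        Set.ncard {v | v ∈ W ∧ MvZ P (x + v)}

/-- Postselected randomised cubic query complexity at most `t`: a finite family of systems of `t`
equations of degree at most `3` together with an answer and a weight such that for each input `x`
the systems satisfied by `x` have positive weight and those with a wrong answer have at most one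
third of it. -/
def Rcub (f : (Fin n → ZMod 2) → Bool) (t : ℕ) : Prop :=
  ∃ (N : ℕ) (p : Fin N → ℝ) (P : Fin N → Fin t → MvPolynomial (Fin n) (ZMod 2))
    (b : Fin N → Bool), (∀ ω, 0 ≤ p ω) ∧ (∀ ω i, (P ω i).totalDegree ≤ 3) ∧
    ∀ x, 0 < (∑ ω, if MvZ (P ω) x then p ω else 0) ∧
      3 * (∑ ω, if MvZ (P ω) x ∧ b ω ≠ f x then p ω else 0) ≤
        ∑ ω, if MvZ (P ω) x then p ω else 0

end Prot

end Pool.Agent.LRC
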