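import Pool.Agent.LRC.Targets

set_option autoImplicit false

/-!
# LRC, target PDT: the protocol from hereditary kill numbers
-/

open scoped Classical

noncomputable section

namespace Pool.Agent.LRC

namespace PDT_

/-- a constant function has protocols of every cost -/
theorem prot_const {n : ℕ} (b : Bool) (d : ℕ) : Prot (fun _ : Fin n → ZMod 2 => b) d :=
  ⟨fun _ => true, fun _ _ => false, fun _ _ => false, fun _ => b, fun _ _ _ _ _ => rfl⟩

theorem ind_inj {E : Type} [AddCommGroup E] [Module (ZMod 2) E] (f : E → Bool) (x y : E)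
    (h : ind f x = ind f y) : f x = f y := by
  unfold ind at h
  cases hx : f x <;> cases hy : f y <;> simp_all

/-- no nonzero coefficient at nonzero functionals: constant -/
theorem const_of_sp1 (hP : T_PLAN) {E : Type} [AddCommGroup E] [Module (ZMod 2) E] [Finite E]
    (F : E → ℝ) (h : sp1 F = 0) (x y : E) : F x = F y := by
  have : Fintype E := Fintype.ofFinite E
  have hfd : Finite (Module.Dual (ZMod 2) E) :=
    Finite.of_injective (fun l : Module.Dual (ZMod 2) E => (l : E → ZMod 2))
      DFunLike.coe_injective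
  have h0 : ∀ l : Module.Dual (ZMod 2) E, l ≠ 0 → fco F l = 0 := by
    intro l hl
    by_contra hc
    unfold sp1 at h
    have hemp := (Nat.card_eq_zero.1 h).resolve_right (by
      intro hinf
      exact hinf.not_finite inferInstance)
    exact hemp.false ⟨l, hl, hc⟩
  have hN : (0 : ℝ) < (Nat.card E : ℝ) := by
    have : Nonempty E := ⟨0⟩
    exact_mod_cast Nat.card_pos
  set N : ℝ := (Nat.card E : ℝ) with hNd
  set μ : ℝ := (∑ z : E, F z) / N with hμ
  have hf0 : fco F 0 = μ := by
    unfold fco
    rw [finsum_eq_sum_of_fintype]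
    simp [sg, hμ, hNd]
  have h1 := hP E F F
  rw [finsum_eq_single _ (0 : Module.Dual (ZMod 2) E)
    (fun l hl => by rw [h0 l hl, zero_mul]), hf0, finsum_eq_sum_of_fintype] at h1
  have hS : ∑ z : E, F z = μ * N := by
    rw [hμ, div_mul_cancel₀ _ hN.ne']
  have hS2 : ∑ z : E, F z * F z = μ * μ * N := by
    rw [← h1, div_mul_cancel₀ _ hN.ne']
  have h2 : ∑ z : E, (F z - μ) ^ 2 = 0 := by
    have e : ∀ z : E, (F z - μ) ^ 2 = F z * F z - 2 * μ * F z + μ ^ 2 := fun z => by ring
    rw [Finset.sum_congr rfl fun z _ => e z, Finset.sum_add_distrib, Finset.sum_sub_distrib,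
      ← Finset.mul_sum, hS, hS2, Finset.sum_const, Finset.card_univ, nsmul_eq_mul,
      ← Nat.card_eq_fintype_card, ← hNd]
    ring
  have h3 : ∀ z : E, F z = μ := by
    intro z
    have h4 := (Finset.sum_eq_zero_iff_of_nonneg (fun z _ => sq_nonneg (F z - μ))).1 h2 z
      (Finset.mem_univ z)
    have h5 := pow_eq_zero_iff (two_ne_zero) |>.1 h4
    linarith
  rw [h3 x, h3 y]

/-- transport of the sparsity by a linear equivalence -/
theorem sp1_equiv {E E' : Type} [AddCommGroup E] [Module (ZMod 2) E] [Finite E]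
    [AddCommGroup E'] [Module (ZMod 2) E'] (e : E' ≃ₗ[ZMod 2] E) (F : E → ℝ) :
    sp1 (fun w : E' => F (e w)) ≤ sp1 F := by
  have hfd : Finite (Module.Dual (ZMod 2) E) :=
    Finite.of_injective (fun l : Module.Dual (ZMod 2) E => (l : E → ZMod 2))
      DFunLike.coe_injective
  have hco : ∀ l : Module.Dual (ZMod 2) E', fco (fun w : E' => F (e w)) l =
      fco F (l.comp (e.symm : E →ₗ[ZMod 2] E')) := by
    intro l
    unfold fco
    rw [Nat.card_congr e.toEquiv]
    congr 1
    rw [← finsum_comp_equiv e.toEquiv]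
    refine finsum_congr fun w => ?_
    simp
  unfold sp1
  refine Nat.card_le_card_of_injective (fun l => ⟨l.1.comp (e.symm : E →ₗ[ZMod 2] E'), ?_, ?_⟩) ?_
  · intro h
    apply l.2.1
    ext w
    have := LinearMap.congr_fun h (e w)
    simpa using this
  · rw [← hco]
    exact l.2.2
  · intro l l' h
    apply Subtype.ext
    ext w
    have := LinearMap.congr_fun (congrArg Subtype.val h) (e w)
    simpa using this

end PDT_

theorem p_PDT : T_FOLD → T_FUN → T_QRY → T_PLAN → T_PDT := by
  intro hFold hFun hQry hPlan n f K hk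
  have claim : ∀ (m : ℕ) (x : Fin n → ZMod 2) (W : Submodule (ZMod 2) (Fin n → ZMod 2)),
      sp1 (fun w : W => ind f (x + (w : Fin n → ZMod 2))) < 2 ^ m →
      ∃ g : (Fin n → ZMod 2) → Bool, Prot g (2 * K * m) ∧ ∀ w ∈ W, g (x + w) = f (x + w) := by
    intro m
    induction m with
    | zero =>
      intro x W h
      have h0 : sp1 (fun w : W => ind f (x + (w : Fin n → ZMod 2))) = 0 := by
        rw [pow_zero] at h
        omega
      refine ⟨fun _ => f x, PDT_.prot_const _ _, fun w hw => ?_⟩
      have h1 := PDT_.const_of_sp1 hPlan _ h0 (0 : W) ⟨w, hw⟩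
      have h2 := PDT_.ind_inj f _ _ h1
      simpa using h2
    | succ m ih =>
      intro x W h
      obtain ⟨x₁, hx₁, W', hle, hdim, hconst⟩ := hk x W
      obtain ⟨l, hl⟩ := hFun _ W' W K hle hdim
      have hg : ∀ v : Fin K → ZMod 2, ∃ g : (Fin n → ZMod 2) → Bool, Prot g (2 * K * m) ∧
          ∀ u ∈ W, (∀ i, l i (x + u) = v i) → g (x + u) = f (x + u) := by
        intro v
        by_cases hv : ∃ u ∈ W, ∀ i, l i (x + u) = v i
        · obtain ⟨u, hu, huv⟩ := hv
          have hF := hFold _ W' W f x x₁ (x + u) hle hx₁ (by simpa using hu) hconst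
          have hlt : sp1 (fun w : W' => ind f (x + u + (w : Fin n → ZMod 2))) < 2 ^ m := by
            rw [pow_succ] at h
            omega
          obtain ⟨g, hg1, hg2⟩ := ih (x + u) W' hlt
          refine ⟨g, hg1, fun u' hu' huv' => ?_⟩
          have hw : u' - u ∈ W' := by
            apply hl _ (W.sub_mem hu' hu)
            intro i
            have e : u' - u = (x + u') - (x + u) := by abel
            rw [e, map_sub, huv, huv', sub_self]
          have h3 := hg2 _ hw
          have e2 : x + u + (u' - u) = x + u' := by abel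
          rwa [e2] at h3
        · exact ⟨fun _ => true, PDT_.prot_const _ _, fun u hu huv => absurd ⟨u, hu, huv⟩ hv⟩
      choose G hG1 hG2 using hg
      refine ⟨fun z => G (fun i => l i z) z, ?_, fun w hw => ?_⟩
      · have := hQry n K (2 * K * m) l G hG1
        have e : 2 * K * (m + 1) = 2 * K + 2 * K * m := by ring
        rw [e]
        exact this
      · exact hG2 _ w hw fun i => rfl
  intro m hm
  have h1 : sp1 (fun w : (⊤ : Submodule (ZMod 2) (Fin n → ZMod 2)) =>
      ind f (0 + (w : Fin n → ZMod 2))) < 2 ^ m := by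
    refine lt_of_le_of_lt ?_ hm
    have h2 := PDT_.sp1_equiv (Submodule.topEquiv :
      (⊤ : Submodule (ZMod 2) (Fin n → ZMod 2)) ≃ₗ[ZMod 2] (Fin n → ZMod 2)) (ind f)
    refine le_trans (le_of_eq ?_) h2
    congr 1
    funext w
    rw [zero_add]
    rfl
  obtain ⟨g, hg1, hg2⟩ := claim m 0 ⊤ h1
  have hgf : g = f := by
    funext z
    have := hg2 z Submodule.mem_top
    rwa [zero_add] at this
  rwa [hgf] at hg1

end Pool.Agent.LRC
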