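import Pool.Agent.LRC.Targets

set_option autoImplicit false

/-!
# LRC, target PLAN: Plancherel on a finite vector space over `F_2`
-/

open scoped Classical

noncomputable section

namespace Pool.Agent.LRC

namespace PLAN_

theorem sg_add (a b : ZMod 2) : sg (a + b) = sg a * sg b := by
  have h : ∀ a : ZMod 2, a = 0 ∨ a = 1 := by decide
  have h10 : (1 : ZMod 2) ≠ 0 := by decide
  have h11 : (1 : ZMod 2) + 1 = 0 := by decide
  unfold sg
  rcases h a with ha | ha <;> rcases h b with hb | hb <;> subst ha <;> subst hb <;> simp [h10, h11]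

theorem self_add {E : Type} [AddCommGroup E] [Module (ZMod 2) E] (x : E) : x + x = 0 := by
  have h : (2 : ZMod 2) • x = 0 := by
    have : (2 : ZMod 2) = 0 := by decide
    rw [this, zero_smul]
  rw [two_smul] at h
  exact h

theorem orth {E : Type} [AddCommGroup E] [Module (ZMod 2) E] [Finite E]
    [Fintype (Module.Dual (ZMod 2) E)] (z : E) :
    ∑ l : Module.Dual (ZMod 2) E, sg (l z) =
      if z = 0 then (Fintype.card (Module.Dual (ZMod 2) E) : ℝ) else 0 := by
  by_cases hz : z = 0
  · subst hz
    rw [if_pos rfl]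
    simp [sg]
  · rw [if_neg hz]
    have h0 : ∃ l0 : Module.Dual (ZMod 2) E, l0 z ≠ 0 := by
      by_contra hc
      push Not at hc
      exact hz ((Module.forall_dual_apply_eq_zero_iff (ZMod 2) z).mp hc)
    obtain ⟨l0, hl0⟩ := h0
    have hs : sg (l0 z) = -1 := by unfold sg; rw [if_neg hl0]
    have h1 : ∑ l : Module.Dual (ZMod 2) E, sg ((l + l0) z) = ∑ l : Module.Dual (ZMod 2) E, sg (l z) :=
      Equiv.sum_comp (Equiv.addRight l0) (fun l : Module.Dual (ZMod 2) E => sg (l z))
    have h2 : ∑ l : Module.Dual (ZMod 2) E, sg ((l + l0) z) = -∑ l : Module.Dual (ZMod 2) E, sg (l z) := by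
      rw [← Finset.sum_neg_distrib]
      refine Finset.sum_congr rfl fun l _ => ?_
      rw [LinearMap.add_apply, sg_add, hs]
      ring
    linarith

end PLAN_

open PLAN_ in
theorem p_PLAN : T_PLAN := by
  intro E _ _ _ F G
  have : Fintype E := Fintype.ofFinite E
  have : Finite (Module.Dual (ZMod 2) E) := Finite.of_injective (fun l : Module.Dual (ZMod 2) E => (l : E → ZMod 2)) DFunLike.coe_injective
  have : Fintype (Module.Dual (ZMod 2) E) := Fintype.ofFinite _
  have hcard : (Fintype.card (Module.Dual (ZMod 2) E) : ℝ) = (Fintype.card E : ℝ) := by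
    have h1 := Module.card_eq_pow_finrank (K := ZMod 2) (V := E)
    have h2 := Module.card_eq_pow_finrank (K := ZMod 2) (V := Module.Dual (ZMod 2) E)
    rw [Subspace.dual_finrank_eq] at h2
    rw [h1, h2]
  have hN : (0 : ℝ) < (Fintype.card E : ℝ) := by
    exact_mod_cast Fintype.card_pos_iff.mpr ⟨(0 : E)⟩
  unfold fco
  rw [finsum_eq_sum_of_fintype, finsum_eq_sum_of_fintype, Nat.card_eq_fintype_card]
  simp_rw [finsum_eq_sum_of_fintype]
  set N : ℝ := (Fintype.card E : ℝ) with hNdef
  have key : ∑ l : Module.Dual (ZMod 2) E, (∑ x : E, F x * sg (l x)) * (∑ y : E, G y * sg (l y)) = N * ∑ x : E, F x * G x := by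
    calc ∑ l : Module.Dual (ZMod 2) E, (∑ x : E, F x * sg (l x)) * (∑ y : E, G y * sg (l y))
        = ∑ l : Module.Dual (ZMod 2) E, ∑ x : E, ∑ y : E, F x * G y * sg (l (x + y)) := by
          refine Finset.sum_congr rfl fun l _ => ?_
          rw [Finset.sum_mul_sum]
          refine Finset.sum_congr rfl fun x _ => Finset.sum_congr rfl fun y _ => ?_
          rw [map_add, sg_add]
          ring
      _ = ∑ x : E, ∑ y : E, F x * G y * ∑ l : Module.Dual (ZMod 2) E, sg (l (x + y)) := by
          rw [Finset.sum_comm]
          refine Finset.sum_congr rfl fun x _ => ?_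
          rw [Finset.sum_comm]
          refine Finset.sum_congr rfl fun y _ => ?_
          rw [Finset.mul_sum]
      _ = ∑ x : E, F x * G x * N := by
          refine Finset.sum_congr rfl fun x _ => ?_
          rw [Finset.sum_eq_single x]
          · rw [orth, self_add, if_pos rfl, hcard]
          · intro y _ hy
            rw [orth, if_neg, mul_zero]
            intro h
            apply hy
            have h2 := self_add x
            have : x + y = x + x := by rw [h, h2]
            exact add_left_cancel this
          · intro h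
            exact absurd (Finset.mem_univ x) h
      _ = N * ∑ x : E, F x * G x := by
          rw [← Finset.sum_mul, mul_comm]
  have h2 : ∑ l : Module.Dual (ZMod 2) E, (∑ x : E, F x * sg (l x)) / N * ((∑ y : E, G y * sg (l y)) / N) = (∑ x : E, F x * G x) / N := by
    have h3 : ∀ l : Module.Dual (ZMod 2) E, (∑ x : E, F x * sg (l x)) / N * ((∑ y : E, G y * sg (l y)) / N) =
        ((∑ x : E, F x * sg (l x)) * (∑ y : E, G y * sg (l y))) / (N * N) := fun l => by
      rw [div_mul_div_comm]
    rw [Finset.sum_congr rfl fun l _ => h3 l, ← Finset.sum_div, key, mul_div_mul_left _ _ hN.ne']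
  rw [← h2]

end Pool.Agent.LRC
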