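import Pool.Agent.LRC.Defs

set_option autoImplicit false

/-!
# MP_9f5962_lc: XOR functions and cubic queries: targets

Job `X` proves `theorem Pool.Agent.LRC.p_X : T_X` (or `T_A → T_B → T_X`, see the job) in
`Pool/Agent/LRC/X.lean`.
-/

open scoped Classical

noncomputable section

namespace Pool.Agent.LRC

/-- PLAN: Plancherel. -/
def T_PLAN : Prop := ∀ (E : Type) [AddCommGroup E] [Module (ZMod 2) E] [Finite E] (F G : E → ℝ),
  (∑ᶠ x : E, F x * G x) / (Nat.card E : ℝ) = ∑ᶠ l : Module.Dual (ZMod 2) E, fco F l * fco G l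

/-- CONST: a sparse `0/1` valued function which is rarely nonzero on a nonempty set cut out by `t`
functions all of whose linear combinations are constant or have small Fourier coefficients is
zero. -/
def T_CONST : Prop := ∀ (E : Type) [AddCommGroup E] [Module (ZMod 2) E] [Finite E]
  (g : E → ℝ) (s t k : ℕ) (P : Fin t → E → ZMod 2), (∀ x, g x = 0 ∨ g x = 1) →
  (zer P).Nonempty →
  2 * s * Set.ncard {x | x ∈ zer P ∧ g x ≠ 0} ≤ Set.ncard (zer P) →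
  (∀ c : Fin t → ZMod 2, (∀ x, comb P c x = comb P c 0) ∨
    ∀ l : Module.Dual (ZMod 2) E, |fco (fun x => sg (comb P c x)) l| ≤ (1 / 2 : ℝ) ^ k) →
  spa g ≤ s → 4 * s * 2 ^ t ≤ 2 ^ k → ∀ x, g x = 0

/-- QUAD: a quadratic phase with a large Fourier coefficient is affine on all cosets of a subspace
of small codimension. -/
def T_QUAD : Prop := ∀ (E : Type) [AddCommGroup E] [Module (ZMod 2) E] [Finite E]
  (Q : E → ZMod 2) (l : Module.Dual (ZMod 2) E) (k : ℕ), Deg2 Q →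
  (1 / 2 : ℝ) ^ k ≤ |fco (fun x => sg (Q x)) l| →
  ∃ W : Submodule (ZMod 2) E, Module.finrank (ZMod 2) E ≤ 2 * k + Module.finrank (ZMod 2) W ∧
    ∀ a ∈ W, ∀ b x : E, Dv b (Dv a Q) x = 0

/-- LOW: for a cubic phase with a large Fourier coefficient many of the derivatives have small
rank. -/
def T_LOW : Prop := ∀ (E : Type) [AddCommGroup E] [Module (ZMod 2) E] [Finite E]
  (P : E → ZMod 2) (l : Module.Dual (ZMod 2) E) (k : ℕ), Deg3 P →
  (1 / 2 : ℝ) ^ k ≤ |fco (fun x => sg (P x)) l| →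
  Tri (fun x y z => Dv x (Dv y (Dv z P)) 0) ∧
  Nat.card E ≤ 2 ^ (2 * k + 1) * Nat.card {h : E // Module.finrank (ZMod 2) E ≤
    4 * k + 1 + Module.finrank (ZMod 2) (rad (fun x y z => Dv x (Dv y (Dv z P)) 0) ⊤ h)}

/-- DBL: double counting: one of the radicals of small codimension consists of elements of small
rank. -/
def T_DBL : Prop := ∀ (E : Type) [AddCommGroup E] [Module (ZMod 2) E] [Finite E]
  (T : E → E → E → ZMod 2) (R m : ℕ), Tri T →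
  Nat.card E ≤ 2 ^ m * Nat.card {h : E // Module.finrank (ZMod 2) E ≤
    R + Module.finrank (ZMod 2) (rad T ⊤ h)} →
  ∃ y : E, Module.finrank (ZMod 2) E ≤ R + Module.finrank (ZMod 2) (rad T ⊤ y) ∧
    ∀ z ∈ rad T ⊤ y, Module.finrank (ZMod 2) E ≤
      2 * (R + m + 1) + Module.finrank (ZMod 2) (rad T ⊤ z)

/-- STEP: the rank inequality. -/
def T_STEP : Prop := ∀ (E : Type) [AddCommGroup E] [Module (ZMod 2) E] [Finite E]
  (T : E → E → E → ZMod 2) (V : Submodule (ZMod 2) E) (x₀ x : E), Tri T →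
  Module.finrank (ZMod 2) (rad T V x) + Module.finrank (ZMod 2) (rad T V (x₀ + x)) +
    Module.finrank (ZMod 2) (rad T V x₀) ≤
  Module.finrank (ZMod 2) V + 2 * Module.finrank (ZMod 2) (rad T (rad T V x₀) x)

/-- HALV: a trilinear form all of whose slices have rank at most `ρ` vanishes on a subspace of
codimension at most `2 * ρ`. -/
def T_HALV : Prop := ∀ (E : Type) [AddCommGroup E] [Module (ZMod 2) E] [Finite E]
  (T : E → E → E → ZMod 2) (ρ : ℕ) (V : Submodule (ZMod 2) E), Tri T →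
  (∀ x ∈ V, Module.finrank (ZMod 2) V ≤ ρ + Module.finrank (ZMod 2) (rad T V x)) →
  ∃ V' : Submodule (ZMod 2) E, V' ≤ V ∧
    Module.finrank (ZMod 2) V ≤ 2 * ρ + Module.finrank (ZMod 2) V' ∧
    ∀ x ∈ V', ∀ y ∈ V', ∀ z ∈ V', T x y z = 0

/-- CUB: a cubic phase with a large Fourier coefficient is quadratic on all cosets of a subspace
of small codimension. -/
def T_CUB : Prop := ∀ (E : Type) [AddCommGroup E] [Module (ZMod 2) E] [Finite E]
  (P : E → ZMod 2) (l : Module.Dual (ZMod 2) E) (k : ℕ), Deg3 P →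
  (1 / 2 : ℝ) ^ k ≤ |fco (fun x => sg (P x)) l| →
  ∃ W : Submodule (ZMod 2) E, Module.finrank (ZMod 2) E ≤ 28 * k + 13 + Module.finrank (ZMod 2) W ∧
    ∀ a ∈ W, ∀ b ∈ W, ∀ c ∈ W, ∀ x, Dv a (Dv b (Dv c P)) x = 0

/-- AVG: averaging over the cosets of `W`. -/
def T_AVG : Prop := ∀ (E : Type) [AddCommGroup E] [Module (ZMod 2) E] [Finite E]
  (W : Submodule (ZMod 2) E) (X B : Set E) (M : ℕ), X.Nonempty →
  M * Set.ncard {x | x ∈ X ∧ x ∈ B} ≤ Set.ncard X →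
  ∃ x₀ : E, (∃ v ∈ W, x₀ + v ∈ X) ∧
    M * Set.ncard {v | v ∈ W ∧ x₀ + v ∈ X ∧ x₀ + v ∈ B} ≤ Set.ncard {v | v ∈ W ∧ x₀ + v ∈ X}

/-- REGS: one step of the regularisation. -/
def T_REGS : Prop := ∀ (E : Type) [AddCommGroup E] [Module (ZMod 2) E] [Finite E]
  (t k M : ℕ) (P : Fin t → E → ZMod 2) (B : Set E) (c : Fin t → ZMod 2)
  (l : Module.Dual (ZMod 2) E), (∀ i, Deg3 (P i)) → (zer P).Nonempty →
  M * Set.ncard {x | x ∈ zer P ∧ x ∈ B} ≤ Set.ncard (zer P) →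
  (1 / 2 : ℝ) ^ k < |fco (fun x => sg (comb P c x)) l| →
  ∃ (x₀ : E) (W : Submodule (ZMod 2) E), (∃ v ∈ W, x₀ + v ∈ zer P) ∧
    M * Set.ncard {v | v ∈ W ∧ x₀ + v ∈ zer P ∧ x₀ + v ∈ B} ≤
      Set.ncard {v | v ∈ W ∧ x₀ + v ∈ zer P} ∧
    ((Deg2 (comb P c) ∧
      Module.finrank (ZMod 2) E ≤ 2 * k + 1 + Module.finrank (ZMod 2) W ∧
      ∀ w ∈ W, comb P c (x₀ + w) = comb P c x₀) ∨
    (¬ Deg2 (comb P c) ∧
      Module.finrank (ZMod 2) E ≤ 28 * k + 13 + Module.finrank (ZMod 2) W ∧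
      Deg2 (fun w : W => comb P c (x₀ + (w : E)))))

/-- REG: regularisation of `t` cubics. -/
def T_REG : Prop := ∀ (E : Type) [AddCommGroup E] [Module (ZMod 2) E] [Finite E]
  (t k M : ℕ) (P : Fin t → E → ZMod 2) (B : Set E), (∀ i, Deg3 (P i)) → (zer P).Nonempty →
  M * Set.ncard {x | x ∈ zer P ∧ x ∈ B} ≤ Set.ncard (zer P) →
  ∃ (x₀ : E) (W : Submodule (ZMod 2) E),
    Module.finrank (ZMod 2) E ≤ t * (30 * k + 14) + Module.finrank (ZMod 2) W ∧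
    (∃ v ∈ W, x₀ + v ∈ zer P) ∧
    M * Set.ncard {v | v ∈ W ∧ x₀ + v ∈ zer P ∧ x₀ + v ∈ B} ≤
      Set.ncard {v | v ∈ W ∧ x₀ + v ∈ zer P} ∧
    ∀ c : Fin t → ZMod 2, (∀ w ∈ W, comb P c (x₀ + w) = comb P c x₀) ∨
      ∀ l : Module.Dual (ZMod 2) W,
        |fco (fun w : W => sg (comb P c (x₀ + (w : E)))) l| ≤ (1 / 2 : ℝ) ^ k

/-- RES: the sparsity does not increase under restriction to a coset. -/
def T_RES : Prop := ∀ (E : Type) [AddCommGroup E] [Module (ZMod 2) E] [Finite E]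
  (W : Submodule (ZMod 2) E) (x₀ : E) (F : E → ℝ), spa (fun w : W => F (x₀ + (w : E))) ≤ spa F

/-- KILL: a sparse Boolean function which is almost constant on a nonempty set cut out by `t`
cubics is constant on an affine subspace of small codimension. -/
def T_KILL : Prop := ∀ (E : Type) [AddCommGroup E] [Module (ZMod 2) E] [Finite E]
  (f : E → Bool) (b : Bool) (s t k : ℕ) (P : Fin t → E → ZMod 2), (∀ i, Deg3 (P i)) →
  (zer P).Nonempty → 2 * (s + 1) * Set.ncard {x | x ∈ zer P ∧ f x ≠ b} ≤ Set.ncard (zer P) →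
  spa (ind f) ≤ s → 4 * (s + 1) * 2 ^ t ≤ 2 ^ k →
  ∃ (x₀ : E) (W : Submodule (ZMod 2) E),
    Module.finrank (ZMod 2) E ≤ t * (30 * k + 14) + Module.finrank (ZMod 2) W ∧
    ∀ w ∈ W, f (x₀ + w) = b

/-- MVP: polynomials of total degree at most `3` have vanishing fourth derivatives. -/
def T_MVP : Prop := ∀ (n : ℕ) (p : MvPolynomial (Fin n) (ZMod 2)), p.totalDegree ≤ 3 →
  Deg3 (fun x : Fin n → ZMod 2 => MvPolynomial.eval x p)

/-- COS: each coset contains a small coset on which `f` is constant. -/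
def T_COS : Prop := ∀ (n : ℕ) (f : (Fin n → ZMod 2) → Bool) (s t k : ℕ),
  Cub f t (2 * (s + 1)) → spa (ind f) ≤ s → 4 * (s + 1) * 2 ^ t ≤ 2 ^ k →
  ∀ (x : Fin n → ZMod 2) (W : Submodule (ZMod 2) (Fin n → ZMod 2)), ∃ x₁, x₁ - x ∈ W ∧
    ∃ W' : Submodule (ZMod 2) (Fin n → ZMod 2), W' ≤ W ∧
      Module.finrank (ZMod 2) W ≤ t * (30 * k + 14) + Module.finrank (ZMod 2) W' ∧
      ∀ w ∈ W', f (x₁ + w) = f x₁

/-- FOLD: if `f` is constant on one coset of `W` in `x + W₀` then the sparsity (at nonzero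
functionals) on every coset of `W` in `x + W₀` is at most half of that on `x + W₀`. -/
def T_FOLD : Prop := ∀ (E : Type) [AddCommGroup E] [Module (ZMod 2) E] [Finite E]
  (W W₀ : Submodule (ZMod 2) E) (f : E → Bool) (x x₁ x₂ : E), W ≤ W₀ → x₁ - x ∈ W₀ →
  x₂ - x ∈ W₀ → (∀ w ∈ W, f (x₁ + w) = f x₁) →
  2 * sp1 (fun w : W => ind f (x₂ + (w : E))) ≤ sp1 (fun w : W₀ => ind f (x + (w : E)))

/-- FUN: a subspace of codimension at most `K` is cut out by `K` functionals. -/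
def T_FUN : Prop := ∀ (E : Type) [AddCommGroup E] [Module (ZMod 2) E] [Finite E]
  (W W₀ : Submodule (ZMod 2) E) (K : ℕ), W ≤ W₀ →
  Module.finrank (ZMod 2) W₀ ≤ K + Module.finrank (ZMod 2) W →
  ∃ l : Fin K → Module.Dual (ZMod 2) E, ∀ x ∈ W₀, (∀ i, l i x = 0) → x ∈ W

/-- QRY: protocol for a function which is known after `K` parity queries. -/
def T_QRY : Prop := ∀ (n K d : ℕ) (l : Fin K → Module.Dual (ZMod 2) (Fin n → ZMod 2))
  (G : (Fin K → ZMod 2) → (Fin n → ZMod 2) → Bool), (∀ v, Prot (G v) d) →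
  Prot (fun z => G (fun i => l i z) z) (2 * K + d)

/-- PDT: the protocol from hereditary kill numbers. -/
def T_PDT : Prop := ∀ (n : ℕ) (f : (Fin n → ZMod 2) → Bool) (K : ℕ),
  (∀ (x : Fin n → ZMod 2) (W : Submodule (ZMod 2) (Fin n → ZMod 2)), ∃ x₁, x₁ - x ∈ W ∧
    ∃ W' : Submodule (ZMod 2) (Fin n → ZMod 2), W' ≤ W ∧
      Module.finrank (ZMod 2) W ≤ K + Module.finrank (ZMod 2) W' ∧
      ∀ w ∈ W', f (x₁ + w) = f x₁) →
  ∀ m : ℕ, sp1 (ind f) < 2 ^ m → Prot f (2 * K * m)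

/-- RNK: the sparsity is at most the rank. -/
def T_RNK : Prop := ∀ (n : ℕ) (f : (Fin n → ZMod 2) → Bool), spa (ind f) ≤ xrk f

/-- NCO: sparsity of nonconstant functions. -/
def T_NCO : Prop := ∀ (E : Type) [AddCommGroup E] [Module (ZMod 2) E] [Finite E]
  (f : E → Bool), sp1 (ind f) ≤ spa (ind f) ∧ ((∃ x y, f x ≠ f y) → 2 ≤ spa (ind f))

/-- AMP: amplification. -/
def T_AMP : Prop := ∀ (n : ℕ) (f : (Fin n → ZMod 2) → Bool) (t : ℕ), Rcub f t →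
  ∀ m : ℕ, Cub f (t * m) (2 ^ m)

/-- CERT: one-sided certificates. -/
def T_CERT : Prop := ∀ (n : ℕ) (f : (Fin n → ZMod 2) → Bool) (t : ℕ) (b : Bool),
  (∀ x, f x = b → ∃ P : Fin t → MvPolynomial (Fin n) (ZMod 2),
    (∀ i, (P i).totalDegree ≤ 3) ∧ MvZ P x ∧ ∀ y, MvZ P y → f y = b) →
  ∀ M : ℕ, Cub f t M

/-- RED: cubic kill numbers of all functions. -/
def T_RED : Prop := ∀ (C : ℝ) (k : ℕ),
  (∀ (n : ℕ) (f : (Fin n → ZMod 2) → Bool), ∃ t : ℕ,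
    (t : ℝ) ≤ C * (Real.logb 2 (xrk f : ℝ)) ^ k + C ∧
    ∃ P : Fin t → MvPolynomial (Fin n) (ZMod 2), (∀ i, (P i).totalDegree ≤ 3) ∧
      ∃ x, MvZ P x ∧ ∀ y, MvZ P y → f y = f x) →
  ∀ (n : ℕ) (f : (Fin n → ZMod 2) → Bool) (M : ℕ),
    Cub f (Nat.floor (C * (Real.logb 2 (xrk f : ℝ)) ^ k + C)) M

/-- FIN1: the theorem for hereditarily almost constant functions. -/
def T_FIN1 : Prop := ∀ (n : ℕ) (f : (Fin n → ZMod 2) → Bool) (t : ℕ),
  Cub f t (2 * (xrk f + 1)) →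
  ∃ d : ℕ, (d : ℝ) ≤ 388 * t * (t + Real.logb 2 (xrk f : ℝ)) * Real.logb 2 (xrk f : ℝ) ∧ Prot f d

/-- FIN2: the theorem for postselected randomised cubic queries. -/
def T_FIN2 : Prop := ∀ (n : ℕ) (f : (Fin n → ZMod 2) → Bool) (t : ℕ), Rcub f t →
  ∃ d : ℕ, (d : ℝ) ≤ 7760 * (t : ℝ) ^ 2 * (Real.logb 2 (xrk f : ℝ)) ^ 3 ∧ Prot f d

/-- FIN3: the theorem for a single function. -/
def T_FIN3 : Prop := ∀ (n : ℕ) (f : (Fin n → ZMod 2) → Bool) (t : ℕ) (b : Bool)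
  (P : Fin t → MvPolynomial (Fin n) (ZMod 2)), (∀ i, (P i).totalDegree ≤ 3) → (∃ x, MvZ P x) →
  2 * (xrk f + 1) * Set.ncard {x | MvZ P x ∧ f x ≠ b} ≤ Set.ncard {x | MvZ P x} →
  ∃ (x₀ : Fin n → ZMod 2) (W : Submodule (ZMod 2) (Fin n → ZMod 2)),
    (n : ℝ) ≤ 97 * t * (t + Real.logb 2 (xrk f : ℝ)) + Module.finrank (ZMod 2) W ∧
    ∀ w ∈ W, f (x₀ + w) = b

/-- FIN4: the reduction. -/
def T_FIN4 : Prop :=
  (∃ (C : ℝ) (k : ℕ), ∀ (n : ℕ) (f : (Fin n → ZMod 2) → Bool), ∃ t : ℕ,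
    (t : ℝ) ≤ C * (Real.logb 2 (xrk f : ℝ)) ^ k + C ∧
    ∃ P : Fin t → MvPolynomial (Fin n) (ZMod 2), (∀ i, (P i).totalDegree ≤ 3) ∧
      ∃ x, MvZ P x ∧ ∀ y, MvZ P y → f y = f x) →
  ∃ (C : ℝ) (k : ℕ), ∀ (n : ℕ) (f : (Fin n → ZMod 2) → Bool), ∃ d : ℕ,
    (d : ℝ) ≤ C * (Real.logb 2 (xrk f : ℝ)) ^ k + C ∧ Prot f d

end Pool.Agent.LRC
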